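import Pool.Agent.H.MP_b28609_co.LowD

/-!
# MP_b28609_co: lower bound, 1 rows (data)
-/

set_option autoImplicit false
set_option maxRecDepth 100000

namespace PatDom

/-- Parameters and potentials. -/
def par1 : Par := ⟨1, 1, 3, 1, 2,
  0x6⟩

/-- States after 0 columns. -/
def lst1_0 : List St := [⟨0,0,0,0,1,1,0,0⟩]

/-- States after 1 columns. -/
def lst1_1 : List St := [⟨0,0,0,0,0,0,0,0⟩]

/-- States after 2 columns. -/
def lst1_2 : List St := [⟨1,1,1,1,1,1,0,0⟩]

/-- States after 3 columns. -/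
def lst1_3 : List St := []

/-- Lists of states. -/
def lst1 : ℕ → List St
  | 0 => lst1_0
  | 1 => lst1_1
  | 2 => lst1_2
  | 3 => lst1_3
  | _ + 4 => []

/-- Excess. -/
def val1 : ℕ → ℕ
  | 0 => 0
  | 1 => 1
  | 2 => 1
  | 3 => 1
  | _ + 4 => 1

theorem pot1 : potOK par1 = true := by decide +kernel

theorem chain1 : chainOK par1 lst1 3 = true := by decide +kernel

theorem fin1 : finOK par1 0 lst1 val1 3 = true := by decide +kernel

theorem low1 (n : ℕ) (D : Finset (Fin 1 × Fin n)) (hD : Patrol (grid 1 n) D) :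
    1 * n + val1 n ≤ 3 * D.card :=
  low_all par1 pot1 0 0 3 lst1 val1 (by decide +kernel) rfl chain1 fin1
    (fun j hj => by
      rcases Nat.lt_or_ge j 4 with h | h
      · have : j = 3 := by omega
        subst this
        rfl
      · obtain ⟨k, rfl⟩ : ∃ k, j = k + 4 := ⟨j - 4, by omega⟩
        rfl)
    (fun j hj => by
      obtain ⟨k, rfl⟩ : ∃ k, j = k + 4 := ⟨j - 4, by omega⟩
      rfl) n D hD

end PatDom
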