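import Pool.Agent.H.MP_b28609_co.LowD

/-!
# MP_b28609_co: lower bound, 2 rows (data)
-/

set_option autoImplicit false
set_option maxRecDepth 100000

namespace PatDom

/-- Parameters and potentials. -/
def par2 : Par := ⟨2, 1, 2, 1, 2,
  0x40406b⟩

/-- States after 0 columns. -/
def lst2_0 : List St := [⟨0,0,0,0,3,3,0,0⟩]

/-- States after 1 columns. -/
def lst2_1 : List St := []

/-- Lists of states. -/
def lst2 : ℕ → List St
  | 0 => lst2_0
  | 1 => lst2_1
  | _ + 2 => []

/-- Excess. -/
def val2 : ℕ → ℕ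
  | 0 => 0
  | 1 => 1
  | _ + 2 => 1

theorem pot2 : potOK par2 = true := by decide +kernel

theorem chain2 : chainOK par2 lst2 1 = true := by decide +kernel

theorem fin2 : finOK par2 0 lst2 val2 1 = true := by decide +kernel

theorem low2 (n : ℕ) (D : Finset (Fin 2 × Fin n)) (hD : Patrol (grid 2 n) D) :
    1 * n + val2 n ≤ 2 * D.card :=
  low_all par2 pot2 0 0 1 lst2 val2 (by decide +kernel) rfl chain2 fin2
    (fun j hj => by
      rcases Nat.lt_or_ge j 2 with h | h
      · have : j = 1 := by omega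
        subst this
        rfl
      · obtain ⟨k, rfl⟩ : ∃ k, j = k + 2 := ⟨j - 2, by omega⟩
        rfl)
    (fun j hj => by
      obtain ⟨k, rfl⟩ : ∃ k, j = k + 2 := ⟨j - 2, by omega⟩
      rfl) n D hD

end PatDom
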