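import Pool.Agent.H.MP_b28609_co.LowD

/-!
# MP_b28609_co: lower bound, 3 rows (data)
-/

set_option autoImplicit false
set_option maxRecDepth 100000

namespace PatDom

/-- Parameters and potentials. -/
def par3 : Par := ⟨3, 3, 4, 3, 4,
  0x20000000100000003400000020000000300000003000400035475679⟩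

/-- States after 0 columns. -/
def lst3_0 : List St := [⟨0,0,0,0,7,7,3,3⟩]

/-- States after 1 columns. -/
def lst3_1 : List St := [⟨0,0,0,0,0,0,0,0⟩, ⟨0,1,0,1,0,3,0,1⟩, ⟨0,2,0,2,0,7,0,2⟩, ⟨0,4,0,4,0,6,0,1⟩, ⟨0,5,0,5,0,7,0,0⟩, ⟨1,0,1,0,3,0,1,0⟩, ⟨1,1,1,1,3,3,1,1⟩, ⟨1,2,0,0,3,7,1,2⟩, ⟨1,2,1,2,3,7,1,2⟩, ⟨1,4,1,4,3,6,1,1⟩, ⟨1,5,1,5,3,7,1,0⟩, ⟨2,0,2,0,7,0,2,0⟩, ⟨2,1,0,0,7,3,2,1⟩, ⟨2,1,2,1,7,3,2,1⟩, ⟨2,2,2,2,7,7,2,2⟩, ⟨2,4,0,0,7,6,2,1⟩, ⟨2,4,2,4,7,6,2,1⟩, ⟨2,5,0,1,7,7,2,0⟩, ⟨2,5,0,4,7,7,2,0⟩, ⟨2,5,2,5,7,7,2,0⟩, ⟨4,0,4,0,6,0,1,0⟩, ⟨4,1,4,1,6,3,1,1⟩, ⟨4,2,0,0,6,7,1,2⟩, ⟨4,2,4,2,6,7,1,2⟩,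 ⟨4,4,4,4,6,6,1,1⟩, ⟨4,5,4,5,6,7,1,0⟩, ⟨5,0,5,0,7,0,0,0⟩, ⟨5,1,5,1,7,3,0,1⟩, ⟨5,2,1,0,7,7,0,2⟩, ⟨5,2,4,0,7,7,0,2⟩, ⟨5,2,5,2,7,7,0,2⟩, ⟨5,4,5,4,7,6,0,1⟩, ⟨5,5,5,5,7,7,0,0⟩]

/-- States after 2 columns. -/
def lst3_2 : List St := [⟨0,1,0,0,5,3,0,0⟩, ⟨0,1,0,1,2,7,2,1⟩, ⟨0,4,0,0,5,6,0,0⟩, ⟨0,4,0,4,2,7,2,1⟩, ⟨0,7,0,2,5,7,0,0⟩, ⟨0,7,0,5,2,7,2,0⟩, ⟨1,0,0,0,3,5,0,0⟩, ⟨1,0,1,0,7,2,1,2⟩, ⟨1,1,1,1,3,7,0,1⟩, ⟨1,1,1,1,7,3,1,0⟩, ⟨1,2,0,0,7,7,1,1⟩, ⟨1,2,1,2,7,7,1,1⟩, ⟨1,4,0,0,7,7,1,1⟩, ⟨1,4,1,4,3,7,0,1⟩, ⟨1,4,1,4,7,6,1,0⟩, ⟨1,7,0,1,7,7,1,0⟩, ⟨1,7,1,3,7,7,1,0⟩, ⟨1,7,1,5,3,7,0,0⟩, ⟨2,1,0,0,7,7,1,1⟩,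 ⟨2,1,2,1,7,7,1,1⟩, ⟨2,2,0,0,7,7,1,1⟩, ⟨2,4,0,0,7,7,1,1⟩, ⟨2,4,2,4,7,7,1,1⟩, ⟨2,7,0,1,7,7,1,0⟩, ⟨2,7,0,4,7,7,1,0⟩, ⟨2,7,2,5,7,7,1,0⟩, ⟨4,0,0,0,6,5,0,0⟩, ⟨4,0,4,0,7,2,1,2⟩, ⟨4,1,0,0,7,7,1,1⟩, ⟨4,1,4,1,6,7,0,1⟩, ⟨4,1,4,1,7,3,1,0⟩, ⟨4,2,0,0,7,7,1,1⟩, ⟨4,2,4,2,7,7,1,1⟩, ⟨4,4,4,4,6,7,0,1⟩, ⟨4,4,4,4,7,6,1,0⟩, ⟨4,7,0,4,7,7,1,0⟩, ⟨4,7,4,5,6,7,0,0⟩, ⟨4,7,4,6,7,7,1,0⟩, ⟨7,0,2,0,7,5,0,0⟩, ⟨7,0,5,0,7,2,0,2⟩, ⟨7,1,1,0,7,7,0,1⟩, ⟨7,1,3,1,7,7,0,1⟩, ⟨7,1,5,1,7,3,0,0⟩, ⟨7,2,1,0,7,7,0,1⟩, ⟨7,2,4,0,7,7,0,1⟩, ⟨7,2,5,2,7,7,0,1⟩, ⟨7,4,4,0,7,7,0,1⟩, ⟨7,4,5,4,7,6,0,0⟩, ⟨7,4,6,4,7,7,0,1⟩, ⟨7,7,1,1,7,7,0,0⟩,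 ⟨7,7,1,4,7,7,0,0⟩, ⟨7,7,3,5,7,7,0,0⟩, ⟨7,7,4,1,7,7,0,0⟩, ⟨7,7,4,4,7,7,0,0⟩, ⟨7,7,5,3,7,7,0,0⟩, ⟨7,7,5,6,7,7,0,0⟩, ⟨7,7,6,5,7,7,0,0⟩, ⟨7,7,7,7,7,7,0,0⟩]

/-- States after 3 columns. -/
def lst3_3 : List St := [⟨0,0,0,0,1,2,0,1⟩, ⟨0,0,0,0,1,4,0,0⟩, ⟨0,0,0,0,2,1,1,0⟩, ⟨0,0,0,0,2,2,1,1⟩, ⟨0,0,0,0,2,4,1,0⟩, ⟨0,0,0,0,4,1,0,0⟩, ⟨0,0,0,0,4,2,0,1⟩, ⟨0,1,0,1,1,7,0,0⟩, ⟨0,1,0,1,2,7,1,0⟩, ⟨0,2,0,0,7,7,0,0⟩, ⟨0,2,0,2,1,7,0,0⟩, ⟨0,2,0,2,2,7,1,0⟩, ⟨0,2,0,2,4,7,0,0⟩, ⟨0,4,0,4,2,7,1,0⟩, ⟨0,4,0,4,4,7,0,0⟩, ⟨0,5,0,0,7,7,0,2⟩, ⟨0,5,0,1,4,7,0,2⟩, ⟨0,5,0,4,1,7,0,2⟩, ⟨1,0,1,0,7,1,0,0⟩, ⟨1,0,1,0,7,2,0,1⟩,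 ⟨1,2,0,0,7,7,0,0⟩, ⟨1,2,1,2,7,7,0,0⟩, ⟨1,4,0,0,7,7,0,0⟩, ⟨1,4,1,4,7,7,0,0⟩, ⟨1,5,1,1,7,7,0,2⟩, ⟨2,0,0,0,7,7,0,0⟩, ⟨2,0,2,0,7,1,0,0⟩, ⟨2,0,2,0,7,2,0,1⟩, ⟨2,0,2,0,7,4,0,0⟩, ⟨2,1,0,0,7,7,0,0⟩, ⟨2,1,2,1,7,7,0,0⟩, ⟨2,2,2,2,7,7,0,0⟩, ⟨2,4,0,0,7,7,0,0⟩, ⟨2,4,2,4,7,7,0,0⟩, ⟨2,5,0,0,7,7,0,2⟩, ⟨2,5,2,1,7,7,0,2⟩, ⟨2,5,2,4,7,7,0,2⟩, ⟨4,0,4,0,7,2,0,1⟩, ⟨4,0,4,0,7,4,0,0⟩, ⟨4,1,0,0,7,7,0,0⟩, ⟨4,1,4,1,7,7,0,0⟩, ⟨4,2,0,0,7,7,0,0⟩, ⟨4,2,4,2,7,7,0,0⟩, ⟨4,5,4,4,7,7,0,2⟩, ⟨5,0,0,0,7,7,2,0⟩, ⟨5,0,1,0,7,4,2,0⟩, ⟨5,0,4,0,7,1,2,0⟩, ⟨5,1,1,1,7,7,2,0⟩, ⟨5,2,0,0,7,7,2,0⟩, ⟨5,2,1,2,7,7,2,0⟩, ⟨5,2,4,2,7,7,2,0⟩,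 ⟨5,4,4,4,7,7,2,0⟩]

/-- States after 4 columns. -/
def lst3_4 : List St := [⟨0,0,0,0,2,5,0,2⟩, ⟨0,0,0,0,5,2,2,0⟩, ⟨0,3,0,1,2,7,0,0⟩, ⟨0,3,0,2,5,7,2,0⟩, ⟨0,6,0,2,5,7,2,0⟩, ⟨0,6,0,4,2,7,0,0⟩, ⟨3,0,1,0,7,2,0,0⟩, ⟨3,0,2,0,7,5,0,2⟩, ⟨3,5,1,1,7,7,0,1⟩, ⟨3,5,1,4,7,7,0,1⟩, ⟨3,5,3,5,7,7,0,1⟩, ⟨3,6,0,0,7,7,0,0⟩, ⟨3,6,1,2,7,7,0,0⟩, ⟨3,6,2,4,7,7,0,0⟩, ⟨3,6,3,6,7,7,0,0⟩, ⟨5,3,1,1,7,7,1,0⟩, ⟨5,3,4,1,7,7,1,0⟩, ⟨5,3,5,3,7,7,1,0⟩, ⟨5,5,5,5,7,7,1,1⟩, ⟨5,6,1,4,7,7,1,0⟩, ⟨5,6,4,4,7,7,1,0⟩, ⟨5,6,5,6,7,7,1,0⟩, ⟨6,0,2,0,7,5,0,2⟩, ⟨6,0,4,0,7,2,0,0⟩, ⟨6,3,0,0,7,7,0,0⟩, ⟨6,3,2,1,7,7,0,0⟩, ⟨6,3,4,2,7,7,0,0⟩,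 ⟨6,3,6,3,7,7,0,0⟩, ⟨6,5,4,1,7,7,0,1⟩, ⟨6,5,4,4,7,7,0,1⟩, ⟨6,5,6,5,7,7,0,1⟩]

/-- States after 5 columns. -/
def lst3_5 : List St := [⟨0,0,0,0,3,6,0,0⟩, ⟨0,0,0,0,6,3,0,0⟩, ⟨0,2,0,0,3,7,0,2⟩, ⟨0,2,0,0,6,7,0,2⟩, ⟨0,5,0,1,6,7,0,0⟩, ⟨0,5,0,4,3,7,0,0⟩, ⟨2,0,0,0,7,3,2,0⟩, ⟨2,0,0,0,7,6,2,0⟩, ⟨2,5,0,1,7,7,2,0⟩, ⟨2,5,0,4,7,7,2,0⟩, ⟨2,5,2,5,7,7,2,0⟩, ⟨5,0,1,0,7,6,0,0⟩, ⟨5,0,4,0,7,3,0,0⟩, ⟨5,2,1,0,7,7,0,2⟩, ⟨5,2,4,0,7,7,0,2⟩, ⟨5,2,5,2,7,7,0,2⟩]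

/-- States after 6 columns. -/
def lst3_6 : List St := [⟨0,1,0,0,5,3,0,0⟩, ⟨0,1,0,1,2,3,2,0⟩, ⟨0,4,0,0,5,6,0,0⟩, ⟨0,4,0,4,2,6,2,0⟩, ⟨1,0,0,0,3,5,0,0⟩, ⟨1,0,1,0,3,2,0,2⟩, ⟨1,1,1,1,3,3,0,0⟩, ⟨1,2,0,0,3,7,0,1⟩, ⟨1,2,1,2,3,7,0,1⟩, ⟨1,4,1,4,3,6,0,0⟩, ⟨2,1,0,0,7,3,1,0⟩, ⟨2,1,2,1,7,3,1,0⟩, ⟨2,4,0,0,7,6,1,0⟩, ⟨2,4,2,4,7,6,1,0⟩, ⟨4,0,0,0,6,5,0,0⟩, ⟨4,0,4,0,6,2,0,2⟩, ⟨4,1,4,1,6,3,0,0⟩, ⟨4,2,0,0,6,7,0,1⟩, ⟨4,2,4,2,6,7,0,1⟩, ⟨4,4,4,4,6,6,0,0⟩]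

/-- States after 7 columns. -/
def lst3_7 : List St := [⟨0,1,0,1,2,7,1,0⟩, ⟨0,4,0,4,2,7,1,0⟩, ⟨1,0,1,0,7,2,0,1⟩, ⟨1,2,0,0,7,7,0,0⟩, ⟨1,2,1,2,7,7,0,0⟩, ⟨1,4,0,0,7,7,0,0⟩, ⟨1,5,1,1,7,7,0,2⟩, ⟨2,1,0,0,7,7,0,0⟩, ⟨2,1,2,1,7,7,0,0⟩, ⟨2,4,0,0,7,7,0,0⟩, ⟨2,4,2,4,7,7,0,0⟩, ⟨4,0,4,0,7,2,0,1⟩, ⟨4,1,0,0,7,7,0,0⟩, ⟨4,2,0,0,7,7,0,0⟩, ⟨4,2,4,2,7,7,0,0⟩, ⟨4,5,4,4,7,7,0,2⟩, ⟨5,1,1,1,7,7,2,0⟩, ⟨5,4,4,4,7,7,2,0⟩]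

/-- States after 8 columns. -/
def lst3_8 : List St := []

/-- Lists of states. -/
def lst3 : ℕ → List St
  | 0 => lst3_0
  | 1 => lst3_1
  | 2 => lst3_2
  | 3 => lst3_3
  | 4 => lst3_4
  | 5 => lst3_5
  | 6 => lst3_6
  | 7 => lst3_7
  | 8 => lst3_8
  | _ + 9 => []

/-- Excess. -/
def val3 : ℕ → ℕ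
  | 0 => 0
  | 1 => 4
  | 2 => 2
  | 3 => 3
  | 4 => 4
  | 5 => 4
  | 6 => 4
  | 7 => 3
  | 8 => 4
  | _ + 9 => 4

theorem pot3 : potOK par3 = true := by decide +kernel

theorem chain3 : chainOK par3 lst3 8 = true := by decide +kernel

theorem fin3 : finOK par3 3 lst3 val3 8 = true := by decide +kernel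

theorem low3 (n : ℕ) (D : Finset (Fin 3 × Fin n)) (hD : Patrol (grid 3 n) D) :
    3 * n + val3 n ≤ 4 * D.card :=
  low_all par3 pot3 3 3 8 lst3 val3 (by decide +kernel) rfl chain3 fin3
    (fun j hj => by
      rcases Nat.lt_or_ge j 9 with h | h
      · have : j = 8 := by omega
        subst this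
        rfl
      · obtain ⟨k, rfl⟩ : ∃ k, j = k + 9 := ⟨j - 9, by omega⟩
        rfl)
    (fun j hj => by
      obtain ⟨k, rfl⟩ : ∃ k, j = k + 9 := ⟨j - 9, by omega⟩
      rfl) n D hD

end PatDom
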