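import Pool.Agent.H.MP_b28609_co.LowD

/-!
# MP_b28609_co: lower bound, 4 rows (data)
-/

set_option autoImplicit false
set_option maxRecDepth 100000

namespace PatDom

/-- Parameters and potentials. -/
def par4 : Par := ⟨4, 1, 1, 1, 2,
  0x4000000000000000500000000000000040000000400000005600000040000000400000004000000050000000400040004000400040404080666baaaf⟩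

/-- States after 0 columns. -/
def lst4_0 : List St := [⟨0,0,0,0,15,15,0,0⟩]

/-- States after 1 columns. -/
def lst4_1 : List St := [⟨2,2,2,2,7,7,0,0⟩, ⟨2,4,0,0,7,14,0,0⟩, ⟨2,4,2,4,7,14,0,0⟩, ⟨4,2,0,0,14,7,0,0⟩, ⟨4,2,4,2,14,7,0,0⟩, ⟨4,4,4,4,14,14,0,0⟩]

/-- States after 2 columns. -/
def lst4_2 : List St := [⟨1,8,1,8,7,14,0,0⟩, ⟨8,1,8,1,14,7,0,0⟩]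

/-- States after 3 columns. -/
def lst4_3 : List St := [⟨1,8,0,0,11,13,0,0⟩, ⟨8,1,0,0,13,11,0,0⟩]

/-- States after 4 columns. -/
def lst4_4 : List St := [⟨2,4,0,0,15,15,0,0⟩, ⟨2,4,2,4,15,15,0,0⟩, ⟨4,2,0,0,15,15,0,0⟩, ⟨4,2,4,2,15,15,0,0⟩]

/-- States after 5 columns. -/
def lst4_5 : List St := [⟨0,0,0,0,2,4,0,0⟩, ⟨0,0,0,0,4,2,0,0⟩, ⟨0,1,0,1,2,7,0,0⟩, ⟨0,2,0,2,2,7,0,0⟩, ⟨0,2,0,2,4,7,0,0⟩, ⟨0,4,0,4,2,14,0,0⟩, ⟨0,4,0,4,4,14,0,0⟩, ⟨0,8,0,8,4,14,0,0⟩, ⟨1,0,1,0,7,2,0,0⟩, ⟨1,2,0,0,7,7,0,0⟩, ⟨1,2,1,2,7,7,0,0⟩, ⟨1,4,1,4,7,14,0,0⟩, ⟨1,8,1,8,7,14,0,0⟩, ⟨2,0,2,0,7,2,0,0⟩, ⟨2,0,2,0,7,4,0,0⟩, ⟨2,1,0,0,7,7,0,0⟩, ⟨2,1,2,1,7,7,0,0⟩,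 ⟨2,2,2,2,7,7,0,0⟩, ⟨2,4,0,0,7,14,0,0⟩, ⟨2,4,2,4,7,14,0,0⟩, ⟨2,8,2,8,7,14,0,0⟩, ⟨4,0,4,0,14,2,0,0⟩, ⟨4,0,4,0,14,4,0,0⟩, ⟨4,1,4,1,14,7,0,0⟩, ⟨4,2,0,0,14,7,0,0⟩, ⟨4,2,4,2,14,7,0,0⟩, ⟨4,4,4,4,14,14,0,0⟩, ⟨4,8,0,0,14,14,0,0⟩, ⟨4,8,4,8,14,14,0,0⟩, ⟨8,0,8,0,14,4,0,0⟩, ⟨8,1,8,1,14,7,0,0⟩, ⟨8,2,8,2,14,7,0,0⟩, ⟨8,4,0,0,14,14,0,0⟩, ⟨8,4,8,4,14,14,0,0⟩]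

/-- States after 6 columns. -/
def lst4_6 : List St := [⟨1,1,1,1,7,11,0,0⟩, ⟨1,1,1,1,11,7,0,0⟩, ⟨1,8,0,0,11,13,0,0⟩, ⟨1,8,1,8,7,14,0,0⟩, ⟨1,11,0,1,11,15,0,0⟩, ⟨1,11,1,3,11,15,0,0⟩, ⟨1,13,1,9,7,15,0,0⟩, ⟨8,1,0,0,13,11,0,0⟩, ⟨8,1,8,1,14,7,0,0⟩, ⟨8,8,8,8,13,14,0,0⟩, ⟨8,8,8,8,14,13,0,0⟩, ⟨8,11,8,9,14,15,0,0⟩, ⟨8,13,0,8,13,15,0,0⟩, ⟨8,13,8,12,13,15,0,0⟩, ⟨11,1,1,0,15,11,0,0⟩, ⟨11,1,3,1,15,11,0,0⟩, ⟨11,8,9,8,15,14,0,0⟩, ⟨11,13,1,8,15,15,0,0⟩, ⟨11,13,3,9,15,15,0,0⟩, ⟨11,13,9,9,15,15,0,0⟩, ⟨11,13,9,12,15,15,0,0⟩, ⟨11,13,11,13,15,15,0,0⟩, ⟨13,1,9,1,15,7,0,0⟩, ⟨13,8,8,0,15,13,0,0⟩, ⟨13,8,12,8,15,13,0,0⟩, ⟨13,11,8,1,15,15,0,0⟩,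 ⟨13,11,9,3,15,15,0,0⟩, ⟨13,11,9,9,15,15,0,0⟩, ⟨13,11,12,9,15,15,0,0⟩, ⟨13,11,13,11,15,15,0,0⟩]

/-- States after 7 columns. -/
def lst4_7 : List St := [⟨1,8,0,0,11,13,0,0⟩, ⟨2,4,0,0,15,15,0,0⟩, ⟨2,4,2,4,15,15,0,0⟩, ⟨4,2,0,0,15,15,0,0⟩, ⟨4,2,4,2,15,15,0,0⟩, ⟨8,1,0,0,13,11,0,0⟩]

/-- States after 8 columns. -/
def lst4_8 : List St := [⟨0,0,0,0,2,4,0,0⟩, ⟨0,0,0,0,4,2,0,0⟩, ⟨0,1,0,1,2,7,0,0⟩, ⟨0,2,0,2,2,7,0,0⟩, ⟨0,2,0,2,4,7,0,0⟩, ⟨0,4,0,4,2,14,0,0⟩, ⟨0,4,0,4,4,14,0,0⟩, ⟨0,8,0,8,4,14,0,0⟩, ⟨1,0,1,0,7,2,0,0⟩, ⟨1,2,0,0,7,7,0,0⟩, ⟨1,2,1,2,7,7,0,0⟩, ⟨1,4,1,4,7,14,0,0⟩, ⟨1,8,1,8,7,14,0,0⟩, ⟨2,0,2,0,7,2,0,0⟩, ⟨2,0,2,0,7,4,0,0⟩,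 ⟨2,1,0,0,7,7,0,0⟩, ⟨2,1,2,1,7,7,0,0⟩, ⟨2,2,2,2,7,7,0,0⟩, ⟨2,4,0,0,7,14,0,0⟩, ⟨2,4,0,0,15,15,0,0⟩, ⟨2,4,2,4,7,14,0,0⟩, ⟨2,4,2,4,15,15,0,0⟩, ⟨2,8,2,8,7,14,0,0⟩, ⟨4,0,4,0,14,2,0,0⟩, ⟨4,0,4,0,14,4,0,0⟩, ⟨4,1,4,1,14,7,0,0⟩, ⟨4,2,0,0,14,7,0,0⟩, ⟨4,2,0,0,15,15,0,0⟩, ⟨4,2,4,2,14,7,0,0⟩, ⟨4,2,4,2,15,15,0,0⟩, ⟨4,4,4,4,14,14,0,0⟩, ⟨4,8,0,0,14,14,0,0⟩, ⟨4,8,4,8,14,14,0,0⟩, ⟨8,0,8,0,14,4,0,0⟩, ⟨8,1,8,1,14,7,0,0⟩, ⟨8,2,8,2,14,7,0,0⟩, ⟨8,4,0,0,14,14,0,0⟩, ⟨8,4,8,4,14,14,0,0⟩]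

/-- States after 9 columns. -/
def lst4_9 : List St := [⟨0,0,0,0,2,4,0,0⟩, ⟨0,0,0,0,4,2,0,0⟩, ⟨0,1,0,1,2,7,0,0⟩, ⟨0,2,0,2,2,7,0,0⟩, ⟨0,2,0,2,4,7,0,0⟩, ⟨0,4,0,4,2,14,0,0⟩, ⟨0,4,0,4,4,14,0,0⟩, ⟨0,8,0,8,4,14,0,0⟩, ⟨1,0,1,0,7,2,0,0⟩, ⟨1,1,1,1,7,11,0,0⟩, ⟨1,1,1,1,11,7,0,0⟩, ⟨1,2,0,0,7,7,0,0⟩, ⟨1,2,1,2,7,7,0,0⟩, ⟨1,4,1,4,7,14,0,0⟩, ⟨1,8,0,0,11,13,0,0⟩, ⟨1,8,1,8,7,14,0,0⟩, ⟨1,11,0,1,11,15,0,0⟩, ⟨1,11,1,3,11,15,0,0⟩, ⟨1,13,1,9,7,15,0,0⟩, ⟨2,0,2,0,7,2,0,0⟩, ⟨2,0,2,0,7,4,0,0⟩, ⟨2,1,0,0,7,7,0,0⟩, ⟨2,1,2,1,7,7,0,0⟩, ⟨2,2,2,2,7,7,0,0⟩, ⟨2,4,0,0,7,14,0,0⟩, ⟨2,4,2,4,7,14,0,0⟩, ⟨2,8,2,8,7,14,0,0⟩, ⟨4,0,4,0,14,2,0,0⟩, ⟨4,0,4,0,14,4,0,0⟩,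 ⟨4,1,4,1,14,7,0,0⟩, ⟨4,2,0,0,14,7,0,0⟩, ⟨4,2,4,2,14,7,0,0⟩, ⟨4,4,4,4,14,14,0,0⟩, ⟨4,8,0,0,14,14,0,0⟩, ⟨4,8,4,8,14,14,0,0⟩, ⟨8,0,8,0,14,4,0,0⟩, ⟨8,1,0,0,13,11,0,0⟩, ⟨8,1,8,1,14,7,0,0⟩, ⟨8,2,8,2,14,7,0,0⟩, ⟨8,4,0,0,14,14,0,0⟩, ⟨8,4,8,4,14,14,0,0⟩, ⟨8,8,8,8,13,14,0,0⟩, ⟨8,8,8,8,14,13,0,0⟩, ⟨8,11,8,9,14,15,0,0⟩, ⟨8,13,0,8,13,15,0,0⟩, ⟨8,13,8,12,13,15,0,0⟩, ⟨11,1,1,0,15,11,0,0⟩, ⟨11,1,3,1,15,11,0,0⟩, ⟨11,8,9,8,15,14,0,0⟩, ⟨11,13,1,8,15,15,0,0⟩, ⟨11,13,3,9,15,15,0,0⟩, ⟨11,13,9,9,15,15,0,0⟩, ⟨11,13,9,12,15,15,0,0⟩, ⟨11,13,11,13,15,15,0,0⟩, ⟨13,1,9,1,15,7,0,0⟩, ⟨13,8,8,0,15,13,0,0⟩, ⟨13,8,12,8,15,13,0,0⟩, ⟨13,11,8,1,15,15,0,0⟩,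 ⟨13,11,9,3,15,15,0,0⟩, ⟨13,11,9,9,15,15,0,0⟩, ⟨13,11,12,9,15,15,0,0⟩, ⟨13,11,13,11,15,15,0,0⟩]

/-- States after 10 columns. -/
def lst4_10 : List St := [⟨1,1,1,1,7,11,0,0⟩, ⟨1,1,1,1,11,7,0,0⟩, ⟨1,8,0,0,11,13,0,0⟩, ⟨1,8,1,8,7,14,0,0⟩, ⟨1,11,0,1,11,15,0,0⟩, ⟨1,11,1,3,11,15,0,0⟩, ⟨1,13,1,9,7,15,0,0⟩, ⟨2,4,0,0,15,15,0,0⟩, ⟨2,4,2,4,15,15,0,0⟩, ⟨4,2,0,0,15,15,0,0⟩, ⟨4,2,4,2,15,15,0,0⟩, ⟨8,1,0,0,13,11,0,0⟩, ⟨8,1,8,1,14,7,0,0⟩, ⟨8,8,8,8,13,14,0,0⟩, ⟨8,8,8,8,14,13,0,0⟩, ⟨8,11,8,9,14,15,0,0⟩, ⟨8,13,0,8,13,15,0,0⟩, ⟨8,13,8,12,13,15,0,0⟩, ⟨11,1,1,0,15,11,0,0⟩, ⟨11,1,3,1,15,11,0,0⟩, ⟨11,8,9,8,15,14,0,0⟩, ⟨11,13,1,8,15,15,0,0⟩,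 ⟨11,13,3,9,15,15,0,0⟩, ⟨11,13,9,9,15,15,0,0⟩, ⟨11,13,9,12,15,15,0,0⟩, ⟨11,13,11,13,15,15,0,0⟩, ⟨13,1,9,1,15,7,0,0⟩, ⟨13,8,8,0,15,13,0,0⟩, ⟨13,8,12,8,15,13,0,0⟩, ⟨13,11,8,1,15,15,0,0⟩, ⟨13,11,9,3,15,15,0,0⟩, ⟨13,11,9,9,15,15,0,0⟩, ⟨13,11,12,9,15,15,0,0⟩, ⟨13,11,13,11,15,15,0,0⟩]

/-- States after 11 columns. -/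
def lst4_11 : List St := [⟨0,0,0,0,2,4,0,0⟩, ⟨0,0,0,0,4,2,0,0⟩, ⟨0,1,0,1,2,7,0,0⟩, ⟨0,2,0,2,2,7,0,0⟩, ⟨0,2,0,2,4,7,0,0⟩, ⟨0,4,0,4,2,14,0,0⟩, ⟨0,4,0,4,4,14,0,0⟩, ⟨0,8,0,8,4,14,0,0⟩, ⟨1,0,1,0,7,2,0,0⟩, ⟨1,2,0,0,7,7,0,0⟩, ⟨1,2,1,2,7,7,0,0⟩, ⟨1,4,1,4,7,14,0,0⟩, ⟨1,8,0,0,11,13,0,0⟩, ⟨1,8,1,8,7,14,0,0⟩, ⟨2,0,2,0,7,2,0,0⟩, ⟨2,0,2,0,7,4,0,0⟩, ⟨2,1,0,0,7,7,0,0⟩, ⟨2,1,2,1,7,7,0,0⟩, ⟨2,2,2,2,7,7,0,0⟩, ⟨2,4,0,0,7,14,0,0⟩, ⟨2,4,0,0,15,15,0,0⟩, ⟨2,4,2,4,7,14,0,0⟩, ⟨2,4,2,4,15,15,0,0⟩, ⟨2,8,2,8,7,14,0,0⟩, ⟨4,0,4,0,14,2,0,0⟩, ⟨4,0,4,0,14,4,0,0⟩, ⟨4,1,4,1,14,7,0,0⟩, ⟨4,2,0,0,14,7,0,0⟩, ⟨4,2,0,0,15,15,0,0⟩, ⟨4,2,4,2,14,7,0,0⟩, ⟨4,2,4,2,15,15,0,0⟩,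 ⟨4,4,4,4,14,14,0,0⟩, ⟨4,8,0,0,14,14,0,0⟩, ⟨4,8,4,8,14,14,0,0⟩, ⟨8,0,8,0,14,4,0,0⟩, ⟨8,1,0,0,13,11,0,0⟩, ⟨8,1,8,1,14,7,0,0⟩, ⟨8,2,8,2,14,7,0,0⟩, ⟨8,4,0,0,14,14,0,0⟩, ⟨8,4,8,4,14,14,0,0⟩]

/-- States after 12 columns. -/
def lst4_12 : List St := [⟨0,0,0,0,2,4,0,0⟩, ⟨0,0,0,0,4,2,0,0⟩, ⟨0,1,0,1,2,7,0,0⟩, ⟨0,2,0,2,2,7,0,0⟩, ⟨0,2,0,2,4,7,0,0⟩, ⟨0,4,0,4,2,14,0,0⟩, ⟨0,4,0,4,4,14,0,0⟩, ⟨0,8,0,8,4,14,0,0⟩, ⟨1,0,1,0,7,2,0,0⟩, ⟨1,1,1,1,7,11,0,0⟩, ⟨1,1,1,1,11,7,0,0⟩, ⟨1,2,0,0,7,7,0,0⟩, ⟨1,2,1,2,7,7,0,0⟩, ⟨1,4,1,4,7,14,0,0⟩, ⟨1,8,0,0,11,13,0,0⟩, ⟨1,8,1,8,7,14,0,0⟩, ⟨1,11,0,1,11,15,0,0⟩, ⟨1,11,1,3,11,15,0,0⟩, ⟨1,13,1,9,7,15,0,0⟩,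 ⟨2,0,2,0,7,2,0,0⟩, ⟨2,0,2,0,7,4,0,0⟩, ⟨2,1,0,0,7,7,0,0⟩, ⟨2,1,2,1,7,7,0,0⟩, ⟨2,2,2,2,7,7,0,0⟩, ⟨2,4,0,0,7,14,0,0⟩, ⟨2,4,0,0,15,15,0,0⟩, ⟨2,4,2,4,7,14,0,0⟩, ⟨2,4,2,4,15,15,0,0⟩, ⟨2,8,2,8,7,14,0,0⟩, ⟨4,0,4,0,14,2,0,0⟩, ⟨4,0,4,0,14,4,0,0⟩, ⟨4,1,4,1,14,7,0,0⟩, ⟨4,2,0,0,14,7,0,0⟩, ⟨4,2,0,0,15,15,0,0⟩, ⟨4,2,4,2,14,7,0,0⟩, ⟨4,2,4,2,15,15,0,0⟩, ⟨4,4,4,4,14,14,0,0⟩, ⟨4,8,0,0,14,14,0,0⟩, ⟨4,8,4,8,14,14,0,0⟩, ⟨8,0,8,0,14,4,0,0⟩, ⟨8,1,0,0,13,11,0,0⟩, ⟨8,1,8,1,14,7,0,0⟩, ⟨8,2,8,2,14,7,0,0⟩, ⟨8,4,0,0,14,14,0,0⟩, ⟨8,4,8,4,14,14,0,0⟩, ⟨8,8,8,8,13,14,0,0⟩, ⟨8,8,8,8,14,13,0,0⟩, ⟨8,11,8,9,14,15,0,0⟩, ⟨8,13,0,8,13,15,0,0⟩, ⟨8,13,8,12,13,15,0,0⟩,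 ⟨11,1,1,0,15,11,0,0⟩, ⟨11,1,3,1,15,11,0,0⟩, ⟨11,8,9,8,15,14,0,0⟩, ⟨11,13,1,8,15,15,0,0⟩, ⟨11,13,3,9,15,15,0,0⟩, ⟨11,13,9,9,15,15,0,0⟩, ⟨11,13,9,12,15,15,0,0⟩, ⟨11,13,11,13,15,15,0,0⟩, ⟨13,1,9,1,15,7,0,0⟩, ⟨13,8,8,0,15,13,0,0⟩, ⟨13,8,12,8,15,13,0,0⟩, ⟨13,11,8,1,15,15,0,0⟩, ⟨13,11,9,3,15,15,0,0⟩, ⟨13,11,9,9,15,15,0,0⟩, ⟨13,11,12,9,15,15,0,0⟩, ⟨13,11,13,11,15,15,0,0⟩]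

/-- First lists. -/
def pre4 : ℕ → List St
  | 0 => lst4_0
  | 1 => lst4_1
  | 2 => lst4_2
  | 3 => lst4_3
  | 4 => lst4_4
  | 5 => lst4_5
  | 6 => lst4_6
  | 7 => lst4_7
  | 8 => lst4_8
  | 9 => lst4_9
  | 10 => lst4_10
  | _ => lst4_11

/-- Periodic lists. -/
def per4 : ℕ → List St
  | _ => lst4_12

/-- Lists of states. -/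
def lst4 (j : ℕ) : List St := if j < 12 then pre4 j else per4 ((j - 12) % 1)

/-- Excess. -/
def val4 (j : ℕ) : ℕ := if j = 1 ∨ j = 2 ∨ j = 3 ∨ j = 5 ∨ j = 6 ∨ j = 9 then 1 else 0

theorem pot4 : potOK par4 = true := by decide +kernel

theorem chain4 : chainOK par4 lst4 13 = true := by decide +kernel

theorem fin4 : finOK par4 0 lst4 val4 13 = true := by decide +kernel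

theorem low4 (n : ℕ) (D : Finset (Fin 4 × Fin n)) (hD : Patrol (grid 4 n) D) :
    1 * n + val4 n ≤ 1 * D.card :=
  low_per par4 pot4 0 0 12 1 (by decide) lst4 val4 (by decide +kernel) rfl chain4 fin4
    (fun j hj => by
      unfold lst4
      rw [if_neg (by omega), if_neg (by omega)]
      congr 1
      omega)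
    (fun j hj => by
      unfold val4
      split_ifs <;> omega) n D hD

end PatDom
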