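import Mathlib

/-!
# MP_b28609_co: patrolling dominating sets, definitions
-/

set_option autoImplicit false

namespace PatDom

/-- The grid graph: the box product of two paths. -/
def grid (m n : ℕ) : SimpleGraph (Fin m × Fin n) :=
  SimpleGraph.boxProd (SimpleGraph.pathGraph m) (SimpleGraph.pathGraph n)

/-- `D` is a dominating set of `G`. -/
def Dom {V : Type} (G : SimpleGraph V) (D : Finset V) : Prop :=
  ∀ v, v ∉ D → ∃ u ∈ D, G.Adj v u

/-- `D` is a patrolling dominating set: it is dominating, and some dominating set `D'` is the image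
of `D` under a bijection which moves every vertex of `D` along an edge. -/
def Patrol {V : Type} (G : SimpleGraph V) (D : Finset V) : Prop :=
  Dom G D ∧ ∃ D' : Finset V, Dom G D' ∧ ∃ φ : D ≃ D', ∀ v : D, G.Adj (v : V) (φ v : V)

/-- The domination number. -/
noncomputable def dnum {V : Type} (G : SimpleGraph V) : ℕ :=
  sInf {k | ∃ D : Finset V, Dom G D ∧ D.card = k}

/-- The patrolling domination number. -/
noncomputable def pnum {V : Type} (G : SimpleGraph V) : ℕ :=
  sInf {k | ∃ D : Finset V, Patrol G D ∧ D.card = k}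

theorem grid_adj {m n : ℕ} (a b : Fin m × Fin n) :
    (grid m n).Adj a b ↔
      ((a.1.val + 1 = b.1.val ∨ b.1.val + 1 = a.1.val) ∧ a.2 = b.2) ∨
      ((a.2.val + 1 = b.2.val ∨ b.2.val + 1 = a.2.val) ∧ a.1 = b.1) := by
  unfold grid
  rw [SimpleGraph.boxProd_adj, SimpleGraph.pathGraph_adj, SimpleGraph.pathGraph_adj]

/-- A family of guards with distinct starting points and distinct end points. -/
theorem patrol_of_fam {V ι : Type} [DecidableEq V] [Fintype ι] (G : SimpleGraph V) (t h : ι → V)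
    (ht : Function.Injective t) (hh : Function.Injective h) (ha : ∀ i, G.Adj (t i) (h i))
    (dt : ∀ v, (∃ i, v = t i) ∨ ∃ i, G.Adj v (t i))
    (dh : ∀ v, (∃ i, v = h i) ∨ ∃ i, G.Adj v (h i)) :
    ∃ D : Finset V, Patrol G D ∧ D.card = Fintype.card ι := by
  classical
  have key : ∀ f : ι → V, Function.Injective f →
      ∃ e : ι ≃ (Finset.univ.image f : Finset V), ∀ i, ((e i : (Finset.univ.image f : Finset V)) : V) = f i := by
    intro f hf
    refine ⟨Equiv.ofBijective
      (fun i => ⟨f i, Finset.mem_image_of_mem f (Finset.mem_univ i)⟩) ⟨?_, ?_⟩, ?_⟩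
    · intro i j hij
      exact hf (congrArg Subtype.val hij)
    · rintro ⟨v, hv⟩
      obtain ⟨i, -, hi⟩ := Finset.mem_image.1 hv
      exact ⟨i, Subtype.ext hi⟩
    · intro i
      rfl
  obtain ⟨e, he⟩ := key t ht
  obtain ⟨e', he'⟩ := key h hh
  refine ⟨Finset.univ.image t, ⟨?_, Finset.univ.image h, ?_, e.symm.trans e', ?_⟩, ?_⟩
  · intro v hv
    rcases dt v with ⟨i, hi⟩ | ⟨i, hi⟩
    · exact absurd (Finset.mem_image.2 ⟨i, Finset.mem_univ i, hi.symm⟩) hv
    · exact ⟨t i, Finset.mem_image_of_mem t (Finset.mem_univ i), hi⟩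
  · intro v hv
    rcases dh v with ⟨i, hi⟩ | ⟨i, hi⟩
    · exact absurd (Finset.mem_image.2 ⟨i, Finset.mem_univ i, hi.symm⟩) hv
    · exact ⟨h i, Finset.mem_image_of_mem h (Finset.mem_univ i), hi⟩
  · intro v
    have h1 : (v : V) = t (e.symm v) := by
      rw [← he, Equiv.apply_symm_apply]
    rw [h1, Equiv.trans_apply, he']
    exact ha _
  · rw [Finset.card_image_of_injective _ ht, Finset.card_univ]

theorem dnum_exists {V : Type} [Fintype V] (G : SimpleGraph V) :
    ∃ D : Finset V, Dom G D ∧ D.card = dnum G := by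
  have : {k | ∃ D : Finset V, Dom G D ∧ D.card = k}.Nonempty :=
    ⟨_, Finset.univ, fun v hv => absurd (Finset.mem_univ v) hv, rfl⟩
  exact Nat.sInf_mem this

theorem dnum_le {V : Type} (G : SimpleGraph V) (D : Finset V) (h : Dom G D) : dnum G ≤ D.card :=
  Nat.sInf_le ⟨D, h, rfl⟩

theorem pnum_le {V : Type} (G : SimpleGraph V) (D : Finset V) (h : Patrol G D) :
    pnum G ≤ D.card :=
  Nat.sInf_le ⟨D, h, rfl⟩

/-- Exact value from the two bounds. -/
theorem pnum_eq {V : Type} (G : SimpleGraph V) (k : ℕ) (h1 : ∃ D : Finset V, Patrol G D ∧ D.card = k)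
    (h2 : ∀ D : Finset V, Patrol G D → k ≤ D.card) : pnum G = k := by
  apply le_antisymm
  · obtain ⟨D, hD, hk⟩ := h1
    exact hk ▸ pnum_le G D hD
  · obtain ⟨D, hD, hk⟩ := h1
    have hne : {k | ∃ D : Finset V, Patrol G D ∧ D.card = k}.Nonempty := ⟨k, D, hD, hk⟩
    obtain ⟨D', hD', hk'⟩ := Nat.sInf_mem hne
    have := h2 D' hD'
    rw [hk'] at this
    exact this

end PatDom
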