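import Pool.Agent.H.MP_b28609_co.Def

/-!
# MP_b28609_co: transposition
-/

set_option autoImplicit false

namespace PatDom

theorem patrol_iso {V W : Type} [DecidableEq W] (G : SimpleGraph V) (H : SimpleGraph W)
    (e : G ≃g H) (D : Finset V) (hD : Patrol G D) :
    ∃ D2 : Finset W, Patrol H D2 ∧ D2.card = D.card := by
  obtain ⟨h1, D', h2, φ, hφ⟩ := hD
  have hadj : ∀ a b : V, G.Adj a b → H.Adj (e a) (e b) := fun a b h => e.map_adj_iff.2 h
  suffices Hs : Function.Injective (fun x : D => e x.1) ∧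
      Function.Injective (fun x : D => e (φ x).1) ∧ (∀ x : D, H.Adj (e x.1) (e (φ x).1)) ∧
      (∀ v, (∃ x : D, v = e x.1) ∨ ∃ x : D, H.Adj v (e x.1)) ∧
      (∀ v, (∃ x : D, v = e (φ x).1) ∨ ∃ x : D, H.Adj v (e (φ x).1)) by
    obtain ⟨H1, H2, H3, H4, H5⟩ := Hs
    obtain ⟨D2, hD2, hc⟩ := patrol_of_fam H (fun x : D => e x.1) (fun x : D => e (φ x).1)
      H1 H2 H3 H4 H5
    exact ⟨D2, hD2, by rw [hc, Fintype.card_coe]⟩
  refine ⟨?_, ?_, ?_, ?_, ?_⟩
  · intro x y hxy
    exact Subtype.ext (e.injective hxy)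
  · intro x y hxy
    exact φ.injective (Subtype.ext (e.injective hxy))
  · intro x
    exact hadj _ _ (hφ x)
  · intro v
    by_cases hv : e.symm v ∈ D
    · left
      exact ⟨⟨_, hv⟩, (e.apply_symm_apply v).symm⟩
    · right
      obtain ⟨u, hu, huv⟩ := h1 _ hv
      refine ⟨⟨u, hu⟩, ?_⟩
      have := hadj _ _ huv
      rw [e.apply_symm_apply] at this
      exact this
  · intro v
    by_cases hv : e.symm v ∈ D'
    · left
      refine ⟨φ.symm ⟨_, hv⟩, ?_⟩
      rw [φ.apply_symm_apply]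
      exact (e.apply_symm_apply v).symm
    · right
      obtain ⟨u, hu, huv⟩ := h2 _ hv
      refine ⟨φ.symm ⟨u, hu⟩, ?_⟩
      rw [φ.apply_symm_apply]
      have := hadj _ _ huv
      rw [e.apply_symm_apply] at this
      exact this

theorem pnum_iso {V W : Type} [DecidableEq V] [DecidableEq W] (G : SimpleGraph V)
    (H : SimpleGraph W) (e : G ≃g H) : pnum G = pnum H := by
  unfold pnum
  congr 1
  ext k
  constructor
  · rintro ⟨D, hD, hk⟩
    obtain ⟨D2, h1, h2⟩ := patrol_iso G H e D hD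
    exact ⟨D2, h1, h2.trans hk⟩
  · rintro ⟨D, hD, hk⟩
    obtain ⟨D2, h1, h2⟩ := patrol_iso H G e.symm D hD
    exact ⟨D2, h1, h2.trans hk⟩

/-- Transposition of grids. -/
def gridIso (m n : ℕ) : grid m n ≃g grid n m :=
  SimpleGraph.boxProdComm (SimpleGraph.pathGraph m) (SimpleGraph.pathGraph n)

theorem pnum_comm (m n : ℕ) : pnum (grid m n) = pnum (grid n m) :=
  pnum_iso _ _ (gridIso m n)

theorem dnum_le_iso {V W : Type} [Fintype V] (G : SimpleGraph V) (H : SimpleGraph W)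
    (e : G ≃g H) : dnum H ≤ dnum G := by
  obtain ⟨D, hD, hc⟩ := dnum_exists G
  have h : Dom H (D.map e.toEquiv.toEmbedding) := by
    intro v hv
    have hv' : e.symm v ∉ D := by
      intro h
      apply hv
      refine Finset.mem_map.2 ⟨_, h, ?_⟩
      exact e.apply_symm_apply v
    obtain ⟨u, hu, huv⟩ := hD _ hv'
    refine ⟨e u, Finset.mem_map.2 ⟨u, hu, rfl⟩, ?_⟩
    have := e.map_adj_iff.2 huv
    rw [e.apply_symm_apply] at this
    exact this
  have := dnum_le H _ h
  rw [Finset.card_map, hc] at this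
  exact this

theorem dnum_comm (m n : ℕ) : dnum (grid m n) = dnum (grid n m) :=
  le_antisymm (dnum_le_iso _ _ (gridIso n m)) (dnum_le_iso _ _ (gridIso m n))

end PatDom
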