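import Pool.Agent.H.MP_b28609_co.Def

/-!
# MP_b28609_co: the general upper bound
-/

set_option autoImplicit false

namespace PatDom

/-- Border columns. -/
private def Bd (n : ℕ) (c : Fin (n + 1)) : Prop := c.val = 0 ∨ c.val = n

private instance (n : ℕ) : DecidablePred (Bd n) := fun c => by unfold Bd; infer_instance

private theorem gen_choice {m n : ℕ} (D : Finset (Fin m × Fin (n + 1)))
    (hD : Dom (grid m (n + 1)) D)
    (hmin : ∀ D' : Finset (Fin m × Fin (n + 1)), Dom (grid m (n + 1)) D' → D'.card ≤ D.card →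
      (D.filter (fun x => Bd n x.2)).card ≤ (D'.filter (fun x => Bd n x.2)).card)
    (c0 c1 : Fin (n + 1)) (h0 : Bd n c0) (h1 : ¬ Bd n c1)
    (hadj : c0.val + 1 = c1.val ∨ c1.val + 1 = c0.val)
    (honly : ∀ c : Fin (n + 1), (c0.val + 1 = c.val ∨ c.val + 1 = c0.val) → c = c1)
    (i : Fin m) (hi : (i, c0) ∈ D) :
    ∃ i' : Fin m, (i'.val + 1 = i.val ∨ i.val + 1 = i'.val) ∧ (i', c0) ∉ D ∧ (i', c1) ∉ D ∧
      ∀ i'' : Fin m, (i'.val + 1 = i''.val ∨ i''.val + 1 = i'.val) → i'' ≠ i → (i'', c0) ∉ D := by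
  classical
  by_contra hcon
  push Not at hcon
  have hne : c0 ≠ c1 := by
    rintro rfl
    exact h1 h0
  let D2 : Finset (Fin m × Fin (n + 1)) := insert (i, c1) (D.erase (i, c0))
  have hdom : Dom (grid m (n + 1)) D2 := by
    intro v hv
    by_cases hvi : v = (i, c0)
    · subst hvi
      refine ⟨(i, c1), Finset.mem_insert_self _ _, ?_⟩
      rw [grid_adj]
      right
      exact ⟨hadj, rfl⟩
    · have hvD : v ∉ D := fun h => hv (Finset.mem_insert_of_mem (Finset.mem_erase.2 ⟨hvi, h⟩))
      have hvi1 : v ≠ (i, c1) := fun h => hv (h ▸ Finset.mem_insert_self _ _)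
      obtain ⟨u, hu, huv⟩ := hD v hvD
      by_cases hui : u = (i, c0)
      · subst hui
        rw [grid_adj] at huv
        obtain ⟨r, c⟩ := v
        rcases huv with ⟨ha, hb⟩ | ⟨ha, hb⟩
        · -- same column
          simp only at ha hb
          subst hb
          by_cases h3 : (r, c1) ∈ D
          · refine ⟨(r, c1), Finset.mem_insert_of_mem (Finset.mem_erase.2 ⟨?_, h3⟩), ?_⟩
            · intro h
              exact hne (Prod.ext_iff.1 h).2.symm
            · rw [grid_adj]
              right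
              exact ⟨hadj, rfl⟩
          · obtain ⟨i'', h4, h5, h6⟩ := hcon r (by omega) hvD h3
            refine ⟨(i'', c), Finset.mem_insert_of_mem (Finset.mem_erase.2 ⟨?_, h6⟩), ?_⟩
            · intro h
              exact h5 (Prod.ext_iff.1 h).1
            · rw [grid_adj]
              left
              exact ⟨h4, rfl⟩
        · simp only at ha hb
          subst hb
          have := honly c (by omega)
          subst this
          exact absurd rfl hvi1
      · exact ⟨u, Finset.mem_insert_of_mem (Finset.mem_erase.2 ⟨hui, hu⟩), huv⟩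
  have hcard : D2.card ≤ D.card := by
    have a1 : D2.card ≤ (D.erase (i, c0)).card + 1 := Finset.card_insert_le _ _
    have a2 : (D.erase (i, c0)).card + 1 = D.card := Finset.card_erase_add_one hi
    omega
  have hle := hmin D2 hdom hcard
  have hlt : (D2.filter (fun x => Bd n x.2)).card < (D.filter (fun x => Bd n x.2)).card := by
    apply Finset.card_lt_card
    rw [Finset.ssubset_iff_of_subset]
    · refine ⟨(i, c0), Finset.mem_filter.2 ⟨hi, h0⟩, ?_⟩
      intro h
      have h2 := (Finset.mem_filter.1 h).1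
      rcases Finset.mem_insert.1 h2 with h3 | h3
      · exact hne (Prod.ext_iff.1 h3).2
      · exact (Finset.mem_erase.1 h3).1 rfl
    · intro x hx
      obtain ⟨hx1, hx2⟩ := Finset.mem_filter.1 hx
      rcases Finset.mem_insert.1 hx1 with h3 | h3
      · subst h3
        exact absurd hx2 h1
      · exact Finset.mem_filter.2 ⟨(Finset.mem_erase.1 h3).2, hx2⟩
  omega

/-- There is a patrolling dominating set of `G_{m,n}` with as many vertices as a minimum dominating
set of `G_{m,n+1}`. -/
theorem gen_upper (m n : ℕ) (hn : 2 ≤ n) :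
    ∃ D : Finset (Fin m × Fin n), Patrol (grid m n) D ∧ D.card = dnum (grid m (n + 1)) := by
  classical
  -- the extremal dominating set
  obtain ⟨D, hD, hDc, hmin⟩ : ∃ D : Finset (Fin m × Fin (n + 1)), Dom (grid m (n + 1)) D ∧
      D.card = dnum (grid m (n + 1)) ∧
      ∀ D' : Finset (Fin m × Fin (n + 1)), Dom (grid m (n + 1)) D' → D'.card ≤ D.card →
      (D.filter (fun x => Bd n x.2)).card ≤ (D'.filter (fun x => Bd n x.2)).card := by
    have hne : (Finset.univ.filter (fun D : Finset (Fin m × Fin (n + 1)) =>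
        Dom (grid m (n + 1)) D ∧ D.card = dnum (grid m (n + 1)))).Nonempty := by
      obtain ⟨D, h1, h2⟩ := dnum_exists (grid m (n + 1))
      exact ⟨D, Finset.mem_filter.2 ⟨Finset.mem_univ _, h1, h2⟩⟩
    obtain ⟨D, h1, h2⟩ := Finset.exists_min_image _
      (fun D : Finset (Fin m × Fin (n + 1)) => (D.filter (fun x => Bd n x.2)).card) hne
    obtain ⟨-, h3, h4⟩ := Finset.mem_filter.1 h1
    refine ⟨D, h3, h4, ?_⟩
    intro D' h5 h6
    apply h2
    refine Finset.mem_filter.2 ⟨Finset.mem_univ _, h5, ?_⟩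
    have := dnum_le _ D' h5
    omega
  let c0 : Fin (n + 1) := ⟨0, by omega⟩
  let c1 : Fin (n + 1) := ⟨1, by omega⟩
  let cn : Fin (n + 1) := ⟨n, by omega⟩
  let cm : Fin (n + 1) := ⟨n - 1, by omega⟩
  have hL := gen_choice D hD hmin c0 c1 (Or.inl rfl)
    (by
      intro h
      rcases h with h | h <;> simp only [c1] at h <;> omega)
    (Or.inl rfl)
    (by
      intro c hc
      apply Fin.ext
      simp only [c0, c1] at hc ⊢
      omega)
  have hR := gen_choice D hD hmin cn cm (Or.inr rfl)
    (by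
      intro h
      rcases h with h | h <;> simp only [cm] at h <;> omega)
    (Or.inr (by simp only [cn, cm]; omega))
    (by
      intro c hc
      apply Fin.ext
      simp only [cn, cm] at hc ⊢
      omega)
  have hL' : ∀ i : Fin m, ∃ i' : Fin m, (i, c0) ∈ D → (i'.val + 1 = i.val ∨ i.val + 1 = i'.val) ∧
      (i', c0) ∉ D ∧ (i', c1) ∉ D ∧ ∀ i'' : Fin m, (i'.val + 1 = i''.val ∨ i''.val + 1 = i'.val) →
        i'' ≠ i → (i'', c0) ∉ D := by
    intro i
    by_cases h : (i, c0) ∈ D
    · obtain ⟨i', h'⟩ := hL i h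
      exact ⟨i', fun _ => h'⟩
    · exact ⟨i, fun h' => absurd h' h⟩
  have hR' : ∀ i : Fin m, ∃ i' : Fin m, (i, cn) ∈ D → (i'.val + 1 = i.val ∨ i.val + 1 = i'.val) ∧
      (i', cn) ∉ D ∧ (i', cm) ∉ D ∧ ∀ i'' : Fin m, (i'.val + 1 = i''.val ∨ i''.val + 1 = i'.val) →
        i'' ≠ i → (i'', cn) ∉ D := by
    intro i
    by_cases h : (i, cn) ∈ D
    · obtain ⟨i', h'⟩ := hR i h
      exact ⟨i', fun _ => h'⟩
    · exact ⟨i, fun h' => absurd h' h⟩
  choose L hL using hL'
  choose R hR using hR'
  let t : D → Fin m × Fin n := fun x =>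
    if x.1.2.val = 0 then (L x.1.1, ⟨0, by omega⟩)
    else (x.1.1, ⟨x.1.2.val - 1, by have := x.1.2.isLt; omega⟩)
  let h : D → Fin m × Fin n := fun x =>
    if hx : x.1.2.val = n then (R x.1.1, ⟨n - 1, by omega⟩)
    else (x.1.1, ⟨x.1.2.val, by have := x.1.2.isLt; omega⟩)
  have ht0 : ∀ (i : Fin m) (hi : (i, c0) ∈ D), t ⟨(i, c0), hi⟩ = (L i, ⟨0, by omega⟩) := by
    intro i hi
    simp only [t]
    rw [if_pos rfl]
  have ht1 : ∀ (i : Fin m) (c : Fin (n + 1)) (hi : (i, c) ∈ D), c.val ≠ 0 →
      t ⟨(i, c), hi⟩ = (i, ⟨c.val - 1, by have := c.isLt; omega⟩) := by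
    intro i c hi hc
    simp only [t]
    rw [if_neg hc]
  have hh0 : ∀ (i : Fin m) (hi : (i, cn) ∈ D), h ⟨(i, cn), hi⟩ = (R i, ⟨n - 1, by omega⟩) := by
    intro i hi
    simp only [h]
    rw [dif_pos rfl]
  have hh1 : ∀ (i : Fin m) (c : Fin (n + 1)) (hi : (i, c) ∈ D) (hc : c.val ≠ n),
      h ⟨(i, c), hi⟩ = (i, ⟨c.val, by have := c.isLt; omega⟩) := by
    intro i c hi hc
    simp only [h]
    rw [dif_neg hc]
  have e0 : ∀ c : Fin (n + 1), c.val = 0 → c = c0 := fun c hc => Fin.ext hc
  have en : ∀ c : Fin (n + 1), c.val = n → c = cn := fun c hc => Fin.ext hc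
  suffices H : Function.Injective t ∧ Function.Injective h ∧ (∀ i, (grid m n).Adj (t i) (h i)) ∧
      (∀ v, (∃ i, v = t i) ∨ ∃ i, (grid m n).Adj v (t i)) ∧
      (∀ v, (∃ i, v = h i) ∨ ∃ i, (grid m n).Adj v (h i)) by
    obtain ⟨H1, H2, H3, H4, H5⟩ := H
    obtain ⟨D', hD', hc'⟩ := patrol_of_fam (grid m n) t h H1 H2 H3 H4 H5
    refine ⟨D', hD', ?_⟩
    rw [hc', Fintype.card_coe, hDc]
  refine ⟨?_, ?_, ?_, ?_, ?_⟩
  · -- `t` injective
    rintro ⟨⟨i, c⟩, hx⟩ ⟨⟨k, d⟩, hy⟩ hxy
    by_cases hc : c.val = 0 <;> by_cases hd : d.val = 0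
    · obtain rfl := e0 c hc
      obtain rfl := e0 d hd
      rw [ht0 i hx, ht0 k hy] at hxy
      have hLL : L i = L k := (Prod.ext_iff.1 hxy).1
      by_cases hik : i = k
      · subst hik
        rfl
      · exfalso
        obtain ⟨a1, a2, a3, a4⟩ := hL i hx
        obtain ⟨b1, b2, b3, b4⟩ := hL k hy
        refine a4 k ?_ (Ne.symm hik) hy
        rw [hLL]
        omega
    · exfalso
      obtain rfl := e0 c hc
      rw [ht0 i hx, ht1 k d hy hd] at hxy
      obtain ⟨a1, a2, a3, a4⟩ := hL i hx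
      have b1 : L i = k := (Prod.ext_iff.1 hxy).1
      have b2 := (Prod.ext_iff.1 hxy).2
      simp only [Fin.mk.injEq] at b2
      have b3 : d = c1 := Fin.ext (by simp only [c1]; omega)
      rw [b1, ← b3] at a3
      exact a3 hy
    · exfalso
      obtain rfl := e0 d hd
      rw [ht0 k hy, ht1 i c hx hc] at hxy
      obtain ⟨a1, a2, a3, a4⟩ := hL k hy
      have b1 : i = L k := (Prod.ext_iff.1 hxy).1
      have b2 := (Prod.ext_iff.1 hxy).2
      simp only [Fin.mk.injEq] at b2
      have b3 : c = c1 := Fin.ext (by simp only [c1]; omega)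
      rw [← b1, ← b3] at a3
      exact a3 hx
    · rw [ht1 i c hx hc, ht1 k d hy hd] at hxy
      have b1 : i = k := (Prod.ext_iff.1 hxy).1
      have b2 := (Prod.ext_iff.1 hxy).2
      simp only [Fin.mk.injEq] at b2
      have b3 : c = d := Fin.ext (by omega)
      subst b1
      subst b3
      rfl
  · -- `h` injective
    rintro ⟨⟨i, c⟩, hx⟩ ⟨⟨k, d⟩, hy⟩ hxy
    by_cases hc : c.val = n <;> by_cases hd : d.val = n
    · obtain rfl := en c hc
      obtain rfl := en d hd
      rw [hh0 i hx, hh0 k hy] at hxy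
      have hLL : R i = R k := (Prod.ext_iff.1 hxy).1
      by_cases hik : i = k
      · subst hik
        rfl
      · exfalso
        obtain ⟨a1, a2, a3, a4⟩ := hR i hx
        obtain ⟨b1, b2, b3, b4⟩ := hR k hy
        refine a4 k ?_ (Ne.symm hik) hy
        rw [hLL]
        omega
    · exfalso
      obtain rfl := en c hc
      rw [hh0 i hx, hh1 k d hy hd] at hxy
      obtain ⟨a1, a2, a3, a4⟩ := hR i hx
      have b1 : R i = k := (Prod.ext_iff.1 hxy).1
      have b2 := (Prod.ext_iff.1 hxy).2
      simp only [Fin.mk.injEq] at b2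
      have b3 : d = cm := Fin.ext (by simp only [cm]; omega)
      rw [b1, ← b3] at a3
      exact a3 hy
    · exfalso
      obtain rfl := en d hd
      rw [hh0 k hy, hh1 i c hx hc] at hxy
      obtain ⟨a1, a2, a3, a4⟩ := hR k hy
      have b1 : i = R k := (Prod.ext_iff.1 hxy).1
      have b2 := (Prod.ext_iff.1 hxy).2
      simp only [Fin.mk.injEq] at b2
      have b3 : c = cm := Fin.ext (by simp only [cm]; omega)
      rw [← b1, ← b3] at a3
      exact a3 hx
    · rw [hh1 i c hx hc, hh1 k d hy hd] at hxy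
      have b1 : i = k := (Prod.ext_iff.1 hxy).1
      have b2 := (Prod.ext_iff.1 hxy).2
      simp only [Fin.mk.injEq] at b2
      have b3 : c = d := Fin.ext (by omega)
      subst b1
      subst b3
      rfl
  · -- adjacency
    rintro ⟨⟨i, c⟩, hx⟩
    by_cases hc : c.val = 0
    · obtain rfl := e0 c hc
      rw [ht0 i hx, hh1 i c0 hx (by simp only [c0]; omega), grid_adj]
      obtain ⟨a1, a2, a3, a4⟩ := hL i hx
      left
      exact ⟨a1, Fin.ext rfl⟩
    · by_cases hd : c.val = n
      · obtain rfl := en c hd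
        rw [ht1 i cn hx hc, hh0 i hx, grid_adj]
        obtain ⟨a1, a2, a3, a4⟩ := hR i hx
        left
        refine ⟨by simp only; omega, Fin.ext rfl⟩
      · rw [ht1 i c hx hc, hh1 i c hx hd, grid_adj]
        right
        refine ⟨by simp only; omega, rfl⟩
  · -- `t` dominating
    rintro ⟨i, c⟩
    have hcl := c.isLt
    by_cases hw : (i, (⟨c.val + 1, by omega⟩ : Fin (n + 1))) ∈ D
    · left
      refine ⟨⟨_, hw⟩, ?_⟩
      rw [ht1 _ _ hw (by simp)]
      exact Prod.ext rfl (Fin.ext (by simp))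
    · right
      obtain ⟨⟨k, d⟩, hu, huv⟩ := hD _ hw
      have hdl := d.isLt
      rw [grid_adj] at huv
      simp only at huv
      by_cases hd : d.val = 0
      · obtain rfl := e0 d hd
        rcases huv with ⟨ha, hb⟩ | ⟨ha, hb⟩
        · have := congrArg Fin.val hb
          simp only [c0] at this
          omega
        · subst hb
          refine ⟨⟨_, hu⟩, ?_⟩
          rw [ht0 _ hu, grid_adj]
          obtain ⟨a1, a2, a3, a4⟩ := hL i hu
          left
          refine ⟨by simp only; omega, Fin.ext ?_⟩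
          simp only [c0] at ha ⊢
          omega
      · refine ⟨⟨_, hu⟩, ?_⟩
        rw [ht1 _ _ hu hd, grid_adj]
        rcases huv with ⟨ha, hb⟩ | ⟨ha, hb⟩
        · have := congrArg Fin.val hb
          simp only at this
          left
          refine ⟨ha, Fin.ext ?_⟩
          simp only
          omega
        · right
          refine ⟨?_, hb⟩
          simp only
          omega
  · -- `h` dominating
    rintro ⟨i, c⟩
    have hcl := c.isLt
    by_cases hw : (i, (⟨c.val, by omega⟩ : Fin (n + 1))) ∈ D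
    · left
      refine ⟨⟨_, hw⟩, ?_⟩
      rw [hh1 _ _ hw (by simp only; omega)]
    · right
      obtain ⟨⟨k, d⟩, hu, huv⟩ := hD _ hw
      have hdl := d.isLt
      rw [grid_adj] at huv
      simp only at huv
      by_cases hd : d.val = n
      · obtain rfl := en d hd
        rcases huv with ⟨ha, hb⟩ | ⟨ha, hb⟩
        · have := congrArg Fin.val hb
          simp only [cn] at this
          omega
        · subst hb
          refine ⟨⟨_, hu⟩, ?_⟩
          rw [hh0 _ hu, grid_adj]
          obtain ⟨a1, a2, a3, a4⟩ := hR i hu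
          left
          refine ⟨by simp only; omega, Fin.ext ?_⟩
          simp only [cn] at ha ⊢
          omega
      · refine ⟨⟨_, hu⟩, ?_⟩
        rw [hh1 _ _ hu hd, grid_adj]
        rcases huv with ⟨ha, hb⟩ | ⟨ha, hb⟩
        · have := congrArg Fin.val hb
          simp only at this
          left
          refine ⟨ha, Fin.ext ?_⟩
          simp only
          omega
        · right
          exact ⟨ha, hb⟩

end PatDom
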