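import Pool.Agent.H.MP_b28609_co.Def

/-!
# MP_b28609_co: lower bounds by a checked list of states

Reading a pair of dominating sets column by column. A state after some columns: `A` the guards of
the last column, `C` the vertices of the last column dominated so far, `x` the remaining budget; `B`,
`E`, `y` the same for the second set; `R` the rows in which a guard moves from the last column to the
next one, `L` the rows in which a guard moves from the next column to the last one. Sets of rows are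
numbers less than `2 ^ m`.
-/

set_option autoImplicit false

namespace PatDom

/-- `f i` holds for all `i < n`. -/
def allR (n : ℕ) (f : ℕ → Bool) : Bool := Nat.rec true (fun i b => f i && b) n

theorem allR_iff (n : ℕ) (f : ℕ → Bool) : allR n f = true ↔ ∀ i < n, f i = true := by
  induction n with
  | zero => simp [allR]
  | succ n ih =>
    have : allR (n + 1) f = (f n && allR n f) := rfl
    rw [this, Bool.and_eq_true, ih]
    constructor
    · rintro ⟨h1, h2⟩ i hi
      rcases Nat.lt_succ_iff_lt_or_eq.1 hi with h | h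
      · exact h2 i h
      · exact h ▸ h1
    · intro h
      exact ⟨h n (Nat.lt_succ_self n), fun i hi => h i (Nat.lt_succ_of_lt hi)⟩

/-- State. -/
structure St where
  A : ℕ
  B : ℕ
  R : ℕ
  L : ℕ
  C : ℕ
  E : ℕ
  x : ℕ
  y : ℕ

/-- Parameters: number of rows `m`, at least `p / q` guards per column, table `T` of potentials with
`w` bits each, shifted by `K`. -/
structure Par where
  m : ℕ
  p : ℕ
  q : ℕ
  K : ℕ
  w : ℕ
  T : ℕ

/-- Equality test. -/
def St.eqb (s t : St) : Bool :=
  Nat.beq s.A t.A && Nat.beq s.B t.B && Nat.beq s.R t.R && Nat.beq s.L t.L && Nat.beq s.C t.C &&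
    Nat.beq s.E t.E && Nat.beq s.x t.x && Nat.beq s.y t.y

/-- Membership test. -/
def memb (s : St) (l : List St) : Bool := l.any fun t => St.eqb s t

theorem memb_iff (s : St) (l : List St) : memb s l = true ↔ s ∈ l := by
  unfold memb
  rw [List.any_eq_true]
  constructor
  · rintro ⟨t, ht, he⟩
    unfold St.eqb at he
    simp only [Bool.and_eq_true, Nat.beq_eq] at he
    obtain ⟨⟨⟨⟨⟨⟨⟨h1, h2⟩, h3⟩, h4⟩, h5⟩, h6⟩, h7⟩, h8⟩ := he
    have : s = t := by
      cases s
      cases t
      simp only at h1 h2 h3 h4 h5 h6 h7 h8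
      subst h1 h2 h3 h4 h5 h6 h7 h8
      rfl
    exact this ▸ ht
  · intro h
    refine ⟨s, h, ?_⟩
    unfold St.eqb
    simp only [Bool.and_eq_true, Nat.beq_eq, and_self]

/-- Potential of a half state. -/
def pot (P : Par) (A C : ℕ) : ℕ := (P.T >>> (P.w * (A * 2 ^ P.m + C))) % 2 ^ P.w

/-- Rows in or next to `A`. -/
def nbr (m A : ℕ) : ℕ := (A ||| (A <<< 1) ||| (A >>> 1)) % 2 ^ m

/-- Number of rows in `A`. -/
def pop (m A : ℕ) : ℕ := Nat.rec 0 (fun i s => (A >>> i) % 2 + s) m

/-- Check of the table of potentials, for the half state `(A, C)`. -/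
def potOK1 (P : Par) (A C : ℕ) : Bool :=
  (!(Nat.beq C (2 ^ P.m - 1)) || Nat.ble (pot P A C) P.K) &&
    allR (2 ^ P.m) fun X => !(Nat.beq (C ||| X) (2 ^ P.m - 1)) ||
      Nat.ble (pot P A C + P.p) (P.q * pop P.m X + pot P X (A ||| nbr P.m X))

/-- Check of the table of potentials. -/
def potOK (P : Par) : Bool :=
  allR (2 ^ P.m) fun A => allR (2 ^ P.m) fun C =>
    !(Nat.beq (C &&& nbr P.m A) (nbr P.m A)) || potOK1 P A C

/-- Check of the successors of a state. -/
def stepOK (P : Par) (S' : List St) (s : St) : Bool :=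
  allR (2 ^ P.m) fun X =>
    !(Nat.beq (s.C ||| X) (2 ^ P.m - 1) && Nat.beq (s.L &&& X) s.L &&
        Nat.ble (P.q * pop P.m X + pot P X (s.A ||| nbr P.m X)) (s.x + pot P s.A s.C + P.p)) ||
    allR (2 ^ P.m) fun Y =>
      !(Nat.beq (s.E ||| Y) (2 ^ P.m - 1) && Nat.beq (s.R &&& Y) s.R &&
          Nat.ble (P.q * pop P.m Y + pot P Y (s.B ||| nbr P.m Y)) (s.y + pot P s.B s.E + P.p)) ||
      allR (2 ^ P.m) fun U =>
        !(Nat.beq (U &&& (X ^^^ s.L)) U && Nat.beq ((U <<< 1) &&& (Y ^^^ s.R)) (U <<< 1)) ||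
        allR (2 ^ P.m) fun W =>
          !(Nat.beq ((W <<< 1) &&& (X ^^^ s.L ^^^ U)) (W <<< 1) &&
              Nat.beq (W &&& (Y ^^^ s.R ^^^ (U <<< 1))) W) ||
          memb ⟨X, Y, X ^^^ s.L ^^^ U ^^^ (W <<< 1), Y ^^^ s.R ^^^ (U <<< 1) ^^^ W,
            s.A ||| nbr P.m X, s.B ||| nbr P.m Y,
            s.x + pot P s.A s.C + P.p - (P.q * pop P.m X + pot P X (s.A ||| nbr P.m X)),
            s.y + pot P s.B s.E + P.p - (P.q * pop P.m Y + pot P Y (s.B ||| nbr P.m Y))⟩ S'

/-- Check of a final state: excess at least `v`. -/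
def termOK (P : Par) (vmax v : ℕ) (s : St) : Bool :=
  !(Nat.beq s.C (2 ^ P.m - 1) && Nat.beq s.E (2 ^ P.m - 1) && Nat.beq s.R 0 && Nat.beq s.L 0) ||
    Nat.ble (s.x + pot P s.A s.C + v) (vmax + P.K)

theorem pop_eq (m A : ℕ) :
    pop m A = ∑ i ∈ Finset.range m, if A.testBit i = true then 1 else 0 := by
  induction m with
  | zero => rfl
  | succ m ih =>
    have : pop (m + 1) A = (A >>> m) % 2 + pop m A := rfl
    rw [this, ih, Finset.sum_range_succ, add_comm]
    congr 1
    rw [Nat.testBit_eq_decide_div_mod_eq, Nat.shiftRight_eq_div_pow]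
    by_cases h : A / 2 ^ m % 2 = 1
    · simp [h]
    · have h0 : A / 2 ^ m % 2 = 0 := by omega
      simp [h0]

theorem nbr_testBit (m A i : ℕ) : (nbr m A).testBit i =
    (decide (i < m) && (A.testBit i || (decide (1 ≤ i) && A.testBit (i - 1)) || A.testBit (i + 1))) := by
  unfold nbr
  rw [Nat.testBit_mod_two_pow, Nat.testBit_or, Nat.testBit_or, Nat.testBit_shiftLeft,
    Nat.testBit_shiftRight, add_comm 1 i]

end PatDom
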