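import Pool.Agent.H.MP_b28609_co.Low

/-!
# MP_b28609_co: the lists of states are sound
-/

set_option autoImplicit false

namespace PatDom

open Classical in
/-- A set of rows as a number. -/
noncomputable def msk (m : ℕ) (f : ℕ → Prop) : ℕ := Nat.ofBits (fun i : Fin m => decide (f i.val))

open Classical in
theorem msk_testBit (m : ℕ) (f : ℕ → Prop) (hf : ∀ i, f i → i < m) (i : ℕ) :
    (msk m f).testBit i = decide (f i) := by
  unfold msk
  rw [Nat.testBit_ofBits]
  by_cases hi : i < m
  · simp [hi]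
  · have : ¬ f i := fun h => hi (hf i h)
    simp [hi, this]

theorem msk_lt (m : ℕ) (f : ℕ → Prop) : msk m f < 2 ^ m := Nat.ofBits_lt_two_pow _

/-- Previous value. -/
def prv (f : ℕ → ℕ) (z : ℕ) : ℕ → ℕ
  | 0 => z
  | j + 1 => f j

/-- Exactly one of the four moves when there is a guard. -/
def P5 (a u d r l : Bool) : Prop :=
  a = (u || d || r || l) ∧ (u && d) = false ∧ (u && r) = false ∧ (u && l) = false ∧
    (d && r) = false ∧ (d && l) = false ∧ (r && l) = false

instance (a u d r l : Bool) : Decidable (P5 a u d r l) := by unfold P5; infer_instance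

open Classical in
theorem pat5 (a : ℕ → ℕ → Prop) (M : ℕ → ℕ → ℕ → ℕ → Prop)
    (h1 : ∀ i j i' j', M i j i' j' → a i j)
    (h2 : ∀ i j, a i j → ∃ i' j', M i j i' j' ∧
      (((i' = i + 1 ∨ i = i' + 1) ∧ j' = j) ∨ ((j' = j + 1 ∨ j = j' + 1) ∧ i' = i)))
    (h3 : ∀ i j i' j' i'' j'', M i j i' j' → M i j i'' j'' → i' = i'' ∧ j' = j'') (i j : ℕ) :
    P5 (decide (a i j)) (decide (M i j (i + 1) j)) (decide (1 ≤ i ∧ M i j (i - 1) j))
      (decide (M i j i (j + 1))) (decide (1 ≤ j ∧ M i j i (j - 1))) := by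
  by_cases ha : a i j
  · obtain ⟨i', j', hM, hc⟩ := h2 i j ha
    have hu : M i j (i + 1) j ↔ (i' = i + 1 ∧ j' = j) :=
      ⟨fun h => h3 _ _ _ _ _ _ hM h, fun h => by rw [← h.1]; rw [h.2] at hM; exact hM⟩
    have hd : (1 ≤ i ∧ M i j (i - 1) j) ↔ (1 ≤ i ∧ i' = i - 1 ∧ j' = j) :=
      ⟨fun h => ⟨h.1, h3 _ _ _ _ _ _ hM h.2⟩, fun h => ⟨h.1, by
        rw [← h.2.1]; rw [h.2.2] at hM; exact hM⟩⟩
    have hr : M i j i (j + 1) ↔ (i' = i ∧ j' = j + 1) :=
      ⟨fun h => h3 _ _ _ _ _ _ hM h, fun h => by rw [← h.2]; rw [h.1] at hM; exact hM⟩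
    have hl : (1 ≤ j ∧ M i j i (j - 1)) ↔ (1 ≤ j ∧ i' = i ∧ j' = j - 1) :=
      ⟨fun h => ⟨h.1, h3 _ _ _ _ _ _ hM h.2⟩, fun h => ⟨h.1, by
        rw [← h.2.2]; rw [h.2.1] at hM; exact hM⟩⟩
    rcases hc with ⟨hc | hc, hj⟩ | ⟨hc | hc, hj⟩
    · have e1 := hu.2 ⟨hc, hj⟩
      have e2 : ¬ (1 ≤ i ∧ M i j (i - 1) j) := fun h => by have := hd.1 h; omega
      have e3 : ¬ M i j i (j + 1) := fun h => by have := hr.1 h; omega
      have e4 : ¬ (1 ≤ j ∧ M i j i (j - 1)) := fun h => by have := hl.1 h; omega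
      rw [decide_eq_true ha, decide_eq_true e1, decide_eq_false e2, decide_eq_false e3,
        decide_eq_false e4]
      decide
    · have e1 : ¬ M i j (i + 1) j := fun h => by have := hu.1 h; omega
      have e2 : (1 ≤ i ∧ M i j (i - 1) j) := hd.2 ⟨by omega, by omega, hj⟩
      have e3 : ¬ M i j i (j + 1) := fun h => by have := hr.1 h; omega
      have e4 : ¬ (1 ≤ j ∧ M i j i (j - 1)) := fun h => by have := hl.1 h; omega
      rw [decide_eq_true ha, decide_eq_false e1, decide_eq_true e2, decide_eq_false e3,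
        decide_eq_false e4]
      decide
    · have e1 : ¬ M i j (i + 1) j := fun h => by have := hu.1 h; omega
      have e2 : ¬ (1 ≤ i ∧ M i j (i - 1) j) := fun h => by have := hd.1 h; omega
      have e3 : M i j i (j + 1) := hr.2 ⟨hj, hc⟩
      have e4 : ¬ (1 ≤ j ∧ M i j i (j - 1)) := fun h => by have := hl.1 h; omega
      rw [decide_eq_true ha, decide_eq_false e1, decide_eq_false e2, decide_eq_true e3,
        decide_eq_false e4]
      decide
    · have e1 : ¬ M i j (i + 1) j := fun h => by have := hu.1 h; omega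
      have e2 : ¬ (1 ≤ i ∧ M i j (i - 1) j) := fun h => by have := hd.1 h; omega
      have e3 : ¬ M i j i (j + 1) := fun h => by have := hr.1 h; omega
      have e4 : (1 ≤ j ∧ M i j i (j - 1)) := hl.2 ⟨by omega, hj, by omega⟩
      rw [decide_eq_true ha, decide_eq_false e1, decide_eq_false e2, decide_eq_false e3,
        decide_eq_true e4]
      decide
  · have e1 : ¬ M i j (i + 1) j := fun h => ha (h1 _ _ _ _ h)
    have e2 : ¬ (1 ≤ i ∧ M i j (i - 1) j) := fun h => ha (h1 _ _ _ _ h.2)
    have e3 : ¬ M i j i (j + 1) := fun h => ha (h1 _ _ _ _ h)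
    have e4 : ¬ (1 ≤ j ∧ M i j i (j - 1)) := fun h => ha (h1 _ _ _ _ h.2)
    rw [decide_eq_false ha, decide_eq_false e1, decide_eq_false e2, decide_eq_false e3,
      decide_eq_false e4]
    decide

theorem p5a (a u d r l : Bool) (h : P5 a u d r l) : (l && a) = l := by
  revert a u d r l; decide

theorem p5b (a u d r l : Bool) (h : P5 a u d r l) : (u && (a ^^ l)) = u := by
  revert a u d r l; decide

theorem p5c (a u d r l : Bool) (h : P5 a u d r l) : (d && ((a ^^ l) ^^ u)) = d := by
  revert a u d r l; decide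

theorem p5d (a u d r l : Bool) (h : P5 a u d r l) : (((a ^^ l) ^^ u) ^^ d) = r := by
  revert a u d r l; decide

/-- Potentials along a dominating set. -/
theorem half (P : Par) (hpot : potOK P = true) (n : ℕ) (Am C : ℕ → ℕ)
    (hA : ∀ j, Am j < 2 ^ P.m) (hC0 : C 0 = 2 ^ P.m - 1)
    (hCs : ∀ j, C (j + 1) = prv Am 0 j ||| nbr P.m (Am j))
    (hdom : ∀ j ≤ n, C j ||| Am j = 2 ^ P.m - 1) (hn0 : Am n = 0) :
    ∀ d j, j + d = n → P.q * (∑ k ∈ Finset.range j, pop P.m (Am k)) + pot P (prv Am 0 j) (C j) +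
      P.p * d ≤ P.q * (∑ k ∈ Finset.range n, pop P.m (Am k)) + P.K := by
  have hpA : ∀ j, prv Am 0 j < 2 ^ P.m := by
    intro j
    cases j with
    | zero => exact Nat.two_pow_pos _
    | succ j => exact hA j
  have hnb : ∀ A, nbr P.m A < 2 ^ P.m := fun A => Nat.mod_lt _ (Nat.two_pow_pos _)
  have hone : ∀ j, potOK1 P (prv Am 0 j) (C j) = true := by
    intro j
    unfold potOK at hpot
    rw [allR_iff] at hpot
    have hfin : ∀ A X, A < 2 ^ P.m → X < 2 ^ P.m → X &&& nbr P.m A = nbr P.m A →
        potOK1 P A X = true := by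
      intro A X hA' hX hsub
      have h1 := hpot A hA'
      rw [allR_iff] at h1
      have h2 := h1 X hX
      rw [hsub] at h2
      simp only [Bool.or_eq_true, Bool.not_eq_true'] at h2
      rcases h2 with h2 | h2
      · exact absurd (Nat.beq_eq ▸ rfl : Nat.beq (nbr P.m A) (nbr P.m A) = true)
          (by rw [h2]; decide)
      · exact h2
    cases j with
    | zero =>
      rw [hC0]
      refine hfin 0 _ (Nat.two_pow_pos _) (by have := Nat.two_pow_pos P.m; omega) ?_
      simp [nbr]
    | succ j =>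
      rw [hCs]
      refine hfin (Am j) _ (hA j) (Nat.or_lt_two_pow (hpA j) (hnb _)) ?_
      apply Nat.eq_of_testBit_eq
      intro i
      rw [Nat.testBit_and, Nat.testBit_or]
      cases (prv Am 0 j).testBit i <;> cases (nbr P.m (Am j)).testBit i <;> rfl
  intro d
  induction d with
  | zero =>
    intro j hj
    have hj' : j = n := by omega
    subst hj'
    have h := hone j
    unfold potOK1 at h
    rw [Bool.and_eq_true] at h
    have hC : C j = 2 ^ P.m - 1 := by
      have := hdom j le_rfl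
      rw [hn0, Nat.or_zero] at this
      exact this
    have h1 := h.1
    rw [hC] at h1 ⊢
    simp only [Bool.or_eq_true, Bool.not_eq_true', Nat.ble_eq] at h1
    rcases h1 with h1 | h1
    · exact absurd (Nat.beq_eq ▸ rfl : Nat.beq (2 ^ P.m - 1) (2 ^ P.m - 1) = true) (by rw [h1]; decide)
    · omega
  | succ d ih =>
    intro j hj
    have h0 := ih (j + 1) (by omega)
    have h := hone j
    unfold potOK1 at h
    rw [Bool.and_eq_true] at h
    have h1 := (allR_iff _ _).1 h.2 (Am j) (hA j)
    simp only [Bool.or_eq_true, Bool.not_eq_true', Nat.ble_eq] at h1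
    have hd := hdom j (by omega)
    rcases h1 with h1 | h1
    · rw [hd] at h1
      exact absurd (Nat.beq_eq ▸ rfl : Nat.beq (2 ^ P.m - 1) (2 ^ P.m - 1) = true) (by rw [h1]; decide)
    · have hp : prv Am 0 (j + 1) = Am j := rfl
      rw [Finset.sum_range_succ, hCs j, hp] at h0
      rw [Nat.mul_add] at h0
      rw [Nat.mul_add P.p d 1]
      omega

open Classical in
/-- The mask of a column and its neighbours; domination. -/
theorem dom_mask {m n : ℕ} (D : Finset (Fin m × Fin n)) (hD : Dom (grid m n) D)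
    (a : ℕ → ℕ → Prop) (ha : ∀ i j, a i j ↔ ∃ x ∈ D, x.1.val = i ∧ x.2.val = j) (C : ℕ → ℕ)
    (hC0 : C 0 = 2 ^ m - 1)
    (hCs : ∀ j, C (j + 1) = prv (fun j => msk m fun i => a i j) 0 j |||
      nbr m (msk m fun i => a i j)) :
    ∀ j ≤ n, C j ||| (msk m fun i => a i j) = 2 ^ m - 1 := by
  have hlt : ∀ i j, a i j → i < m := by
    intro i j h
    obtain ⟨x, -, hx, -⟩ := (ha i j).1 h
    rw [← hx]
    exact x.1.isLt
  have hb : ∀ i j, (msk m fun i => a i j).testBit i = decide (a i j) :=
    fun i j => msk_testBit m _ (fun i h => hlt i j h) i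
  intro j hj
  apply Nat.eq_of_testBit_eq
  intro i
  rw [Nat.testBit_or, hb, Nat.testBit_two_pow_sub_one]
  cases j with
  | zero =>
    rw [hC0, Nat.testBit_two_pow_sub_one]
    by_cases h : a i 0
    · simp [h, hlt i 0 h]
    · simp [h]
  | succ j =>
    rw [hCs, Nat.testBit_or, nbr_testBit, hb, hb, hb]
    have hprv : (prv (fun j => msk m fun i => a i j) 0 j).testBit i =
        decide (1 ≤ j ∧ a i (j - 1)) := by
      cases j with
      | zero => simp [prv]
      | succ j =>
        simp only [prv]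
        rw [hb]
        simp
    rw [hprv]
    by_cases hi : i < m
    · have hjn : j < n := by omega
      rw [decide_eq_true hi]
      by_cases hin : ((⟨i, hi⟩ : Fin m), (⟨j, hjn⟩ : Fin n)) ∈ D
      · have : a i j := (ha i j).2 ⟨_, hin, rfl, rfl⟩
        simp [this]
      · obtain ⟨⟨k, l⟩, hu, huv⟩ := hD _ hin
        rw [grid_adj] at huv
        simp only at huv
        rcases huv with ⟨h1, h2⟩ | ⟨h1, h2⟩
        · have h2' : l.val = j := by rw [← h2]
          rcases h1 with h1 | h1
          · have : a (i + 1) j := (ha _ _).2 ⟨_, hu, by simp only; omega, h2'⟩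
            simp [this]
          · have : a (i - 1) j := (ha _ _).2 ⟨_, hu, by simp only; omega, h2'⟩
            have hi1 : 1 ≤ i := by omega
            simp [this, hi1]
        · have h2' : k.val = i := by rw [← h2]
          rcases h1 with h1 | h1
          · have : a i (j + 1) := (ha _ _).2 ⟨_, hu, h2', by simp only; omega⟩
            simp [this]
          · have : a i (j - 1) := (ha _ _).2 ⟨_, hu, h2', by simp only; omega⟩
            have hj1 : 1 ≤ j := by omega
            simp [this, hj1]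
    · have f1 : ∀ k, ¬ a i k := fun k h => hi (hlt i k h)
      simp [hi, f1]

open Classical in
/-- Counting by columns. -/
theorem card_mask {m n : ℕ} (D : Finset (Fin m × Fin n)) (a : ℕ → ℕ → Prop)
    (ha : ∀ i j, a i j ↔ ∃ x ∈ D, x.1.val = i ∧ x.2.val = j) :
    ∑ k ∈ Finset.range n, pop m (msk m fun i => a i k) = D.card := by
  have hlt : ∀ i j, a i j → i < m := by
    intro i j h
    obtain ⟨x, -, hx, -⟩ := (ha i j).1 h
    rw [← hx]
    exact x.1.isLt
  have hb : ∀ i j, (msk m fun i => a i j).testBit i = decide (a i j) :=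
    fun i j => msk_testBit m _ (fun i h => hlt i j h) i
  have h1 : D = Finset.univ.filter (fun x => x ∈ D) := by
    ext x
    simp
  rw [h1, Finset.card_filter, Finset.sum_range, ← Finset.univ_product_univ,
    Finset.sum_product_right]
  apply Finset.sum_congr rfl
  intro j _
  rw [pop_eq, Finset.sum_range]
  apply Finset.sum_congr rfl
  intro i _
  rw [hb]
  have : a i.val j.val ↔ (i, j) ∈ D := by
    rw [ha]
    constructor
    · rintro ⟨⟨k, l⟩, hx, h2, h3⟩
      have e1 : k = i := Fin.ext h2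
      have e2 : l = j := Fin.ext h3
      rw [e1, e2] at hx
      exact hx
    · intro h
      exact ⟨_, h, rfl, rfl⟩
  by_cases h : (i, j) ∈ D
  · simp [this, h]
  · simp [this, h]

end PatDom
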