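import Pool.Agent.H.MP_b28609_co.LowC

/-!
# MP_b28609_co: lower bounds from finite lists
-/

set_option autoImplicit false

namespace PatDom

/-- Each list is followed by a list with all successors. -/
def chainOK (P : Par) (L : ℕ → List St) (N : ℕ) : Bool :=
  allR N fun j => (L j).all (stepOK P (L (j + 1)))

/-- Check of the final states of the lists `0, ..., N`. -/
def finOK (P : Par) (vmax : ℕ) (L : ℕ → List St) (V : ℕ → ℕ) (N : ℕ) : Bool :=
  allR (N + 1) fun j => (L j).all (termOK P vmax (V j)) && Nat.ble (V j) (vmax + 1)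

/-- The starting state. -/
def st0 (P : Par) (x0 : ℕ) : St := ⟨0, 0, 0, 0, 2 ^ P.m - 1, 2 ^ P.m - 1, x0, x0⟩

/-- Lower bound for `n ≤ N`. -/
theorem low_le (P : Par) (hpot : potOK P = true) (vmax x0 N : ℕ) (L : ℕ → List St) (V : ℕ → ℕ)
    (hx0 : x0 + pot P 0 (2 ^ P.m - 1) = vmax + P.K) (h0 : L 0 = [st0 P x0])
    (hc : chainOK P L N = true) (hf : finOK P vmax L V N = true) (n : ℕ) (hn : n ≤ N)
    (D : Finset (Fin P.m × Fin n)) (hD : Patrol (grid P.m n) D) :
    P.p * n + V n ≤ P.q * D.card := by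
  unfold chainOK at hc
  unfold finOK at hf
  rw [allR_iff] at hc hf
  have hfn := hf n (by omega)
  rw [Bool.and_eq_true, Nat.ble_eq] at hfn
  refine low_sound P hpot n D hD vmax x0 (V n) hx0 L ?_ ?_ hfn.2 ?_
  · rw [h0]
    exact List.mem_singleton.2 rfl
  · intro j hj s hs
    exact List.all_eq_true.1 (hc j (by omega)) s hs
  · intro s hs
    exact List.all_eq_true.1 hfn.1 s hs

/-- Lower bound for all `n` when the last list is empty. -/
theorem low_all (P : Par) (hpot : potOK P = true) (vmax x0 N : ℕ) (L : ℕ → List St) (V : ℕ → ℕ)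
    (hx0 : x0 + pot P 0 (2 ^ P.m - 1) = vmax + P.K) (h0 : L 0 = [st0 P x0])
    (hc : chainOK P L N = true) (hf : finOK P vmax L V N = true)
    (hL : ∀ j, N ≤ j → L j = []) (hV : ∀ j, N < j → V j = vmax + 1) (n : ℕ)
    (D : Finset (Fin P.m × Fin n)) (hD : Patrol (grid P.m n) D) :
    P.p * n + V n ≤ P.q * D.card := by
  by_cases hn : n ≤ N
  · exact low_le P hpot vmax x0 N L V hx0 h0 hc hf n hn D hD
  · unfold chainOK at hc
    rw [allR_iff] at hc
    rw [hV n (by omega)]
    refine low_sound P hpot n D hD vmax x0 _ hx0 L ?_ ?_ le_rfl ?_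
    · rw [h0]
      exact List.mem_singleton.2 rfl
    · intro j hj s hs
      by_cases hj' : j < N
      · exact List.all_eq_true.1 (hc j hj') s hs
      · rw [hL j (by omega)] at hs
        exact absurd hs (by simp)
    · intro s hs
      rw [hL n (by omega)] at hs
      exact absurd hs (by simp)

/-- Lower bound for all `n` when the lists are periodic from the list `N` on. -/
theorem low_per (P : Par) (hpot : potOK P = true) (vmax x0 N r : ℕ) (hr : 0 < r) (L : ℕ → List St)
    (V : ℕ → ℕ) (hx0 : x0 + pot P 0 (2 ^ P.m - 1) = vmax + P.K) (h0 : L 0 = [st0 P x0])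
    (hc : chainOK P L (N + r) = true) (hf : finOK P vmax L V (N + r) = true)
    (hL : ∀ j, N ≤ j → L (j + r) = L j) (hV : ∀ j, N ≤ j → V (j + r) = V j) (n : ℕ)
    (D : Finset (Fin P.m × Fin n)) (hD : Patrol (grid P.m n) D) :
    P.p * n + V n ≤ P.q * D.card := by
  unfold chainOK at hc
  unfold finOK at hf
  rw [allR_iff] at hc hf
  -- the index reduced to `0, ..., N + r - 1`
  have red : ∀ j, ∃ i < N + r, L j = L i ∧ L (j + 1) = L (i + 1) ∧ V j = V i := by
    intro j
    induction j using Nat.strong_induction_on with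
    | _ j ih =>
      by_cases hj : j < N + r
      · exact ⟨j, hj, rfl, rfl, rfl⟩
      · obtain ⟨i, h1, h2, h3, h4⟩ := ih (j - r) (by omega)
        have e1 := hL (j - r) (by omega)
        have e2 := hL (j - r + 1) (by omega)
        have e3 := hV (j - r) (by omega)
        rw [show j - r + r = j by omega] at e1 e3
        rw [show j - r + 1 + r = j + 1 by omega] at e2
        exact ⟨i, h1, e1.trans h2, e2.trans h3, e3.trans h4⟩
  obtain ⟨i, hi, e1, -, e3⟩ := red n
  have hfn := hf i (by omega)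
  rw [Bool.and_eq_true, Nat.ble_eq, ← e1, ← e3] at hfn
  refine low_sound P hpot n D hD vmax x0 (V n) hx0 L ?_ ?_ hfn.2 ?_
  · rw [h0]
    exact List.mem_singleton.2 rfl
  · intro j hj s hs
    obtain ⟨i, hi, f1, f2, -⟩ := red j
    rw [f1] at hs
    rw [f2]
    exact List.all_eq_true.1 (hc i hi) s hs
  · intro s hs
    exact List.all_eq_true.1 hfn.1 s hs

end PatDom
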