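import Pool.Agent.H.MP_b28609_co.Word

/-!
# MP_b28609_co: patrolling dominating sets, 1 rows
-/

set_option autoImplicit false
set_option maxRecDepth 100000

namespace PatDom

private theorem u1_2 : famB 1
    [(0o3, 0o0)]
    [(0o0, 0o4), (0o0, 0o0), (0o3, 0o0)]
    [(0o0, 0o4)]
    2 1 3 1 = true := by decide +kernel

private theorem u1_4 : famB 1
    [(0o0, 0o3)]
    [(0o4, 0o0), (0o0, 0o0), (0o0, 0o3)]
    [(0o4, 0o0), (0o3, 0o0), (0o0, 0o4)]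
    4 2 3 1 = true := by decide +kernel

private theorem u1_6 : famB 1
    [(0o3, 0o0)]
    [(0o0, 0o4), (0o0, 0o0), (0o3, 0o0)]
    [(0o0, 0o4), (0o0, 0o0), (0o3, 0o3), (0o4, 0o4), (0o0, 0o0)]
    6 3 3 1 = true := by decide +kernel

theorem up1 (n : ℕ) (hn : 2 ≤ n) (h3 : n ≠ 3) :
    ∃ D : Finset (Fin 1 × Fin n), Patrol (grid 1 n) D ∧ D.card = (n + 3) / 3 := by
  have hcase : n % 3 = 0 ∨ n % 3 = 1 ∨ n % 3 = 2 := by omega
  rcases hcase with h | h | h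
  · obtain ⟨k, rfl⟩ : ∃ k, n = 6 + k * 3 := ⟨(n - 6) / 3, by omega⟩
    rw [show ((6 + k * 3) + 3) / 3 = 3 + k * 1 by omega]
    exact famB_patrol 1 _ _ _ _ _ _ _ u1_6 k
  · obtain ⟨k, rfl⟩ : ∃ k, n = 4 + k * 3 := ⟨(n - 4) / 3, by omega⟩
    rw [show ((4 + k * 3) + 3) / 3 = 2 + k * 1 by omega]
    exact famB_patrol 1 _ _ _ _ _ _ _ u1_4 k
  · obtain ⟨k, rfl⟩ : ∃ k, n = 2 + k * 3 := ⟨(n - 2) / 3, by omega⟩
    rw [show ((2 + k * 3) + 3) / 3 = 1 + k * 1 by omega]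
    exact famB_patrol 1 _ _ _ _ _ _ _ u1_2 k

theorem up1_3 : ∃ D : Finset (Fin 1 × Fin 3), Patrol (grid 1 3) D ∧ D.card = 2 :=
  oneB_patrol 1 [(0o0, 0o0), (0o3, 0o3), (0o4, 0o4)] _ _
    (by decide +kernel)

end PatDom
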