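import Pool.Agent.H.MP_b28609_co.Word

/-!
# MP_b28609_co: patrolling dominating sets, 2 rows
-/

set_option autoImplicit false
set_option maxRecDepth 100000

namespace PatDom

private theorem u2_3 : famB 2
    [(0o1, 0o20)]
    [(0o0, 0o0), (0o20, 0o1), (0o0, 0o0), (0o1, 0o20)]
    [(0o0, 0o0), (0o20, 0o1)]
    3 2 4 2 = true := by decide +kernel

private theorem u2_4 : famB 2
    [(0o20, 0o1)]
    [(0o0, 0o0), (0o1, 0o20), (0o0, 0o0), (0o20, 0o1)]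
    [(0o0, 0o0), (0o21, 0o21), (0o0, 0o0)]
    4 3 4 2 = true := by decide +kernel

private theorem u2_5 : famB 2
    [(0o1, 0o20)]
    [(0o0, 0o0), (0o20, 0o1), (0o0, 0o0), (0o1, 0o20)]
    [(0o0, 0o0), (0o20, 0o1), (0o0, 0o0), (0o1, 0o20)]
    5 3 4 2 = true := by decide +kernel

private theorem u2_6 : famB 2
    [(0o20, 0o1)]
    [(0o0, 0o0), (0o1, 0o20), (0o0, 0o0), (0o20, 0o1)]
    [(0o0, 0o0), (0o1, 0o20), (0o0, 0o0), (0o23, 0o1), (0o0, 0o4)]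
    6 4 4 2 = true := by decide +kernel

theorem up2 (n : ℕ) (hn : 2 ≤ n) (h2 : n ≠ 2) :
    ∃ D : Finset (Fin 2 × Fin n), Patrol (grid 2 n) D ∧ D.card = (n + 2) / 2 := by
  have hcase : n % 4 = 0 ∨ n % 4 = 1 ∨ n % 4 = 2 ∨ n % 4 = 3 := by omega
  rcases hcase with h | h | h | h
  · obtain ⟨k, rfl⟩ : ∃ k, n = 4 + k * 4 := ⟨(n - 4) / 4, by omega⟩
    rw [show ((4 + k * 4) + 2) / 2 = 3 + k * 2 by omega]
    exact famB_patrol 2 _ _ _ _ _ _ _ u2_4 k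
  · obtain ⟨k, rfl⟩ : ∃ k, n = 5 + k * 4 := ⟨(n - 5) / 4, by omega⟩
    rw [show ((5 + k * 4) + 2) / 2 = 3 + k * 2 by omega]
    exact famB_patrol 2 _ _ _ _ _ _ _ u2_5 k
  · obtain ⟨k, rfl⟩ : ∃ k, n = 6 + k * 4 := ⟨(n - 6) / 4, by omega⟩
    rw [show ((6 + k * 4) + 2) / 2 = 4 + k * 2 by omega]
    exact famB_patrol 2 _ _ _ _ _ _ _ u2_6 k
  · obtain ⟨k, rfl⟩ : ∃ k, n = 3 + k * 4 := ⟨(n - 3) / 4, by omega⟩
    rw [show ((3 + k * 4) + 2) / 2 = 2 + k * 2 by omega]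
    exact famB_patrol 2 _ _ _ _ _ _ _ u2_3 k

theorem up2_2 : ∃ D : Finset (Fin 2 × Fin 2), Patrol (grid 2 2) D ∧ D.card = 2 :=
  oneB_patrol 2 [(0o0, 0o0), (0o21, 0o21)] _ _
    (by decide +kernel)

end PatDom
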