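import Pool.Agent.H.MP_b28609_co.Word

/-!
# MP_b28609_co: patrolling dominating sets, 3 rows
-/

set_option autoImplicit false
set_option maxRecDepth 100000

namespace PatDom

private theorem u3_4 : famB 3
    [(0o10, 0o200), (0o0, 0o303)]
    [(0o404, 0o0), (0o0, 0o30), (0o40, 0o0), (0o0, 0o303)]
    [(0o404, 0o0), (0o1, 0o20)]
    4 4 4 3 = true := by decide +kernel

private theorem u3_5 : famB 3
    [(0o30, 0o0), (0o0, 0o343), (0o404, 0o0)]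
    [(0o0, 0o30), (0o40, 0o0), (0o0, 0o303), (0o404, 0o0)]
    [(0o0, 0o30), (0o240, 0o10)]
    5 5 4 3 = true := by decide +kernel

private theorem u3_6 : famB 3
    [(0o30, 0o0), (0o0, 0o343), (0o404, 0o0)]
    [(0o0, 0o30), (0o40, 0o0), (0o0, 0o303), (0o404, 0o0)]
    [(0o0, 0o30), (0o340, 0o0), (0o20, 0o401)]
    6 6 4 3 = true := by decide +kernel

private theorem u3_7 : famB 3
    [(0o20, 0o1), (0o0, 0o300), (0o403, 0o0), (0o0, 0o34), (0o40, 0o0)]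
    [(0o0, 0o303), (0o404, 0o0), (0o0, 0o30), (0o40, 0o0)]
    [(0o0, 0o303), (0o414, 0o200)]
    7 7 4 3 = true := by decide +kernel

theorem up3 (n : ℕ) (hn : 3 ≤ n) (h3 : n ≠ 3) :
    ∃ D : Finset (Fin 3 × Fin n), Patrol (grid 3 n) D ∧ D.card = (3 * n + 7) / 4 := by
  have hcase : n % 4 = 0 ∨ n % 4 = 1 ∨ n % 4 = 2 ∨ n % 4 = 3 := by omega
  rcases hcase with h | h | h | h
  · obtain ⟨k, rfl⟩ : ∃ k, n = 4 + k * 4 := ⟨(n - 4) / 4, by omega⟩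
    rw [show (3 * (4 + k * 4) + 7) / 4 = 4 + k * 3 by omega]
    exact famB_patrol 3 _ _ _ _ _ _ _ u3_4 k
  · obtain ⟨k, rfl⟩ : ∃ k, n = 5 + k * 4 := ⟨(n - 5) / 4, by omega⟩
    rw [show (3 * (5 + k * 4) + 7) / 4 = 5 + k * 3 by omega]
    exact famB_patrol 3 _ _ _ _ _ _ _ u3_5 k
  · obtain ⟨k, rfl⟩ : ∃ k, n = 6 + k * 4 := ⟨(n - 6) / 4, by omega⟩
    rw [show (3 * (6 + k * 4) + 7) / 4 = 6 + k * 3 by omega]
    exact famB_patrol 3 _ _ _ _ _ _ _ u3_6 k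
  · obtain ⟨k, rfl⟩ : ∃ k, n = 7 + k * 4 := ⟨(n - 7) / 4, by omega⟩
    rw [show (3 * (7 + k * 4) + 7) / 4 = 7 + k * 3 by omega]
    exact famB_patrol 3 _ _ _ _ _ _ _ u3_7 k

theorem up3_3 : ∃ D : Finset (Fin 3 × Fin 3), Patrol (grid 3 3) D ∧ D.card = 3 :=
  oneB_patrol 3 [(0o1, 0o20), (0o300, 0o3), (0o4, 0o400)] _ _
    (by decide +kernel)

theorem up3_7 : ∃ D : Finset (Fin 3 × Fin 7), Patrol (grid 3 7) D ∧ D.card = 6 :=
  oneB_patrol 3 [(0o200, 0o10), (0o3, 0o0), (0o0, 0o304), (0o430, 0o0), (0o0, 0o40), (0o1, 0o20), (0o200, 0o10)] _ _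
    (by decide +kernel)

end PatDom
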