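import Pool.Agent.H.MP_b28609_co.Word

/-!
# MP_b28609_co: patrolling dominating sets, 4 rows
-/

set_option autoImplicit false
set_option maxRecDepth 100000

namespace PatDom

private theorem u4_4 : famB 4
    [(0o10, 0o200), (0o3000, 0o3)]
    [(0o4, 0o4000), (0o300, 0o30), (0o40, 0o400), (0o3000, 0o3)]
    [(0o4, 0o4000), (0o200, 0o10)]
    4 4 4 4 = true := by decide +kernel

private theorem u4_7 : famB 4
    [(0o200, 0o10), (0o3, 0o3000)]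
    [(0o4000, 0o4), (0o30, 0o300), (0o400, 0o40), (0o3, 0o3000)]
    [(0o4000, 0o4), (0o10, 0o200), (0o3000, 0o3), (0o4, 0o4000), (0o200, 0o10)]
    7 7 4 4 = true := by decide +kernel

private theorem u4_10 : famB 4
    [(0o200, 0o10), (0o3, 0o3000), (0o4000, 0o4), (0o10, 0o200), (0o3000, 0o3), (0o4, 0o4000), (0o200, 0o10)]
    [(0o3, 0o3000), (0o4000, 0o4), (0o10, 0o200), (0o200, 0o10)]
    [(0o3, 0o3000), (0o4000, 0o4), (0o10, 0o200)]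
    10 10 4 4 = true := by decide +kernel

private theorem u4_13 : famB 4
    [(0o10, 0o200), (0o3000, 0o3), (0o4, 0o4000), (0o200, 0o10), (0o3, 0o3000), (0o4000, 0o4), (0o10, 0o200)]
    [(0o3000, 0o3), (0o4, 0o4000), (0o200, 0o10), (0o10, 0o200)]
    [(0o3000, 0o3), (0o4, 0o4000), (0o200, 0o10), (0o3, 0o3000), (0o4000, 0o4), (0o10, 0o200)]
    13 13 4 4 = true := by decide +kernel

theorem up4 (n : ℕ) (hn : 4 ≤ n) (h5 : n ≠ 5) (h6 : n ≠ 6) (h9 : n ≠ 9) :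
    ∃ D : Finset (Fin 4 × Fin n), Patrol (grid 4 n) D ∧ D.card = n := by
  have hcase : n % 4 = 0 ∨ n % 4 = 1 ∨ n % 4 = 2 ∨ n % 4 = 3 := by omega
  rcases hcase with h | h | h | h
  · obtain ⟨k, rfl⟩ : ∃ k, n = 4 + k * 4 := ⟨(n - 4) / 4, by omega⟩
    rw [show (4 + k * 4) = 4 + k * 4 by omega]
    exact famB_patrol 4 _ _ _ _ _ _ _ u4_4 k
  · obtain ⟨k, rfl⟩ : ∃ k, n = 13 + k * 4 := ⟨(n - 13) / 4, by omega⟩
    rw [show (13 + k * 4) = 13 + k * 4 by omega]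
    exact famB_patrol 4 _ _ _ _ _ _ _ u4_13 k
  · obtain ⟨k, rfl⟩ : ∃ k, n = 10 + k * 4 := ⟨(n - 10) / 4, by omega⟩
    rw [show (10 + k * 4) = 10 + k * 4 by omega]
    exact famB_patrol 4 _ _ _ _ _ _ _ u4_10 k
  · obtain ⟨k, rfl⟩ : ∃ k, n = 7 + k * 4 := ⟨(n - 7) / 4, by omega⟩
    rw [show (7 + k * 4) = 7 + k * 4 by omega]
    exact famB_patrol 4 _ _ _ _ _ _ _ u4_7 k

theorem up4_5 : ∃ D : Finset (Fin 4 × Fin 5), Patrol (grid 4 5) D ∧ D.card = 6 :=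
  oneB_patrol 4 [(0o1, 0o20), (0o3100, 0o2000), (0o0, 0o4003), (0o34, 0o0), (0o2000, 0o140)] _ _
    (by decide +kernel)

theorem up4_6 : ∃ D : Finset (Fin 4 × Fin 6), Patrol (grid 4 6) D ∧ D.card = 7 :=
  oneB_patrol 4 [(0o200, 0o10), (0o3, 0o3000), (0o4000, 0o4), (0o10, 0o200), (0o3000, 0o3), (0o24, 0o4001)] _ _
    (by decide +kernel)

theorem up4_9 : ∃ D : Finset (Fin 4 × Fin 9), Patrol (grid 4 9) D ∧ D.card = 10 :=
  oneB_patrol 4 [(0o200, 0o10), (0o3, 0o3000), (0o4000, 0o4), (0o10, 0o200), (0o3000, 0o3), (0o4, 0o4000), (0o200, 0o10), (0o0, 0o3000), (0o4021, 0o21)] _ _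
    (by decide +kernel)

end PatDom
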