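import Pool.Agent.H.MP_b28609_co.Word

/-!
# MP_b28609_co: patrolling dominating sets, 5 rows
-/

set_option autoImplicit false
set_option maxRecDepth 100000

namespace PatDom

private theorem u5_4 : famB 5
    [(0o2020, 0o101), (0o30, 0o30000)]
    [(0o40000, 0o40), (0o103, 0o2000), (0o30000, 0o4), (0o10, 0o40200), (0o3000, 0o3), (0o4, 0o4000), (0o30200, 0o10), (0o3, 0o40000), (0o2000, 0o104), (0o30, 0o30000)]
    [(0o40000, 0o40), (0o101, 0o2020)]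
    4 6 10 12 = true := by decide +kernel

private theorem u5_5 : famB 5
    [(0o2020, 0o101), (0o30, 0o30000)]
    [(0o40000, 0o40), (0o103, 0o2000), (0o30000, 0o4), (0o10, 0o40200), (0o3000, 0o3), (0o4, 0o4000), (0o30200, 0o10), (0o3, 0o40000), (0o2000, 0o104), (0o30, 0o30000)]
    [(0o40000, 0o40), (0o20303, 0o1000), (0o100, 0o2404)]
    5 8 10 12 = true := by decide +kernel

private theorem u5_6 : famB 5
    [(0o1010, 0o20200), (0o3000, 0o3)]
    [(0o4, 0o4000), (0o30200, 0o10), (0o3, 0o40000), (0o2000, 0o104), (0o30, 0o30000), (0o40000, 0o40), (0o103, 0o2000), (0o30000, 0o4), (0o10, 0o40200), (0o3000, 0o3)]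
    [(0o4, 0o4000), (0o30300, 0o30), (0o43, 0o43400), (0o4000, 0o4)]
    6 9 10 12 = true := by decide +kernel

private theorem u5_7 : famB 5
    [(0o100, 0o2003), (0o30004, 0o30), (0o40, 0o40000)]
    [(0o2000, 0o103), (0o4, 0o30000), (0o40200, 0o10), (0o3, 0o3000), (0o4000, 0o4), (0o10, 0o30200), (0o40000, 0o3), (0o104, 0o2000), (0o30000, 0o30), (0o40, 0o40000)]
    [(0o2000, 0o103), (0o4, 0o30000), (0o43200, 0o13), (0o4, 0o4000)]
    7 10 10 12 = true := by decide +kernel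

private theorem u5_8 : famB 5
    [(0o20200, 0o1010), (0o3, 0o3000)]
    [(0o4000, 0o4), (0o10, 0o30200), (0o40000, 0o3), (0o104, 0o2000), (0o30000, 0o30), (0o40, 0o40000), (0o2000, 0o103), (0o4, 0o30000), (0o40200, 0o10), (0o3, 0o3000)]
    [(0o4000, 0o4), (0o10, 0o30200), (0o40010, 0o200), (0o3000, 0o3), (0o4, 0o34000), (0o40200, 0o10)]
    8 11 10 12 = true := by decide +kernel

private theorem u5_9 : famB 5
    [(0o2003, 0o100), (0o0, 0o30004), (0o40130, 0o2000), (0o0, 0o40), (0o1003, 0o20000), (0o2000, 0o104)]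
    [(0o30, 0o30000), (0o40000, 0o40), (0o103, 0o2000), (0o30000, 0o4), (0o10, 0o40200), (0o3000, 0o3), (0o4, 0o4000), (0o30200, 0o10), (0o3, 0o40000), (0o2000, 0o104)]
    [(0o30, 0o30000), (0o40000, 0o40), (0o101, 0o2020)]
    9 12 10 12 = true := by decide +kernel

private theorem u5_10 : famB 5
    [(0o30010, 0o200), (0o0, 0o40003), (0o3204, 0o10), (0o0, 0o4000), (0o30020, 0o1), (0o10, 0o40200)]
    [(0o3000, 0o3), (0o4, 0o4000), (0o30200, 0o10), (0o3, 0o40000), (0o2000, 0o104), (0o30, 0o30000), (0o40000, 0o40), (0o103, 0o2000), (0o30000, 0o4), (0o10, 0o40200)]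
    [(0o3000, 0o3), (0o1004, 0o24000), (0o0, 0o30), (0o20240, 0o1010)]
    10 14 10 12 = true := by decide +kernel

private theorem u5_11 : famB 5
    [(0o100, 0o2003), (0o30004, 0o0), (0o2000, 0o40130), (0o40, 0o0), (0o20000, 0o1003), (0o104, 0o2000)]
    [(0o30000, 0o30), (0o40, 0o40000), (0o2000, 0o103), (0o4, 0o30000), (0o40200, 0o10), (0o3, 0o3000), (0o4000, 0o4), (0o10, 0o30200), (0o40000, 0o3), (0o104, 0o2000)]
    [(0o30000, 0o30), (0o40, 0o40300), (0o3400, 0o3), (0o4, 0o34000), (0o40200, 0o10)]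
    11 15 10 12 = true := by decide +kernel

private theorem u5_12 : famB 5
    [(0o200, 0o30010), (0o40003, 0o3000), (0o4000, 0o4)]
    [(0o10, 0o30200), (0o40000, 0o3), (0o104, 0o2000), (0o30000, 0o30), (0o40, 0o40000), (0o2000, 0o103), (0o4, 0o30000), (0o40200, 0o10), (0o3, 0o3000), (0o4000, 0o4)]
    [(0o10, 0o30200), (0o40000, 0o3), (0o104, 0o2000), (0o30000, 0o30), (0o40, 0o40000), (0o2000, 0o103), (0o3004, 0o0), (0o0, 0o34030), (0o40240, 0o10)]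
    12 16 10 12 = true := by decide +kernel

private theorem u5_13 : famB 5
    [(0o30200, 0o10), (0o3, 0o43000), (0o4000, 0o4)]
    [(0o10, 0o30200), (0o40000, 0o3), (0o104, 0o2000), (0o30000, 0o30), (0o40, 0o40000), (0o2000, 0o103), (0o4, 0o30000), (0o40200, 0o10), (0o3, 0o3000), (0o4000, 0o4)]
    [(0o10, 0o30200), (0o40000, 0o3), (0o104, 0o2000), (0o30000, 0o30), (0o40, 0o40000), (0o2000, 0o103), (0o20004, 0o1000), (0o200, 0o10), (0o300, 0o30003), (0o40004, 0o400)]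
    13 17 10 12 = true := by decide +kernel

theorem up5 (n : ℕ) (hn : 5 ≤ n) :
    ∃ D : Finset (Fin 5 × Fin n), Patrol (grid 5 n) D ∧ D.card = (6 * n + 10) / 5 := by
  have hcase : n % 10 = 0 ∨ n % 10 = 1 ∨ n % 10 = 2 ∨ n % 10 = 3 ∨ n % 10 = 4 ∨ n % 10 = 5 ∨ n % 10 = 6 ∨ n % 10 = 7 ∨ n % 10 = 8 ∨ n % 10 = 9 := by omega
  rcases hcase with h | h | h | h | h | h | h | h | h | h
  · obtain ⟨k, rfl⟩ : ∃ k, n = 10 + k * 10 := ⟨(n - 10) / 10, by omega⟩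
    rw [show (6 * (10 + k * 10) + 10) / 5 = 14 + k * 12 by omega]
    exact famB_patrol 5 _ _ _ _ _ _ _ u5_10 k
  · obtain ⟨k, rfl⟩ : ∃ k, n = 11 + k * 10 := ⟨(n - 11) / 10, by omega⟩
    rw [show (6 * (11 + k * 10) + 10) / 5 = 15 + k * 12 by omega]
    exact famB_patrol 5 _ _ _ _ _ _ _ u5_11 k
  · obtain ⟨k, rfl⟩ : ∃ k, n = 12 + k * 10 := ⟨(n - 12) / 10, by omega⟩
    rw [show (6 * (12 + k * 10) + 10) / 5 = 16 + k * 12 by omega]
    exact famB_patrol 5 _ _ _ _ _ _ _ u5_12 k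
  · obtain ⟨k, rfl⟩ : ∃ k, n = 13 + k * 10 := ⟨(n - 13) / 10, by omega⟩
    rw [show (6 * (13 + k * 10) + 10) / 5 = 17 + k * 12 by omega]
    exact famB_patrol 5 _ _ _ _ _ _ _ u5_13 k
  · obtain ⟨k, rfl⟩ : ∃ k, n = 4 + k * 10 := ⟨(n - 4) / 10, by omega⟩
    rw [show (6 * (4 + k * 10) + 10) / 5 = 6 + k * 12 by omega]
    exact famB_patrol 5 _ _ _ _ _ _ _ u5_4 k
  · obtain ⟨k, rfl⟩ : ∃ k, n = 5 + k * 10 := ⟨(n - 5) / 10, by omega⟩
    rw [show (6 * (5 + k * 10) + 10) / 5 = 8 + k * 12 by omega]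
    exact famB_patrol 5 _ _ _ _ _ _ _ u5_5 k
  · obtain ⟨k, rfl⟩ : ∃ k, n = 6 + k * 10 := ⟨(n - 6) / 10, by omega⟩
    rw [show (6 * (6 + k * 10) + 10) / 5 = 9 + k * 12 by omega]
    exact famB_patrol 5 _ _ _ _ _ _ _ u5_6 k
  · obtain ⟨k, rfl⟩ : ∃ k, n = 7 + k * 10 := ⟨(n - 7) / 10, by omega⟩
    rw [show (6 * (7 + k * 10) + 10) / 5 = 10 + k * 12 by omega]
    exact famB_patrol 5 _ _ _ _ _ _ _ u5_7 k
  · obtain ⟨k, rfl⟩ : ∃ k, n = 8 + k * 10 := ⟨(n - 8) / 10, by omega⟩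
    rw [show (6 * (8 + k * 10) + 10) / 5 = 11 + k * 12 by omega]
    exact famB_patrol 5 _ _ _ _ _ _ _ u5_8 k
  · obtain ⟨k, rfl⟩ : ∃ k, n = 9 + k * 10 := ⟨(n - 9) / 10, by omega⟩
    rw [show (6 * (9 + k * 10) + 10) / 5 = 12 + k * 12 by omega]
    exact famB_patrol 5 _ _ _ _ _ _ _ u5_9 k

theorem up5_5 : ∃ D : Finset (Fin 5 × Fin 5), Patrol (grid 5 5) D ∧ D.card = 7 :=
  oneB_patrol 5 [(0o100, 0o2003), (0o30004, 0o300), (0o400, 0o40000), (0o200, 0o13), (0o20004, 0o1000)] _ _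
    (by decide +kernel)

end PatDom
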