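import Pool.Agent.H.MP_b28609_co.Word

/-!
# MP_b28609_co: patrolling dominating sets, 6 rows
-/

set_option autoImplicit false
set_option maxRecDepth 100000

namespace PatDom

private theorem u6_3 : famB 6
    [(0o1010, 0o20200)]
    [(0o300000, 0o3), (0o104, 0o402000), (0o30000, 0o30), (0o40, 0o40000), (0o302000, 0o103), (0o4, 0o400000), (0o20200, 0o1010), (0o3, 0o300000), (0o402000, 0o104), (0o30, 0o30000), (0o40000, 0o40), (0o103, 0o302000), (0o400000, 0o4), (0o1010, 0o20200)]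
    [(0o300000, 0o3), (0o2104, 0o402100)]
    3 6 14 20 = true := by decide +kernel

private theorem u6_4 : famB 6
    [(0o20200, 0o1010)]
    [(0o3, 0o300000), (0o402000, 0o104), (0o30, 0o30000), (0o40000, 0o40), (0o103, 0o302000), (0o400000, 0o4), (0o1010, 0o20200), (0o300000, 0o3), (0o104, 0o402000), (0o30000, 0o30), (0o40, 0o40000), (0o302000, 0o103), (0o4, 0o400000), (0o20200, 0o1010)]
    [(0o3, 0o300000), (0o402000, 0o134), (0o1040, 0o20000)]
    4 7 14 20 = true := by decide +kernel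

private theorem u6_6 : famB 6
    [(0o20200, 0o1010)]
    [(0o3, 0o300000), (0o402000, 0o104), (0o30, 0o30000), (0o40000, 0o40), (0o103, 0o302000), (0o400000, 0o4), (0o1010, 0o20200), (0o300000, 0o3), (0o104, 0o402000), (0o30000, 0o30), (0o40, 0o40000), (0o302000, 0o103), (0o4, 0o400000), (0o20200, 0o1010)]
    [(0o3, 0o300000), (0o402000, 0o104), (0o30, 0o30000), (0o340000, 0o40), (0o101, 0o402020)]
    6 10 14 20 = true := by decide +kernel

private theorem u6_7 : famB 6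
    [(0o2003, 0o300100), (0o400000, 0o304), (0o430, 0o30000), (0o40000, 0o40)]
    [(0o103, 0o302000), (0o400000, 0o4), (0o1010, 0o20200), (0o300000, 0o3), (0o104, 0o402000), (0o30000, 0o30), (0o40, 0o40000), (0o302000, 0o103), (0o4, 0o400000), (0o20200, 0o1010), (0o3, 0o300000), (0o402000, 0o104), (0o30, 0o30000), (0o40000, 0o40)]
    [(0o103, 0o302000), (0o400000, 0o4), (0o1010, 0o20200)]
    7 11 14 20 = true := by decide +kernel

private theorem u6_8 : famB 6
    [(0o20200, 0o1010)]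
    [(0o3, 0o300000), (0o402000, 0o104), (0o30, 0o30000), (0o40000, 0o40), (0o103, 0o302000), (0o400000, 0o4), (0o1010, 0o20200), (0o300000, 0o3), (0o104, 0o402000), (0o30000, 0o30), (0o40, 0o40000), (0o302000, 0o103), (0o4, 0o400000), (0o20200, 0o1010)]
    [(0o3, 0o300000), (0o402000, 0o104), (0o30, 0o30000), (0o40000, 0o40), (0o103, 0o302000), (0o400000, 0o4), (0o1010, 0o20200)]
    8 12 14 20 = true := by decide +kernel

private theorem u6_9 : famB 6
    [(0o1010, 0o20200)]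
    [(0o300000, 0o3), (0o104, 0o402000), (0o30000, 0o30), (0o40, 0o40000), (0o302000, 0o103), (0o4, 0o400000), (0o20200, 0o1010), (0o3, 0o300000), (0o402000, 0o104), (0o30, 0o30000), (0o40000, 0o40), (0o103, 0o302000), (0o400000, 0o4), (0o1010, 0o20200)]
    [(0o300000, 0o3), (0o104, 0o402000), (0o30000, 0o30), (0o30040, 0o40030), (0o40, 0o40000), (0o302000, 0o103), (0o4, 0o400000), (0o20200, 0o1010)]
    9 14 14 20 = true := by decide +kernel

private theorem u6_10 : famB 6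
    [(0o1010, 0o20200)]
    [(0o300000, 0o3), (0o104, 0o402000), (0o30000, 0o30), (0o40, 0o40000), (0o302000, 0o103), (0o4, 0o400000), (0o20200, 0o1010), (0o3, 0o300000), (0o402000, 0o104), (0o30, 0o30000), (0o40000, 0o40), (0o103, 0o302000), (0o400000, 0o4), (0o1010, 0o20200)]
    [(0o300000, 0o3), (0o104, 0o402000), (0o30000, 0o30), (0o40, 0o40000), (0o302000, 0o103), (0o4, 0o400000), (0o20200, 0o1010), (0o10000, 0o200030), (0o20041, 0o1020)]
    10 16 14 20 = true := by decide +kernel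

private theorem u6_11 : famB 6
    [(0o20200, 0o1010)]
    [(0o3, 0o300000), (0o402000, 0o104), (0o30, 0o30000), (0o40000, 0o40), (0o103, 0o302000), (0o400000, 0o4), (0o1010, 0o20200), (0o300000, 0o3), (0o104, 0o402000), (0o30000, 0o30), (0o40, 0o40000), (0o302000, 0o103), (0o4, 0o400000), (0o20200, 0o1010)]
    [(0o3, 0o300000), (0o402000, 0o104), (0o30, 0o30000), (0o40000, 0o40), (0o103, 0o302000), (0o400000, 0o4), (0o1010, 0o20200), (0o300003, 0o300), (0o400, 0o430004), (0o40010, 0o200)]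
    11 17 14 20 = true := by decide +kernel

private theorem u6_12 : famB 6
    [(0o1010, 0o20200)]
    [(0o300000, 0o3), (0o104, 0o402000), (0o30000, 0o30), (0o40, 0o40000), (0o302000, 0o103), (0o4, 0o400000), (0o20200, 0o1010), (0o3, 0o300000), (0o402000, 0o104), (0o30, 0o30000), (0o40000, 0o40), (0o103, 0o302000), (0o400000, 0o4), (0o1010, 0o20200)]
    [(0o300000, 0o3), (0o104, 0o402000), (0o30000, 0o30), (0o2040, 0o40100), (0o300000, 0o3), (0o104, 0o402000), (0o30000, 0o30), (0o40, 0o40000), (0o302000, 0o103), (0o4, 0o400000), (0o20200, 0o1010)]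
    12 18 14 20 = true := by decide +kernel

private theorem u6_13 : famB 6
    [(0o1010, 0o20200)]
    [(0o300000, 0o3), (0o104, 0o402000), (0o30000, 0o30), (0o40, 0o40000), (0o302000, 0o103), (0o4, 0o400000), (0o20200, 0o1010), (0o3, 0o300000), (0o402000, 0o104), (0o30, 0o30000), (0o40000, 0o40), (0o103, 0o302000), (0o400000, 0o4), (0o1010, 0o20200)]
    [(0o300000, 0o3), (0o104, 0o402000), (0o30000, 0o30), (0o40, 0o40000), (0o302000, 0o103), (0o4, 0o400000), (0o20200, 0o1010), (0o300, 0o300003), (0o400004, 0o400), (0o1000, 0o20000), (0o20, 0o300031), (0o420040, 0o1000)]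
    13 20 14 20 = true := by decide +kernel

private theorem u6_14 : famB 6
    [(0o1010, 0o20200)]
    [(0o300000, 0o3), (0o104, 0o402000), (0o30000, 0o30), (0o40, 0o40000), (0o302000, 0o103), (0o4, 0o400000), (0o20200, 0o1010), (0o3, 0o300000), (0o402000, 0o104), (0o30, 0o30000), (0o40000, 0o40), (0o103, 0o302000), (0o400000, 0o4), (0o1010, 0o20200)]
    [(0o300000, 0o3), (0o104, 0o402000), (0o30000, 0o30), (0o40, 0o40000), (0o302000, 0o103), (0o4, 0o400000), (0o20200, 0o1010), (0o3, 0o300000), (0o402000, 0o104), (0o30, 0o30000), (0o40000, 0o340), (0o403, 0o300000), (0o400100, 0o2004)]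
    14 21 14 20 = true := by decide +kernel

private theorem u6_15 : famB 6
    [(0o20200, 0o1010)]
    [(0o3, 0o300000), (0o402000, 0o104), (0o30, 0o30000), (0o40000, 0o40), (0o103, 0o302000), (0o400000, 0o4), (0o1010, 0o20200), (0o300000, 0o3), (0o104, 0o402000), (0o30000, 0o30), (0o40, 0o40000), (0o302000, 0o103), (0o4, 0o400000), (0o20200, 0o1010)]
    [(0o3, 0o300000), (0o402000, 0o104), (0o30, 0o30000), (0o40000, 0o40), (0o103, 0o302000), (0o400000, 0o4), (0o1010, 0o20200), (0o300000, 0o3), (0o104, 0o402000), (0o30000, 0o30), (0o40, 0o40000), (0o302000, 0o103), (0o4, 0o400000), (0o20200, 0o1010)]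
    15 22 14 20 = true := by decide +kernel

private theorem u6_16 : famB 6
    [(0o1010, 0o20200)]
    [(0o300000, 0o3), (0o104, 0o402000), (0o30000, 0o30), (0o40, 0o40000), (0o302000, 0o103), (0o4, 0o400000), (0o20200, 0o1010), (0o3, 0o300000), (0o402000, 0o104), (0o30, 0o30000), (0o40000, 0o40), (0o103, 0o302000), (0o400000, 0o4), (0o1010, 0o20200)]
    [(0o300000, 0o3), (0o104, 0o402000), (0o30000, 0o30), (0o40, 0o40000), (0o302000, 0o103), (0o4, 0o400000), (0o20200, 0o1010), (0o3, 0o300000), (0o402000, 0o104), (0o30, 0o30000), (0o40000, 0o40), (0o103, 0o302000), (0o400000, 0o4), (0o1010, 0o20200), (0o200020, 0o10001)]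
    16 24 14 20 = true := by decide +kernel

private theorem u6_19 : famB 6
    [(0o1010, 0o20200)]
    [(0o300000, 0o3), (0o104, 0o402000), (0o30000, 0o30), (0o40, 0o40000), (0o302000, 0o103), (0o4, 0o400000), (0o20200, 0o1010), (0o3, 0o300000), (0o402000, 0o104), (0o30, 0o30000), (0o40000, 0o40), (0o103, 0o302000), (0o400000, 0o4), (0o1010, 0o20200)]
    [(0o300000, 0o3), (0o104, 0o402000), (0o30000, 0o30), (0o40, 0o40000), (0o302000, 0o103), (0o4, 0o400000), (0o20200, 0o1010), (0o3, 0o300000), (0o402000, 0o104), (0o30, 0o30000), (0o40000, 0o40), (0o103, 0o302000), (0o400000, 0o4), (0o2030, 0o30100), (0o40000, 0o40), (0o103, 0o302000), (0o400000, 0o4), (0o1010, 0o20200)]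
    19 28 14 20 = true := by decide +kernel

theorem up6 (n : ℕ) (hn : 6 ≤ n) :
    ∃ D : Finset (Fin 6 × Fin n), Patrol (grid 6 n) D ∧ D.card = (10 * n + 12) / 7 - (if n % 7 = 1 then 1 else 0) := by
  have hcase : n % 14 = 0 ∨ n % 14 = 1 ∨ n % 14 = 2 ∨ n % 14 = 3 ∨ n % 14 = 4 ∨ n % 14 = 5 ∨ n % 14 = 6 ∨ n % 14 = 7 ∨ n % 14 = 8 ∨ n % 14 = 9 ∨ n % 14 = 10 ∨ n % 14 = 11 ∨ n % 14 = 12 ∨ n % 14 = 13 := by omega
  rcases hcase with h | h | h | h | h | h | h | h | h | h | h | h | h | h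
  · obtain ⟨k, rfl⟩ : ∃ k, n = 14 + k * 14 := ⟨(n - 14) / 14, by omega⟩
    rw [show (10 * (14 + k * 14) + 12) / 7 - (if (14 + k * 14) % 7 = 1 then 1 else 0) = 21 + k * 20 by split_ifs <;> omega]
    exact famB_patrol 6 _ _ _ _ _ _ _ u6_14 k
  · obtain ⟨k, rfl⟩ : ∃ k, n = 15 + k * 14 := ⟨(n - 15) / 14, by omega⟩
    rw [show (10 * (15 + k * 14) + 12) / 7 - (if (15 + k * 14) % 7 = 1 then 1 else 0) = 22 + k * 20 by split_ifs <;> omega]
    exact famB_patrol 6 _ _ _ _ _ _ _ u6_15 k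
  · obtain ⟨k, rfl⟩ : ∃ k, n = 16 + k * 14 := ⟨(n - 16) / 14, by omega⟩
    rw [show (10 * (16 + k * 14) + 12) / 7 - (if (16 + k * 14) % 7 = 1 then 1 else 0) = 24 + k * 20 by split_ifs <;> omega]
    exact famB_patrol 6 _ _ _ _ _ _ _ u6_16 k
  · obtain ⟨k, rfl⟩ : ∃ k, n = 3 + k * 14 := ⟨(n - 3) / 14, by omega⟩
    rw [show (10 * (3 + k * 14) + 12) / 7 - (if (3 + k * 14) % 7 = 1 then 1 else 0) = 6 + k * 20 by split_ifs <;> omega]
    exact famB_patrol 6 _ _ _ _ _ _ _ u6_3 k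
  · obtain ⟨k, rfl⟩ : ∃ k, n = 4 + k * 14 := ⟨(n - 4) / 14, by omega⟩
    rw [show (10 * (4 + k * 14) + 12) / 7 - (if (4 + k * 14) % 7 = 1 then 1 else 0) = 7 + k * 20 by split_ifs <;> omega]
    exact famB_patrol 6 _ _ _ _ _ _ _ u6_4 k
  · obtain ⟨k, rfl⟩ : ∃ k, n = 19 + k * 14 := ⟨(n - 19) / 14, by omega⟩
    rw [show (10 * (19 + k * 14) + 12) / 7 - (if (19 + k * 14) % 7 = 1 then 1 else 0) = 28 + k * 20 by split_ifs <;> omega]
    exact famB_patrol 6 _ _ _ _ _ _ _ u6_19 k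
  · obtain ⟨k, rfl⟩ : ∃ k, n = 6 + k * 14 := ⟨(n - 6) / 14, by omega⟩
    rw [show (10 * (6 + k * 14) + 12) / 7 - (if (6 + k * 14) % 7 = 1 then 1 else 0) = 10 + k * 20 by split_ifs <;> omega]
    exact famB_patrol 6 _ _ _ _ _ _ _ u6_6 k
  · obtain ⟨k, rfl⟩ : ∃ k, n = 7 + k * 14 := ⟨(n - 7) / 14, by omega⟩
    rw [show (10 * (7 + k * 14) + 12) / 7 - (if (7 + k * 14) % 7 = 1 then 1 else 0) = 11 + k * 20 by split_ifs <;> omega]
    exact famB_patrol 6 _ _ _ _ _ _ _ u6_7 k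
  · obtain ⟨k, rfl⟩ : ∃ k, n = 8 + k * 14 := ⟨(n - 8) / 14, by omega⟩
    rw [show (10 * (8 + k * 14) + 12) / 7 - (if (8 + k * 14) % 7 = 1 then 1 else 0) = 12 + k * 20 by split_ifs <;> omega]
    exact famB_patrol 6 _ _ _ _ _ _ _ u6_8 k
  · obtain ⟨k, rfl⟩ : ∃ k, n = 9 + k * 14 := ⟨(n - 9) / 14, by omega⟩
    rw [show (10 * (9 + k * 14) + 12) / 7 - (if (9 + k * 14) % 7 = 1 then 1 else 0) = 14 + k * 20 by split_ifs <;> omega]
    exact famB_patrol 6 _ _ _ _ _ _ _ u6_9 k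
  · obtain ⟨k, rfl⟩ : ∃ k, n = 10 + k * 14 := ⟨(n - 10) / 14, by omega⟩
    rw [show (10 * (10 + k * 14) + 12) / 7 - (if (10 + k * 14) % 7 = 1 then 1 else 0) = 16 + k * 20 by split_ifs <;> omega]
    exact famB_patrol 6 _ _ _ _ _ _ _ u6_10 k
  · obtain ⟨k, rfl⟩ : ∃ k, n = 11 + k * 14 := ⟨(n - 11) / 14, by omega⟩
    rw [show (10 * (11 + k * 14) + 12) / 7 - (if (11 + k * 14) % 7 = 1 then 1 else 0) = 17 + k * 20 by split_ifs <;> omega]
    exact famB_patrol 6 _ _ _ _ _ _ _ u6_11 k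
  · obtain ⟨k, rfl⟩ : ∃ k, n = 12 + k * 14 := ⟨(n - 12) / 14, by omega⟩
    rw [show (10 * (12 + k * 14) + 12) / 7 - (if (12 + k * 14) % 7 = 1 then 1 else 0) = 18 + k * 20 by split_ifs <;> omega]
    exact famB_patrol 6 _ _ _ _ _ _ _ u6_12 k
  · obtain ⟨k, rfl⟩ : ∃ k, n = 13 + k * 14 := ⟨(n - 13) / 14, by omega⟩
    rw [show (10 * (13 + k * 14) + 12) / 7 - (if (13 + k * 14) % 7 = 1 then 1 else 0) = 20 + k * 20 by split_ifs <;> omega]
    exact famB_patrol 6 _ _ _ _ _ _ _ u6_13 k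

end PatDom
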