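import Pool.Agent.H.MP_b28609_co.Word

/-!
# MP_b28609_co: patrolling dominating sets, 7 rows
-/

set_option autoImplicit false
set_option maxRecDepth 100000

namespace PatDom

private theorem u7_4 : famB 7
    [(0o200010, 0o10200)]
    [(0o3000, 0o3000003), (0o4000004, 0o4000), (0o10200, 0o200010), (0o3000003, 0o3000), (0o4000, 0o4000004), (0o200010, 0o10200)]
    [(0o3000, 0o3000003), (0o4000004, 0o4000), (0o10200, 0o200010)]
    4 7 6 10 = true := by decide +kernel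

private theorem u7_6 : famB 7
    [(0o200010, 0o10200)]
    [(0o3000, 0o3000003), (0o4000004, 0o4000), (0o10200, 0o200010), (0o3000003, 0o3000), (0o4000, 0o4000004), (0o200010, 0o10200)]
    [(0o3000, 0o3000003), (0o4000004, 0o4000), (0o10200, 0o200010), (0o3000300, 0o30003), (0o40004, 0o4000400)]
    6 11 6 10 = true := by decide +kernel

private theorem u7_7 : famB 7
    [(0o10200, 0o200010)]
    [(0o3000003, 0o3000), (0o4000, 0o4000004), (0o200010, 0o10200), (0o3000, 0o3000003), (0o4000004, 0o4000), (0o10200, 0o200010)]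
    [(0o3000003, 0o3000), (0o4000, 0o4000004), (0o200010, 0o10200), (0o3000, 0o3000003), (0o4000004, 0o4000), (0o10200, 0o200010)]
    7 12 6 10 = true := by decide +kernel

private theorem u7_8 : famB 7
    [(0o10200, 0o200010)]
    [(0o3000003, 0o3000), (0o4000, 0o4000004), (0o200010, 0o10200), (0o3000, 0o3000003), (0o4000004, 0o4000), (0o10200, 0o200010)]
    [(0o3000003, 0o3000), (0o4000, 0o4300004), (0o400010, 0o200), (0o200030, 0o10000), (0o3000, 0o3000043), (0o4000004, 0o4000), (0o10200, 0o200010)]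
    8 14 6 10 = true := by decide +kernel

private theorem u7_9 : famB 7
    [(0o200010, 0o10200)]
    [(0o3000, 0o3000003), (0o4000004, 0o4000), (0o10200, 0o200010), (0o3000003, 0o3000), (0o4000, 0o4000004), (0o200010, 0o10200)]
    [(0o3000, 0o3000003), (0o4000004, 0o4000), (0o10200, 0o200010), (0o3000003, 0o3000), (0o4000, 0o4000034), (0o200040, 0o10000), (0o30003, 0o3000300), (0o4000400, 0o40004)]
    9 16 6 10 = true := by decide +kernel

private theorem u7_11 : famB 7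
    [(0o200010, 0o10200)]
    [(0o3000, 0o3000003), (0o4000004, 0o4000), (0o10200, 0o200010), (0o3000003, 0o3000), (0o4000, 0o4000004), (0o200010, 0o10200)]
    [(0o3000, 0o3000003), (0o4000004, 0o4000), (0o10200, 0o200010), (0o3000003, 0o3000), (0o4000, 0o4000004), (0o200010, 0o10200), (0o300010, 0o200), (0o3000, 0o3400003), (0o4000004, 0o4000), (0o10200, 0o200010)]
    11 19 6 10 = true := by decide +kernel

theorem up7 (n : ℕ) (hn : 7 ≤ n) :
    ∃ D : Finset (Fin 7 × Fin n), Patrol (grid 7 n) D ∧ D.card = (5 * n + 3) / 3 := by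
  have hcase : n % 6 = 0 ∨ n % 6 = 1 ∨ n % 6 = 2 ∨ n % 6 = 3 ∨ n % 6 = 4 ∨ n % 6 = 5 := by omega
  rcases hcase with h | h | h | h | h | h
  · obtain ⟨k, rfl⟩ : ∃ k, n = 6 + k * 6 := ⟨(n - 6) / 6, by omega⟩
    rw [show (5 * (6 + k * 6) + 3) / 3 = 11 + k * 10 by omega]
    exact famB_patrol 7 _ _ _ _ _ _ _ u7_6 k
  · obtain ⟨k, rfl⟩ : ∃ k, n = 7 + k * 6 := ⟨(n - 7) / 6, by omega⟩
    rw [show (5 * (7 + k * 6) + 3) / 3 = 12 + k * 10 by omega]
    exact famB_patrol 7 _ _ _ _ _ _ _ u7_7 k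
  · obtain ⟨k, rfl⟩ : ∃ k, n = 8 + k * 6 := ⟨(n - 8) / 6, by omega⟩
    rw [show (5 * (8 + k * 6) + 3) / 3 = 14 + k * 10 by omega]
    exact famB_patrol 7 _ _ _ _ _ _ _ u7_8 k
  · obtain ⟨k, rfl⟩ : ∃ k, n = 9 + k * 6 := ⟨(n - 9) / 6, by omega⟩
    rw [show (5 * (9 + k * 6) + 3) / 3 = 16 + k * 10 by omega]
    exact famB_patrol 7 _ _ _ _ _ _ _ u7_9 k
  · obtain ⟨k, rfl⟩ : ∃ k, n = 4 + k * 6 := ⟨(n - 4) / 6, by omega⟩
    rw [show (5 * (4 + k * 6) + 3) / 3 = 7 + k * 10 by omega]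
    exact famB_patrol 7 _ _ _ _ _ _ _ u7_4 k
  · obtain ⟨k, rfl⟩ : ∃ k, n = 11 + k * 6 := ⟨(n - 11) / 6, by omega⟩
    rw [show (5 * (11 + k * 6) + 3) / 3 = 19 + k * 10 by omega]
    exact famB_patrol 7 _ _ _ _ _ _ _ u7_11 k

end PatDom
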