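import Pool.Agent.H.MP_b28609_co.Iso
import Pool.Agent.H.MP_b28609_co.Up1
import Pool.Agent.H.MP_b28609_co.Up2
import Pool.Agent.H.MP_b28609_co.Up3
import Pool.Agent.H.MP_b28609_co.Up4
import Pool.Agent.H.MP_b28609_co.Up5
import Pool.Agent.H.MP_b28609_co.Up6
import Pool.Agent.H.MP_b28609_co.Up7
import Pool.Agent.H.MP_b28609_co.Dat1
import Pool.Agent.H.MP_b28609_co.Dat2
import Pool.Agent.H.MP_b28609_co.Dat3
import Pool.Agent.H.MP_b28609_co.Dat4
import Pool.Agent.H.MP_b28609_co.Dat5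
import Pool.Agent.H.MP_b28609_co.Dat6
import Pool.Agent.H.MP_b28609_co.Dat7

/-!
# MP_b28609_co: exact values for narrow grids
-/

set_option autoImplicit false

namespace PatDom

theorem val1_eq (n : ℕ) (hn : 1 ≤ n) : val1 n = 1 := by
  match n, hn with
  | 1, _ => rfl
  | 2, _ => rfl
  | 3, _ => rfl
  | n + 4, _ => rfl

theorem exact1 (n : ℕ) (hn : 2 ≤ n) : pnum (grid 1 n) = (n + 3) / 3 := by
  have hlow : ∀ D : Finset (Fin 1 × Fin n), Patrol (grid 1 n) D → (n + 3) / 3 ≤ D.card := by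
    intro D hD
    have h := low1 n D hD
    rw [val1_eq n (by omega)] at h
    omega
  by_cases h3 : n = 3
  · subst h3
    exact pnum_eq _ _ up1_3 hlow
  · exact pnum_eq _ _ (up1 n hn h3) hlow

theorem val2_eq (n : ℕ) (hn : 1 ≤ n) : val2 n = 1 := by
  match n, hn with
  | 1, _ => rfl
  | n + 2, _ => rfl

theorem exact2 (n : ℕ) (hn : 2 ≤ n) : pnum (grid 2 n) = (n + 2) / 2 := by
  have hlow : ∀ D : Finset (Fin 2 × Fin n), Patrol (grid 2 n) D → (n + 2) / 2 ≤ D.card := by
    intro D hD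
    have h := low2 n D hD
    rw [val2_eq n (by omega)] at h
    omega
  by_cases h2 : n = 2
  · subst h2
    exact pnum_eq _ _ up2_2 hlow
  · exact pnum_eq _ _ (up2 n hn h2) hlow

theorem val3_eq (n : ℕ) (hn : 4 ≤ n) (h7 : n ≠ 7) : val3 n = 4 := by
  match n, hn, h7 with
  | 4, _, _ => rfl
  | 5, _, _ => rfl
  | 6, _, _ => rfl
  | 8, _, _ => rfl
  | n + 9, _, _ => rfl

theorem exact3 (n : ℕ) (hn : 3 ≤ n) :
    pnum (grid 3 n) = (3 * n + 7) / 4 - (if n = 3 ∨ n = 7 then 1 else 0) := by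
  by_cases h3 : n = 3
  · subst h3
    refine pnum_eq _ _ up3_3 ?_
    intro D hD
    have h := low3 3 D hD
    have : val3 3 = 3 := rfl
    rw [this] at h
    simp
    omega
  · by_cases h7 : n = 7
    · subst h7
      refine pnum_eq _ _ up3_7 ?_
      intro D hD
      have h := low3 7 D hD
      have : val3 7 = 3 := rfl
      rw [this] at h
      simp
      omega
    · rw [if_neg (by omega), Nat.sub_zero]
      refine pnum_eq _ _ (up3 n hn h3) ?_
      intro D hD
      have h := low3 n D hD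
      rw [val3_eq n (by omega) h7] at h
      omega

theorem exact4 (n : ℕ) (hn : 4 ≤ n) :
    pnum (grid 4 n) = n + (if n = 5 ∨ n = 6 ∨ n = 9 then 1 else 0) := by
  have hlow : ∀ D : Finset (Fin 4 × Fin n), Patrol (grid 4 n) D →
      n + (if n = 5 ∨ n = 6 ∨ n = 9 then 1 else 0) ≤ D.card := by
    intro D hD
    have h := low4 n D hD
    unfold val4 at h
    split_ifs at h ⊢ <;> omega
  by_cases h5 : n = 5
  · subst h5
    exact pnum_eq _ _ up4_5 hlow
  · by_cases h6 : n = 6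
    · subst h6
      exact pnum_eq _ _ up4_6 hlow
    · by_cases h9 : n = 9
      · subst h9
        exact pnum_eq _ _ up4_9 hlow
      · rw [if_neg (by omega)] at hlow ⊢
        exact pnum_eq _ _ (up4 n hn h5 h6 h9) hlow

theorem val5_eq (n : ℕ) (hn : 6 ≤ n) : val5 n = 6 := by
  match n, hn with
  | 6, _ => rfl
  | 7, _ => rfl
  | 8, _ => rfl
  | 9, _ => rfl
  | 10, _ => rfl
  | 11, _ => rfl
  | n + 12, _ => rfl

theorem exact5 (n : ℕ) (hn : 5 ≤ n) :
    pnum (grid 5 n) = (6 * n + 10) / 5 - (if n = 5 then 1 else 0) := by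
  by_cases h5 : n = 5
  · subst h5
    refine pnum_eq _ _ up5_5 ?_
    intro D hD
    have h := low5 5 D hD
    have : val5 5 = 5 := rfl
    rw [this] at h
    simp
    omega
  · rw [if_neg h5, Nat.sub_zero]
    refine pnum_eq _ _ (up5 n hn) ?_
    intro D hD
    have h := low5 n D hD
    rw [val5_eq n (by omega)] at h
    omega

theorem exact6 (n : ℕ) (hn : 6 ≤ n) :
    pnum (grid 6 n) = (10 * n + 12) / 7 - (if n % 7 = 1 then 1 else 0) := by
  refine pnum_eq _ _ (up6 n hn) ?_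
  intro D hD
  have h := low6 n D hD
  unfold val6 at h
  split_ifs at h ⊢ <;> omega

theorem val7_eq (n : ℕ) (hn : 1 ≤ n) : val7 n = 1 := by
  match n, hn with
  | 1, _ => rfl
  | n + 2, _ => rfl

theorem exact7 (n : ℕ) (hn : 7 ≤ n) : pnum (grid 7 n) = (5 * n + 3) / 3 := by
  refine pnum_eq _ _ (up7 n hn) ?_
  intro D hD
  have h := low7 n D hD
  rw [val7_eq n (by omega)] at h
  omega

end PatDom
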