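import Pool.Agent.H.MP_b28609_co.Word

/-!
# MP_b28609_co: patrolling dominating sets, 8 rows
-/

set_option autoImplicit false
set_option maxRecDepth 100000

namespace PatDom

private theorem u8_4 : famB 8
    [(0o20200010, 0o1010200), (0o3000, 0o3000003)]
    [(0o4000004, 0o4000), (0o10200, 0o30200010), (0o40000003, 0o3000), (0o104000, 0o2000004), (0o30000010, 0o30200), (0o40000, 0o40000003), (0o2000104, 0o102000), (0o30000, 0o30000030), (0o40000040, 0o40000), (0o102000, 0o2000103), (0o30000004, 0o30000), (0o40200, 0o40000010), (0o2000003, 0o103000), (0o4000, 0o30000004), (0o40200010, 0o10200), (0o3000, 0o3000003)]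
    [(0o4000004, 0o4000), (0o1010200, 0o20200010)]
    4 9 16 30 = true := by decide +kernel

private theorem u8_6 : famB 8
    [(0o102000, 0o2000103), (0o30000034, 0o30000), (0o40000, 0o40000040)]
    [(0o2000103, 0o102000), (0o30000, 0o30000004), (0o40000010, 0o40200), (0o103000, 0o2000003), (0o30000004, 0o4000), (0o10200, 0o40200010), (0o3000003, 0o3000), (0o4000, 0o4000004), (0o30200010, 0o10200), (0o3000, 0o40000003), (0o2000004, 0o104000), (0o30200, 0o30000010), (0o40000003, 0o40000), (0o102000, 0o2000104), (0o30000030, 0o30000), (0o40000, 0o40000040)]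
    [(0o2000103, 0o102000), (0o1000, 0o30020004), (0o40100010, 0o2000200)]
    6 13 16 30 = true := by decide +kernel

private theorem u8_7 : famB 8
    [(0o10200, 0o30200010), (0o43000003, 0o3000), (0o4000, 0o4000004)]
    [(0o30200010, 0o10200), (0o3000, 0o40000003), (0o2000004, 0o104000), (0o30200, 0o30000010), (0o40000003, 0o40000), (0o102000, 0o2000104), (0o30000030, 0o30000), (0o40000, 0o40000040), (0o2000103, 0o102000), (0o30000, 0o30000004), (0o40000010, 0o40200), (0o103000, 0o2000003), (0o30000004, 0o4000), (0o10200, 0o40200010), (0o3000003, 0o3000), (0o4000, 0o4000004)]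
    [(0o30200010, 0o10200), (0o3000, 0o40000003), (0o2000004, 0o104000), (0o20010200, 0o1200010)]
    7 15 16 30 = true := by decide +kernel

private theorem u8_8 : famB 8
    [(0o100200, 0o2000010), (0o30000103, 0o32000), (0o40000, 0o40000004), (0o2000010, 0o100200), (0o2000, 0o30000103)]
    [(0o40200004, 0o10000), (0o200, 0o3000010), (0o4020003, 0o1000), (0o300, 0o30300004), (0o40400003, 0o400), (0o1000, 0o3020004), (0o4000010, 0o200), (0o10000, 0o30200003), (0o40000104, 0o2000), (0o100000, 0o2000030), (0o30001040, 0o20000), (0o300000, 0o40000303), (0o30000404, 0o400000), (0o20000, 0o40001030), (0o2000040, 0o100000), (0o2000, 0o30000103)]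
    [(0o40200004, 0o10000), (0o3200, 0o3000013), (0o4100004, 0o2004000)]
    8 17 16 30 = true := by decide +kernel

private theorem u8_9 : famB 8
    [(0o102000, 0o2000103), (0o30000034, 0o30000), (0o40000, 0o40000040)]
    [(0o2000103, 0o102000), (0o30000, 0o30000004), (0o40000010, 0o40200), (0o103000, 0o2000003), (0o30000004, 0o4000), (0o10200, 0o40200010), (0o3000003, 0o3000), (0o4000, 0o4000004), (0o30200010, 0o10200), (0o3000, 0o40000003), (0o2000004, 0o104000), (0o30200, 0o30000010), (0o40000003, 0o40000), (0o102000, 0o2000104), (0o30000030, 0o30000), (0o40000, 0o40000040)]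
    [(0o2000103, 0o102000), (0o30000, 0o30000004), (0o40000010, 0o40200), (0o103000, 0o2000003), (0o30000004, 0o4000), (0o210200, 0o40210010)]
    9 19 16 30 = true := by decide +kernel

private theorem u8_10 : famB 8
    [(0o100100, 0o2002003), (0o30000004, 0o3000), (0o14000, 0o40200030), (0o3000040, 0o3000)]
    [(0o4000, 0o4000003), (0o30200004, 0o10300), (0o400, 0o40000003), (0o2020004, 0o101000), (0o200, 0o30000010), (0o40200003, 0o10000), (0o2000, 0o3000104), (0o4000030, 0o30000), (0o40000, 0o30000040), (0o40000103, 0o302000), (0o400000, 0o30000004), (0o40001010, 0o20200), (0o100000, 0o2000003), (0o30000104, 0o2000), (0o10000, 0o40200030), (0o3000040, 0o3000)]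
    [(0o4000, 0o4000003), (0o30200004, 0o10300), (0o300400, 0o40000300), (0o30000400, 0o400003), (0o20004, 0o40001000), (0o2000200, 0o100010)]
    10 20 16 30 = true := by decide +kernel

private theorem u8_11 : famB 8
    [(0o2000200, 0o100010), (0o20003, 0o30001000), (0o40000300, 0o300004), (0o400300, 0o30000400), (0o40200003, 0o10400)]
    [(0o3000, 0o3000004), (0o4000030, 0o4000), (0o10000, 0o30200040), (0o40000103, 0o2000), (0o100000, 0o2000004), (0o30001010, 0o20200), (0o300000, 0o40000003), (0o30000104, 0o402000), (0o30000, 0o40000030), (0o3000040, 0o40000), (0o2000, 0o4000103), (0o30200004, 0o10000), (0o200, 0o40000010), (0o2020003, 0o101000), (0o300, 0o30000004), (0o40200003, 0o10400)]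
    [(0o3000, 0o3000004), (0o4000030, 0o4000), (0o10000, 0o30200040), (0o40000103, 0o2000), (0o100000, 0o2000004), (0o20001010, 0o1020200)]
    11 22 16 30 = true := by decide +kernel

private theorem u8_12 : famB 8
    [(0o2000101, 0o102020), (0o30000, 0o30000030)]
    [(0o40000040, 0o40000), (0o102000, 0o2000103), (0o30000004, 0o30000), (0o40200, 0o40000010), (0o2000003, 0o103000), (0o4000, 0o30000004), (0o40200010, 0o10200), (0o3000, 0o3000003), (0o4000004, 0o4000), (0o10200, 0o30200010), (0o40000003, 0o3000), (0o104000, 0o2000004), (0o30000010, 0o30200), (0o40000, 0o40000003), (0o2000104, 0o102000), (0o30000, 0o30000030)]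
    [(0o40000040, 0o40000), (0o102000, 0o2000103), (0o30000004, 0o30000), (0o40200, 0o40000010), (0o2000003, 0o103000), (0o4000, 0o30000004), (0o40200010, 0o10200), (0o3000, 0o3000003), (0o4000004, 0o4000), (0o1010200, 0o20200010)]
    12 24 16 30 = true := by decide +kernel

private theorem u8_13 : famB 8
    [(0o100010, 0o2000200), (0o30001000, 0o20003), (0o300004, 0o40000300), (0o300400, 0o400003), (0o30000004, 0o403000), (0o34000, 0o40000030), (0o3000040, 0o40000)]
    [(0o2000, 0o4000103), (0o30200004, 0o10000), (0o200, 0o40000010), (0o2020003, 0o101000), (0o300, 0o30000004), (0o40200003, 0o10400), (0o3000, 0o3000004), (0o4000030, 0o4000), (0o10000, 0o30200040), (0o40000103, 0o2000), (0o100000, 0o2000004), (0o30001010, 0o20200), (0o300000, 0o40000003), (0o30000104, 0o402000), (0o30000, 0o40000030), (0o3000040, 0o40000)]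
    [(0o2000, 0o4000103), (0o30200004, 0o10000), (0o200, 0o40000010), (0o2020003, 0o101000), (0o30001000, 0o20004), (0o100010, 0o42000200)]
    13 26 16 30 = true := by decide +kernel

private theorem u8_14 : famB 8
    [(0o100100, 0o2002003), (0o30000004, 0o3000), (0o14000, 0o40200030), (0o3000040, 0o3000)]
    [(0o4000, 0o4000003), (0o30200004, 0o10300), (0o400, 0o40000003), (0o2020004, 0o101000), (0o200, 0o30000010), (0o40200003, 0o10000), (0o2000, 0o3000104), (0o4000030, 0o30000), (0o40000, 0o30000040), (0o40000103, 0o302000), (0o400000, 0o30000004), (0o40001010, 0o20200), (0o100000, 0o2000003), (0o30000104, 0o2000), (0o10000, 0o40200030), (0o3000040, 0o3000)]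
    [(0o4000, 0o4000003), (0o30200004, 0o10300), (0o400, 0o40000003), (0o2020004, 0o101000), (0o200, 0o30000010), (0o40200003, 0o10000), (0o2000, 0o3000104), (0o4000030, 0o30000), (0o40000, 0o30000040), (0o40010101, 0o202020)]
    14 28 16 30 = true := by decide +kernel

private theorem u8_15 : famB 8
    [(0o2002003, 0o100100), (0o3000, 0o30000004), (0o40200030, 0o14000), (0o3000, 0o3000040)]
    [(0o4000003, 0o4000), (0o10300, 0o30200004), (0o40000003, 0o400), (0o101000, 0o2020004), (0o30000010, 0o200), (0o10000, 0o40200003), (0o3000104, 0o2000), (0o30000, 0o4000030), (0o30000040, 0o40000), (0o302000, 0o40000103), (0o30000004, 0o400000), (0o20200, 0o40001010), (0o2000003, 0o100000), (0o2000, 0o30000104), (0o40200030, 0o10000), (0o3000, 0o3000040)]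
    [(0o4000003, 0o4000), (0o10300, 0o30200004), (0o40000003, 0o400), (0o101000, 0o2020004), (0o30000010, 0o200), (0o10000, 0o40200003), (0o3000104, 0o2000), (0o30000, 0o4000030), (0o30000040, 0o43000), (0o204000, 0o40010003), (0o20002004, 0o1000100)]
    15 30 16 30 = true := by decide +kernel

private theorem u8_16 : famB 8
    [(0o30010010, 0o200200), (0o10000, 0o40200003)]
    [(0o3000104, 0o2000), (0o30000, 0o4000030), (0o30000040, 0o40000), (0o302000, 0o40000103), (0o30000004, 0o400000), (0o20200, 0o40001010), (0o2000003, 0o100000), (0o2000, 0o30000104), (0o40200030, 0o10000), (0o3000, 0o3000040), (0o4000003, 0o4000), (0o10300, 0o30200004), (0o40000003, 0o400), (0o101000, 0o2020004), (0o30000010, 0o200), (0o10000, 0o40200003)]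
    [(0o3000104, 0o2000), (0o30000, 0o4000030), (0o30000040, 0o40000), (0o302000, 0o40000103), (0o30000004, 0o400000), (0o20200, 0o40001010), (0o2000003, 0o100000), (0o2000, 0o30000104), (0o40200030, 0o10000), (0o3000, 0o3000040), (0o4000003, 0o4000), (0o10300, 0o30200004), (0o40000020, 0o401), (0o101010, 0o2020200)]
    16 32 16 30 = true := by decide +kernel

private theorem u8_17 : famB 8
    [(0o2002003, 0o100100), (0o3000, 0o30000004), (0o40200030, 0o14000), (0o3000, 0o3000040)]
    [(0o4000003, 0o4000), (0o10300, 0o30200004), (0o40000003, 0o400), (0o101000, 0o2020004), (0o30000010, 0o200), (0o10000, 0o40200003), (0o3000104, 0o2000), (0o30000, 0o4000030), (0o30000040, 0o40000), (0o302000, 0o40000103), (0o30000004, 0o400000), (0o20200, 0o40001010), (0o2000003, 0o100000), (0o2000, 0o30000104), (0o40200030, 0o10000), (0o3000, 0o3000040)]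
    [(0o4000003, 0o4000), (0o10300, 0o30200004), (0o40000003, 0o400), (0o101000, 0o2020004), (0o30000010, 0o200), (0o10000, 0o40200003), (0o3000104, 0o2000), (0o30000, 0o4000030), (0o20000040, 0o1040000), (0o302000, 0o103), (0o1004, 0o30420000), (0o43000000, 0o30), (0o20240, 0o4001010)]
    17 34 16 30 = true := by decide +kernel

private theorem u8_18 : famB 8
    [(0o30010010, 0o200200), (0o10000, 0o40200003)]
    [(0o3000104, 0o2000), (0o30000, 0o4000030), (0o30000040, 0o40000), (0o302000, 0o40000103), (0o30000004, 0o400000), (0o20200, 0o40001010), (0o2000003, 0o100000), (0o2000, 0o30000104), (0o40200030, 0o10000), (0o3000, 0o3000040), (0o4000003, 0o4000), (0o10300, 0o30200004), (0o40000003, 0o400), (0o101000, 0o2020004), (0o30000010, 0o200), (0o10000, 0o40200003)]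
    [(0o3000104, 0o2000), (0o30000, 0o4000030), (0o30000040, 0o40000), (0o302000, 0o40000103), (0o30000004, 0o400000), (0o20200, 0o40001010), (0o2000003, 0o100000), (0o2000, 0o30000104), (0o40200030, 0o10000), (0o3000, 0o3000040), (0o4000003, 0o34000), (0o40300, 0o30000004), (0o40000300, 0o300400), (0o400003, 0o30000400), (0o40001000, 0o20004), (0o100010, 0o2000200)]
    18 35 16 30 = true := by decide +kernel

private theorem u8_19 : famB 8
    [(0o101001, 0o2020020), (0o30000010, 0o200)]
    [(0o10000, 0o40200003), (0o3000104, 0o2000), (0o30000, 0o4000030), (0o30000040, 0o40000), (0o302000, 0o40000103), (0o30000004, 0o400000), (0o20200, 0o40001010), (0o2000003, 0o100000), (0o2000, 0o30000104), (0o40200030, 0o10000), (0o3000, 0o3000040), (0o4000003, 0o4000), (0o10300, 0o30200004), (0o40000003, 0o400), (0o101000, 0o2020004), (0o30000010, 0o200)]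
    [(0o10000, 0o40200003), (0o3000104, 0o2000), (0o30000, 0o4000030), (0o30000040, 0o40000), (0o302000, 0o40000103), (0o30000004, 0o400000), (0o20200, 0o40001010), (0o2000003, 0o100000), (0o2000, 0o30000104), (0o40200030, 0o10000), (0o3000, 0o3000040), (0o4000003, 0o4000), (0o10300, 0o30200004), (0o40000300, 0o300400), (0o400003, 0o30000400), (0o40001000, 0o20004), (0o100010, 0o2000200)]
    19 37 16 30 = true := by decide +kernel

private theorem u8_21 : famB 8
    [(0o2000200, 0o100010), (0o20003, 0o30001000), (0o40000300, 0o300004), (0o400300, 0o30000400), (0o40200003, 0o10400)]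
    [(0o3000, 0o3000004), (0o4000030, 0o4000), (0o10000, 0o30200040), (0o40000103, 0o2000), (0o100000, 0o2000004), (0o30001010, 0o20200), (0o300000, 0o40000003), (0o30000104, 0o402000), (0o30000, 0o40000030), (0o3000040, 0o40000), (0o2000, 0o4000103), (0o30200004, 0o10000), (0o200, 0o40000010), (0o2020003, 0o101000), (0o300, 0o30000004), (0o40200003, 0o10400)]
    [(0o3000, 0o3000004), (0o4000030, 0o4000), (0o10000, 0o30200040), (0o40000103, 0o2000), (0o100000, 0o2000004), (0o30001010, 0o20200), (0o300000, 0o40000003), (0o30000104, 0o402000), (0o30000, 0o40000030), (0o3000040, 0o40000), (0o2000, 0o4000103), (0o30200004, 0o10000), (0o200, 0o43000010), (0o4030003, 0o3000), (0o30004000, 0o340004), (0o400010, 0o40000200)]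
    21 41 16 30 = true := by decide +kernel

theorem up8 (n : ℕ) (hn : 10 ≤ n) :
    ∃ D : Finset (Fin 8 × Fin n), Patrol (grid 8 n) D ∧ D.card = (15 * n + 17) / 8 := by
  have hcase : n % 16 = 0 ∨ n % 16 = 1 ∨ n % 16 = 2 ∨ n % 16 = 3 ∨ n % 16 = 4 ∨ n % 16 = 5 ∨ n % 16 = 6 ∨ n % 16 = 7 ∨ n % 16 = 8 ∨ n % 16 = 9 ∨ n % 16 = 10 ∨ n % 16 = 11 ∨ n % 16 = 12 ∨ n % 16 = 13 ∨ n % 16 = 14 ∨ n % 16 = 15 := by omega
  rcases hcase with h | h | h | h | h | h | h | h | h | h | h | h | h | h | h | h
  · obtain ⟨k, rfl⟩ : ∃ k, n = 16 + k * 16 := ⟨(n - 16) / 16, by omega⟩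
    rw [show (15 * (16 + k * 16) + 17) / 8 = 32 + k * 30 by omega]
    exact famB_patrol 8 _ _ _ _ _ _ _ u8_16 k
  · obtain ⟨k, rfl⟩ : ∃ k, n = 17 + k * 16 := ⟨(n - 17) / 16, by omega⟩
    rw [show (15 * (17 + k * 16) + 17) / 8 = 34 + k * 30 by omega]
    exact famB_patrol 8 _ _ _ _ _ _ _ u8_17 k
  · obtain ⟨k, rfl⟩ : ∃ k, n = 18 + k * 16 := ⟨(n - 18) / 16, by omega⟩
    rw [show (15 * (18 + k * 16) + 17) / 8 = 35 + k * 30 by omega]
    exact famB_patrol 8 _ _ _ _ _ _ _ u8_18 k
  · obtain ⟨k, rfl⟩ : ∃ k, n = 19 + k * 16 := ⟨(n - 19) / 16, by omega⟩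
    rw [show (15 * (19 + k * 16) + 17) / 8 = 37 + k * 30 by omega]
    exact famB_patrol 8 _ _ _ _ _ _ _ u8_19 k
  · obtain ⟨k, rfl⟩ : ∃ k, n = 4 + k * 16 := ⟨(n - 4) / 16, by omega⟩
    rw [show (15 * (4 + k * 16) + 17) / 8 = 9 + k * 30 by omega]
    exact famB_patrol 8 _ _ _ _ _ _ _ u8_4 k
  · obtain ⟨k, rfl⟩ : ∃ k, n = 21 + k * 16 := ⟨(n - 21) / 16, by omega⟩
    rw [show (15 * (21 + k * 16) + 17) / 8 = 41 + k * 30 by omega]
    exact famB_patrol 8 _ _ _ _ _ _ _ u8_21 k
  · obtain ⟨k, rfl⟩ : ∃ k, n = 6 + k * 16 := ⟨(n - 6) / 16, by omega⟩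
    rw [show (15 * (6 + k * 16) + 17) / 8 = 13 + k * 30 by omega]
    exact famB_patrol 8 _ _ _ _ _ _ _ u8_6 k
  · obtain ⟨k, rfl⟩ : ∃ k, n = 7 + k * 16 := ⟨(n - 7) / 16, by omega⟩
    rw [show (15 * (7 + k * 16) + 17) / 8 = 15 + k * 30 by omega]
    exact famB_patrol 8 _ _ _ _ _ _ _ u8_7 k
  · obtain ⟨k, rfl⟩ : ∃ k, n = 8 + k * 16 := ⟨(n - 8) / 16, by omega⟩
    rw [show (15 * (8 + k * 16) + 17) / 8 = 17 + k * 30 by omega]
    exact famB_patrol 8 _ _ _ _ _ _ _ u8_8 k
  · obtain ⟨k, rfl⟩ : ∃ k, n = 9 + k * 16 := ⟨(n - 9) / 16, by omega⟩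
    rw [show (15 * (9 + k * 16) + 17) / 8 = 19 + k * 30 by omega]
    exact famB_patrol 8 _ _ _ _ _ _ _ u8_9 k
  · obtain ⟨k, rfl⟩ : ∃ k, n = 10 + k * 16 := ⟨(n - 10) / 16, by omega⟩
    rw [show (15 * (10 + k * 16) + 17) / 8 = 20 + k * 30 by omega]
    exact famB_patrol 8 _ _ _ _ _ _ _ u8_10 k
  · obtain ⟨k, rfl⟩ : ∃ k, n = 11 + k * 16 := ⟨(n - 11) / 16, by omega⟩
    rw [show (15 * (11 + k * 16) + 17) / 8 = 22 + k * 30 by omega]
    exact famB_patrol 8 _ _ _ _ _ _ _ u8_11 k
  · obtain ⟨k, rfl⟩ : ∃ k, n = 12 + k * 16 := ⟨(n - 12) / 16, by omega⟩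
    rw [show (15 * (12 + k * 16) + 17) / 8 = 24 + k * 30 by omega]
    exact famB_patrol 8 _ _ _ _ _ _ _ u8_12 k
  · obtain ⟨k, rfl⟩ : ∃ k, n = 13 + k * 16 := ⟨(n - 13) / 16, by omega⟩
    rw [show (15 * (13 + k * 16) + 17) / 8 = 26 + k * 30 by omega]
    exact famB_patrol 8 _ _ _ _ _ _ _ u8_13 k
  · obtain ⟨k, rfl⟩ : ∃ k, n = 14 + k * 16 := ⟨(n - 14) / 16, by omega⟩
    rw [show (15 * (14 + k * 16) + 17) / 8 = 28 + k * 30 by omega]
    exact famB_patrol 8 _ _ _ _ _ _ _ u8_14 k
  · obtain ⟨k, rfl⟩ : ∃ k, n = 15 + k * 16 := ⟨(n - 15) / 16, by omega⟩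
    rw [show (15 * (15 + k * 16) + 17) / 8 = 30 + k * 30 by omega]
    exact famB_patrol 8 _ _ _ _ _ _ _ u8_15 k

theorem up8_8 : ∃ D : Finset (Fin 8 × Fin 8), Patrol (grid 8 8) D ∧ D.card = 16 :=
  oneB_patrol 8 [(0o2000010, 0o100200), (0o33000, 0o30000003), (0o40000004, 0o44000), (0o100200, 0o2000010), (0o100010, 0o2000200), (0o30001000, 0o20003), (0o20004, 0o40001000), (0o2000200, 0o100010)] _ _
    (by decide +kernel)

theorem up8_9 : ∃ D : Finset (Fin 8 × Fin 9), Patrol (grid 8 9) D ∧ D.card = 18 :=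
  oneB_patrol 8 [(0o2000200, 0o100010), (0o30003, 0o30003000), (0o40004000, 0o40004), (0o100010, 0o2000200), (0o30001000, 0o20003), (0o300004, 0o40000300), (0o30000400, 0o400003), (0o20004, 0o40001000), (0o2000200, 0o100010)] _ _
    (by decide +kernel)

end PatDom
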