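import Pool.Agent.H.MP_b28609_co.Narrow
import Pool.Agent.H.MP_b28609_co.Up8
import Pool.Agent.H.MP_b28609_co.V4.L8

/-!
# MP_b28609_co: exact values, 8 rows
-/

set_option autoImplicit false

namespace PatDom

theorem vl8_eq (n : ℕ) (hn : 10 ≤ n) : V4.vl8 n = 10 := by
  match n, hn with
  | 10, _ => rfl
  | 11, _ => rfl
  | n + 12, _ => rfl

theorem exact8 (n : ℕ) (hn : 8 ≤ n) :
    pnum (grid 8 n) = (15 * n + 17) / 8 - (if n = 8 ∨ n = 9 then 1 else 0) := by
  by_cases h8 : n = 8
  · subst h8
    refine pnum_eq _ _ up8_8 ?_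
    intro D hD
    have h := V4.low8 8 D hD
    have : V4.vl8 8 = 8 := rfl
    rw [this] at h
    simp
    omega
  · by_cases h9 : n = 9
    · subst h9
      refine pnum_eq _ _ up8_9 ?_
      intro D hD
      have h := V4.low8 9 D hD
      have : V4.vl8 9 = 9 := rfl
      rw [this] at h
      simp
      omega
    · rw [if_neg (by omega), Nat.sub_zero]
      refine pnum_eq _ _ (up8 n (by omega)) ?_
      intro D hD
      have h := V4.low8 n D hD
      rw [vl8_eq n (by omega)] at h
      omega

end PatDom
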