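import Pool.Agent.H.MP_b28609_co.Def

/-!
# MP_b28609_co: patrolling dominating sets from words

A column is a pair of octal numbers; digit `i` of the first (second) number belongs to row `i` of the
first (second) dominating set: `0` no guard, `1` the partner is in row `i + 1`, `2` in row `i - 1`,
`3` in the next column, `4` in the previous column.
-/

set_option autoImplicit false

namespace PatDom

/-- Local conditions for the pair of sets `f ≠ 0`, `g ≠ 0`. -/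
structure Good (m n : ℕ) (f g : ℕ → ℕ → ℕ) : Prop where
  f0 : ∀ j < n, ∀ i < m, f j i ≤ 4
  f1 : ∀ j < n, ∀ i < m, f j i = 1 → i + 1 < m ∧ g j (i + 1) = 2
  f2 : ∀ j < n, ∀ i < m, f j i = 2 → 1 ≤ i ∧ g j (i - 1) = 1
  f3 : ∀ j < n, ∀ i < m, f j i = 3 → j + 1 < n ∧ g (j + 1) i = 4
  f4 : ∀ j < n, ∀ i < m, f j i = 4 → 1 ≤ j ∧ g (j - 1) i = 3
  fd : ∀ j < n, ∀ i < m, f j i ≠ 0 ∨ (i + 1 < m ∧ f j (i + 1) ≠ 0) ∨ (1 ≤ i ∧ f j (i - 1) ≠ 0) ∨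
    (j + 1 < n ∧ f (j + 1) i ≠ 0) ∨ (1 ≤ j ∧ f (j - 1) i ≠ 0)

theorem good_patrol {m n : ℕ} {f g : ℕ → ℕ → ℕ} (h1 : Good m n f g) (h2 : Good m n g f) :
    ∃ D : Finset (Fin m × Fin n), Patrol (grid m n) D ∧
      D.card = ∑ j ∈ Finset.range n, ∑ i ∈ Finset.range m, if f j i = 0 then 0 else 1 := by
  classical
  let F : Fin m × Fin n → ℕ := fun x => f x.2.val x.1.val
  let G : Fin m × Fin n → ℕ := fun x => g x.2.val x.1.val
  let Rel : Fin m × Fin n → Fin m × Fin n → Prop := fun x y =>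
    (F x = 1 ∧ G y = 2 ∧ y.1.val = x.1.val + 1 ∧ y.2.val = x.2.val) ∨
    (F x = 2 ∧ G y = 1 ∧ x.1.val = y.1.val + 1 ∧ y.2.val = x.2.val) ∨
    (F x = 3 ∧ G y = 4 ∧ y.1.val = x.1.val ∧ y.2.val = x.2.val + 1) ∨
    (F x = 4 ∧ G y = 3 ∧ y.1.val = x.1.val ∧ x.2.val = y.2.val + 1)
  have ex : ∀ x : Fin m × Fin n, F x ≠ 0 → ∃ y, Rel x y := by
    rintro ⟨i, j⟩ hx
    have hle := h1.f0 j.val j.isLt i.val i.isLt
    have hx' : f j.val i.val ≠ 0 := hx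
    have hcase : f j.val i.val = 1 ∨ f j.val i.val = 2 ∨ f j.val i.val = 3 ∨ f j.val i.val = 4 := by
      omega
    rcases hcase with h | h | h | h
    · obtain ⟨a, b⟩ := h1.f1 _ j.isLt _ i.isLt h
      exact ⟨(⟨i.val + 1, a⟩, j), Or.inl ⟨h, b, rfl, rfl⟩⟩
    · obtain ⟨a, b⟩ := h1.f2 _ j.isLt _ i.isLt h
      refine ⟨(⟨i.val - 1, by omega⟩, j), Or.inr (Or.inl ⟨h, b, ?_, rfl⟩)⟩
      simp only
      omega
    · obtain ⟨a, b⟩ := h1.f3 _ j.isLt _ i.isLt h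
      exact ⟨(i, ⟨j.val + 1, a⟩), Or.inr (Or.inr (Or.inl ⟨h, b, rfl, rfl⟩))⟩
    · obtain ⟨a, b⟩ := h1.f4 _ j.isLt _ i.isLt h
      refine ⟨(i, ⟨j.val - 1, by omega⟩), Or.inr (Or.inr (Or.inr ⟨h, b, rfl, ?_⟩))⟩
      simp only
      omega
  have ex2 : ∀ y : Fin m × Fin n, G y ≠ 0 → ∃ x, Rel x y := by
    rintro ⟨i, j⟩ hx
    have hle := h2.f0 j.val j.isLt i.val i.isLt
    have hx' : g j.val i.val ≠ 0 := hx
    have hcase : g j.val i.val = 1 ∨ g j.val i.val = 2 ∨ g j.val i.val = 3 ∨ g j.val i.val = 4 := by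
      omega
    rcases hcase with h | h | h | h
    · obtain ⟨a, b⟩ := h2.f1 _ j.isLt _ i.isLt h
      exact ⟨(⟨i.val + 1, a⟩, j), Or.inr (Or.inl ⟨b, h, rfl, rfl⟩)⟩
    · obtain ⟨a, b⟩ := h2.f2 _ j.isLt _ i.isLt h
      refine ⟨(⟨i.val - 1, by omega⟩, j), Or.inl ⟨b, h, ?_, rfl⟩⟩
      simp only
      omega
    · obtain ⟨a, b⟩ := h2.f3 _ j.isLt _ i.isLt h
      exact ⟨(i, ⟨j.val + 1, a⟩), Or.inr (Or.inr (Or.inr ⟨b, h, rfl, rfl⟩))⟩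
    · obtain ⟨a, b⟩ := h2.f4 _ j.isLt _ i.isLt h
      refine ⟨(i, ⟨j.val - 1, by omega⟩), Or.inr (Or.inr (Or.inl ⟨b, h, rfl, ?_⟩))⟩
      simp only
      omega
  have hne : ∀ x y, Rel x y → F x ≠ 0 := by
    intro x y h
    rcases h with h | h | h | h <;> (rw [h.1]; decide)
  have hadj : ∀ x y, Rel x y → (grid m n).Adj x y := by
    intro x y h
    rw [grid_adj]
    rcases h with ⟨-, -, h3, h4⟩ | ⟨-, -, h3, h4⟩ | ⟨-, -, h3, h4⟩ | ⟨-, -, h3, h4⟩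
    · exact Or.inl ⟨Or.inl h3.symm, Fin.ext h4.symm⟩
    · exact Or.inl ⟨Or.inr h3.symm, Fin.ext h4.symm⟩
    · exact Or.inr ⟨Or.inl h4.symm, Fin.ext h3.symm⟩
    · exact Or.inr ⟨Or.inr h4.symm, Fin.ext h3.symm⟩
  have hr : ∀ x y z, Rel x y → Rel x z → y = z := by
    intro x y z h h'
    apply Prod.ext <;> apply Fin.ext <;>
    rcases h with ⟨a1, a2, a3, a4⟩ | ⟨a1, a2, a3, a4⟩ | ⟨a1, a2, a3, a4⟩ | ⟨a1, a2, a3, a4⟩ <;>
    rcases h' with ⟨b1, b2, b3, b4⟩ | ⟨b1, b2, b3, b4⟩ | ⟨b1, b2, b3, b4⟩ | ⟨b1, b2, b3, b4⟩ <;>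
    omega
  have hl : ∀ x y z, Rel x z → Rel y z → x = y := by
    intro x y z h h'
    apply Prod.ext <;> apply Fin.ext <;>
    rcases h with ⟨a1, a2, a3, a4⟩ | ⟨a1, a2, a3, a4⟩ | ⟨a1, a2, a3, a4⟩ | ⟨a1, a2, a3, a4⟩ <;>
    rcases h' with ⟨b1, b2, b3, b4⟩ | ⟨b1, b2, b3, b4⟩ | ⟨b1, b2, b3, b4⟩ | ⟨b1, b2, b3, b4⟩ <;>
    omega
  let ι := {x : Fin m × Fin n // F x ≠ 0}
  have ex' : ∀ x : ι, ∃ y, Rel x.1 y := fun x => ex x.1 x.2
  choose h hh using ex'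
  have hsurj : ∀ y, G y ≠ 0 → ∃ x : ι, y = h x := by
    intro y hy
    obtain ⟨x, hx⟩ := ex2 y hy
    exact ⟨⟨x, hne x y hx⟩, hr x y _ hx (hh ⟨x, hne x y hx⟩)⟩
  have nb : ∀ k : ℕ → ℕ → ℕ,
      (∀ j < n, ∀ i < m, k j i ≠ 0 ∨ (i + 1 < m ∧ k j (i + 1) ≠ 0) ∨ (1 ≤ i ∧ k j (i - 1) ≠ 0) ∨
        (j + 1 < n ∧ k (j + 1) i ≠ 0) ∨ (1 ≤ j ∧ k (j - 1) i ≠ 0)) →
      ∀ v : Fin m × Fin n, k v.2.val v.1.val ≠ 0 ∨
        ∃ u : Fin m × Fin n, (grid m n).Adj v u ∧ k u.2.val u.1.val ≠ 0 := by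
    rintro k hk ⟨i, j⟩
    rcases hk j.val j.isLt i.val i.isLt with h | ⟨a, h⟩ | ⟨a, h⟩ | ⟨a, h⟩ | ⟨a, h⟩
    · exact Or.inl h
    · right
      refine ⟨(⟨i.val + 1, a⟩, j), ?_, h⟩
      rw [grid_adj]
      exact Or.inl ⟨Or.inl rfl, rfl⟩
    · right
      refine ⟨(⟨i.val - 1, by omega⟩, j), ?_, h⟩
      rw [grid_adj]
      refine Or.inl ⟨Or.inr ?_, rfl⟩
      simp only
      omega
    · right
      refine ⟨(i, ⟨j.val + 1, a⟩), ?_, h⟩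
      rw [grid_adj]
      exact Or.inr ⟨Or.inl rfl, rfl⟩
    · right
      refine ⟨(i, ⟨j.val - 1, by omega⟩), ?_, h⟩
      rw [grid_adj]
      refine Or.inr ⟨Or.inr ?_, rfl⟩
      simp only
      omega
  obtain ⟨D, hD, hc⟩ := patrol_of_fam (grid m n) (fun x : ι => x.1) h
    Subtype.val_injective
    (by
      intro x y hxy
      have a := hh x
      have b := hh y
      rw [← hxy] at b
      exact Subtype.ext (hl _ _ _ a b))
    (fun x => hadj _ _ (hh x))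
    (by
      intro v
      rcases nb f h1.fd v with h | ⟨u, hu, h⟩
      · exact Or.inl ⟨⟨v, h⟩, rfl⟩
      · exact Or.inr ⟨⟨u, h⟩, hu⟩)
    (by
      intro v
      rcases nb g h2.fd v with h' | ⟨u, hu, h'⟩
      · exact Or.inl (hsurj v h')
      · obtain ⟨x, hx⟩ := hsurj u h'
        exact Or.inr ⟨x, hx ▸ hu⟩)
  refine ⟨D, hD, ?_⟩
  rw [hc, Fintype.card_subtype, Finset.card_filter, Finset.sum_range, ← Finset.univ_product_univ,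
    Finset.sum_product_right]
  apply Finset.sum_congr rfl
  intro j _
  rw [Finset.sum_range]
  apply Finset.sum_congr rfl
  intro i _
  by_cases hz : f j.val i.val = 0
  · rw [if_pos hz, if_neg (by simpa [F] using hz)]
  · rw [if_neg hz, if_pos (by simpa [F] using hz)]

end PatDom
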