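import Mathlib

/-!
# MP_b28609_co: the values for narrow grids
-/

set_option autoImplicit false

namespace PatDom

/-- The patrolling domination number of the `m × n` grid for `1 ≤ m ≤ 8`, `m ≤ n`, `2 ≤ m n`. -/
def nval (m n : ℕ) : ℕ :=
  if m = 1 then (n + 3) / 3
  else if m = 2 then (n + 2) / 2
  else if m = 3 then (3 * n + 7) / 4 - (if n = 3 ∨ n = 7 then 1 else 0)
  else if m = 4 then n + (if n = 5 ∨ n = 6 ∨ n = 9 then 1 else 0)
  else if m = 5 then (6 * n + 10) / 5 - (if n = 5 then 1 else 0)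
  else if m = 6 then (10 * n + 12) / 7 - (if n % 7 = 1 then 1 else 0)
  else if m = 7 then (5 * n + 3) / 3
  else (15 * n + 17) / 8 - (if n = 8 ∨ n = 9 then 1 else 0)

end PatDom
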