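import Pool.Agent.H.MP_b28609_co.Up

/-!
# MP_b28609_co: words of columns, periodic families
-/

set_option autoImplicit false

namespace PatDom

/-- `f i` holds for all `i < n`. -/
def allLt : ℕ → (ℕ → Bool) → Bool
  | 0, _ => true
  | n + 1, f => f n && allLt n f

theorem allLt_iff (n : ℕ) (f : ℕ → Bool) : allLt n f = true ↔ ∀ i < n, f i = true := by
  induction n with
  | zero => simp [allLt]
  | succ n ih =>
    rw [allLt, Bool.and_eq_true, ih]
    constructor
    · rintro ⟨h1, h2⟩ i hi
      rcases Nat.lt_succ_iff_lt_or_eq.1 hi with h | h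
      · exact h2 i h
      · exact h ▸ h1
    · intro h
      exact ⟨h n (Nat.lt_succ_self n), fun i hi => h i (Nat.lt_succ_of_lt hi)⟩

/-- Octal digit. -/
def dg (c i : ℕ) : ℕ := (c >>> (3 * i)) % 8

/-- Check of a cell: partner. -/
def ckD (m F G Gp Gx i : ℕ) : Bool :=
  match dg F i with
  | 0 => true
  | 1 => Nat.ble (i + 2) m && Nat.beq (dg G (i + 1)) 2
  | 2 => Nat.ble 1 i && Nat.beq (dg G (i - 1)) 1
  | 3 => Nat.beq (dg Gx i) 4
  | 4 => Nat.beq (dg Gp i) 3
  | _ => false

/-- Check of a cell: domination. -/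
def ckC (m F Fp Fx i : ℕ) : Bool :=
  !(Nat.beq (dg F i) 0) || (Nat.ble (i + 2) m && !(Nat.beq (dg F (i + 1)) 0)) ||
    (Nat.ble 1 i && !(Nat.beq (dg F (i - 1)) 0)) || !(Nat.beq (dg Fx i) 0) ||
    !(Nat.beq (dg Fp i) 0)

/-- Check of a column `c` between `p` and `x`. -/
def chk (m : ℕ) (p c x : ℕ × ℕ) : Bool :=
  allLt m fun i => ckD m c.1 c.2 p.2 x.2 i && ckD m c.2 c.1 p.1 x.1 i && ckC m c.1 p.1 x.1 i &&
    ckC m c.2 p.2 x.2 i

/-- Check of a word between `p` and `e`. -/
def okL (m : ℕ) : ℕ × ℕ → List (ℕ × ℕ) → ℕ × ℕ → Bool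
  | _, [], _ => true
  | p, c :: l, e => chk m p c (l.headD e) && okL m c l e

/-- Number of guards in a column. -/
def cnt (m c : ℕ) : ℕ := ∑ i ∈ Finset.range m, if dg c i = 0 then 0 else 1

/-- Number of guards in a word. -/
def cost (m : ℕ) (l : List (ℕ × ℕ)) : ℕ := (l.map fun c => cnt m c.1).sum

theorem okL_get (m : ℕ) (l : List (ℕ × ℕ)) : ∀ p, okL m p l (0, 0) = true → ∀ j < l.length,
    chk m ((p :: l).getD j (0, 0)) (l.getD j (0, 0)) (l.getD (j + 1) (0, 0)) = true := by
  induction l with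
  | nil => intro p _ j hj; simp at hj
  | cons c t ih =>
    intro p h j hj
    rw [okL, Bool.and_eq_true] at h
    cases j with
    | zero =>
      have h1 : (c :: t).getD (0 + 1) (0, 0) = t.headD (0, 0) := by
        cases t <;> rfl
      rw [h1]
      exact h.1
    | succ j =>
      exact ih c h.2 j (by simpa using hj)

theorem okL_append (m : ℕ) (u v : List (ℕ × ℕ)) (e : ℕ × ℕ) : ∀ p,
    okL m p (u ++ v) e = (okL m p u (v.headD e) && okL m (u.getLastD p) v e) := by
  induction u with
  | nil => intro p; simp [okL]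
  | cons c t ih =>
    intro p
    rw [List.cons_append, okL, okL, ih c, List.getLastD_cons, Bool.and_assoc]
    congr 2
    cases t <;> simp

theorem dg_zero (i : ℕ) : dg 0 i = 0 := by simp [dg]

/-- The conditions for the first coordinate. -/
private theorem good_aux (m n : ℕ) (F G : ℕ → ℕ)
    (hF : ∀ j, n ≤ j → F j = 0) (hG : ∀ j, n ≤ j → G j = 0)
    (h1 : ∀ j < n, ∀ i < m,
      ckD m (F j) (G j) (if j = 0 then 0 else G (j - 1)) (G (j + 1)) i = true)
    (h2 : ∀ j < n, ∀ i < m,
      ckC m (F j) (if j = 0 then 0 else F (j - 1)) (F (j + 1)) i = true) :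
    Good m n (fun j i => dg (F j) i) (fun j i => dg (G j) i) := by
  have key : ∀ j < n, ∀ i < m, ∀ d, dg (F j) i = d →
      (d ≤ 4 ∧ (d = 1 → i + 1 < m ∧ dg (G j) (i + 1) = 2) ∧
      (d = 2 → 1 ≤ i ∧ dg (G j) (i - 1) = 1) ∧
      (d = 3 → j + 1 < n ∧ dg (G (j + 1)) i = 4) ∧
      (d = 4 → 1 ≤ j ∧ dg (G (j - 1)) i = 3)) := by
    intro j hj i hi d hd
    have h := h1 j hj i hi
    unfold ckD at h
    rw [hd] at h
    match d, h with
    | 0, _ => refine ⟨by omega, ?_, ?_, ?_, ?_⟩ <;> intro h <;> omega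
    | 1, h =>
      simp only [Bool.and_eq_true, Nat.ble_eq, Nat.beq_eq] at h
      refine ⟨by omega, ?_, ?_, ?_, ?_⟩ <;> intro h' <;> try omega
      all_goals exact ⟨by omega, h.2⟩
    | 2, h =>
      simp only [Bool.and_eq_true, Nat.ble_eq, Nat.beq_eq] at h
      refine ⟨by omega, ?_, ?_, ?_, ?_⟩ <;> intro h' <;> try omega
      all_goals exact ⟨by omega, h.2⟩
    | 3, h =>
      simp only [Nat.beq_eq] at h
      refine ⟨by omega, ?_, ?_, ?_, ?_⟩ <;> intro h' <;> try omega
      refine ⟨?_, h⟩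
      by_contra hcon
      rw [hG (j + 1) (by omega), dg_zero] at h
      omega
    | 4, h =>
      simp only [Nat.beq_eq] at h
      refine ⟨by omega, ?_, ?_, ?_, ?_⟩ <;> intro h' <;> try omega
      by_cases hj0 : j = 0
      · rw [if_pos hj0, dg_zero] at h
        omega
      · rw [if_neg hj0] at h
        exact ⟨by omega, h⟩
    | d + 5, h => exact absurd h (by simp)
  constructor
  · intro j hj i hi
    exact (key j hj i hi _ rfl).1
  · intro j hj i hi h
    exact (key j hj i hi _ rfl).2.1 h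
  · intro j hj i hi h
    exact (key j hj i hi _ rfl).2.2.1 h
  · intro j hj i hi h
    exact (key j hj i hi _ rfl).2.2.2.1 h
  · intro j hj i hi h
    exact (key j hj i hi _ rfl).2.2.2.2 h
  · intro j hj i hi
    have h := h2 j hj i hi
    have nbeq : ∀ a : ℕ, (!(Nat.beq a 0)) = true ↔ a ≠ 0 := by
      intro a
      cases a <;> simp [Nat.beq]
    unfold ckC at h
    simp only [Bool.or_eq_true, Bool.and_eq_true, nbeq, Nat.ble_eq] at h
    rcases h with (((h | h) | h) | h) | h
    · exact Or.inl h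
    · exact Or.inr (Or.inl ⟨by omega, h.2⟩)
    · exact Or.inr (Or.inr (Or.inl h))
    · refine Or.inr (Or.inr (Or.inr (Or.inl ⟨?_, h⟩)))
      by_contra hcon
      rw [hF (j + 1) (by omega), dg_zero] at h
      exact h rfl
    · refine Or.inr (Or.inr (Or.inr (Or.inr ?_)))
      by_cases hj0 : j = 0
      · rw [if_pos hj0, dg_zero] at h
        exact absurd rfl h
      · rw [if_neg hj0] at h
        exact ⟨by omega, h⟩

theorem cost_eq (m : ℕ) (l : List (ℕ × ℕ)) :
    cost m l = ∑ j ∈ Finset.range l.length, cnt m (l.getD j (0, 0)).1 := by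
  unfold cost
  induction l with
  | nil => simp
  | cons c t ih =>
    rw [List.map_cons, List.sum_cons, ih, List.length_cons, Finset.sum_range_succ']
    simp [add_comm]

/-- A checked word gives a patrolling dominating set. -/
theorem word_patrol (m : ℕ) (l : List (ℕ × ℕ)) (h : okL m (0, 0) l (0, 0) = true) :
    ∃ D : Finset (Fin m × Fin l.length), Patrol (grid m l.length) D ∧ D.card = cost m l := by
  have hg := okL_get m l (0, 0) h
  have hp : ∀ j, ((0, 0) :: l).getD j ((0, 0) : ℕ × ℕ) =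
      if j = 0 then (0, 0) else l.getD (j - 1) (0, 0) := by
    intro j
    cases j with
    | zero => rfl
    | succ j => simp
  have hz : ∀ j, l.length ≤ j → l.getD j ((0, 0) : ℕ × ℕ) = (0, 0) := by
    intro j hj
    exact List.getD_eq_default _ _ hj
  have hk : ∀ j < l.length, ∀ i < m,
      ckD m (l.getD j (0, 0)).1 (l.getD j (0, 0)).2
        (if j = 0 then 0 else (l.getD (j - 1) (0, 0)).2) (l.getD (j + 1) (0, 0)).2 i = true ∧
      ckD m (l.getD j (0, 0)).2 (l.getD j (0, 0)).1
        (if j = 0 then 0 else (l.getD (j - 1) (0, 0)).1) (l.getD (j + 1) (0, 0)).1 i = true ∧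
      ckC m (l.getD j (0, 0)).1
        (if j = 0 then 0 else (l.getD (j - 1) (0, 0)).1) (l.getD (j + 1) (0, 0)).1 i = true ∧
      ckC m (l.getD j (0, 0)).2
        (if j = 0 then 0 else (l.getD (j - 1) (0, 0)).2) (l.getD (j + 1) (0, 0)).2 i = true := by
    intro j hj i hi
    have h1 := hg j hj
    rw [hp j] at h1
    unfold chk at h1
    rw [allLt_iff] at h1
    have h2 := h1 i hi
    simp only [Bool.and_eq_true] at h2
    obtain ⟨⟨⟨a, b⟩, c⟩, d⟩ := h2
    by_cases hj0 : j = 0
    · simp only [hj0, if_true] at a b c d ⊢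
      exact ⟨a, b, c, d⟩
    · simp only [if_neg hj0] at a b c d ⊢
      exact ⟨a, b, c, d⟩
  have g1 := good_aux m l.length (fun j => (l.getD j (0, 0)).1) (fun j => (l.getD j (0, 0)).2)
    (fun j hj => by simp only [hz j hj]) (fun j hj => by simp only [hz j hj])
    (fun j hj i hi => (hk j hj i hi).1) (fun j hj i hi => (hk j hj i hi).2.2.1)
  have g2 := good_aux m l.length (fun j => (l.getD j (0, 0)).2) (fun j => (l.getD j (0, 0)).1)
    (fun j hj => by simp only [hz j hj]) (fun j hj => by simp only [hz j hj])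
    (fun j hj i hi => (hk j hj i hi).2.1) (fun j hj i hi => (hk j hj i hi).2.2.2)
  obtain ⟨D, hD, hc⟩ := good_patrol g1 g2
  refine ⟨D, hD, ?_⟩
  rw [hc, cost_eq]
  rfl

/-- `k` copies of a word. -/
def rep (per : List (ℕ × ℕ)) : ℕ → List (ℕ × ℕ)
  | 0 => []
  | k + 1 => per ++ rep per k

/-- Check of a periodic family: `l1`, copies of `per`, `l2`. -/
def okF (m : ℕ) (l1 per l2 : List (ℕ × ℕ)) : Bool :=
  okL m (0, 0) l1 (l2.headD (0, 0)) && okL m (l1.getLastD (0, 0)) per (l2.headD (0, 0)) &&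
    okL m (l1.getLastD (0, 0)) l2 (0, 0) &&
    (per.headD (0, 0) == l2.headD (0, 0)) && (per.getLastD (0, 0) == l1.getLastD (0, 0)) &&
    !per.isEmpty && !l1.isEmpty

theorem cost_append (m : ℕ) (u v : List (ℕ × ℕ)) : cost m (u ++ v) = cost m u + cost m v := by
  unfold cost
  rw [List.map_append, List.sum_append]

theorem fam_patrol (m : ℕ) (l1 per l2 : List (ℕ × ℕ)) (h : okF m l1 per l2 = true) (k n c : ℕ)
    (hn : n = l1.length + l2.length + k * per.length)
    (hc : c = cost m l1 + cost m l2 + k * cost m per) :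
    ∃ D : Finset (Fin m × Fin n), Patrol (grid m n) D ∧ D.card = c := by
  unfold okF at h
  simp only [Bool.and_eq_true, beq_iff_eq] at h
  obtain ⟨⟨⟨⟨⟨⟨h1, h2⟩, h3⟩, h4⟩, h5⟩, h6⟩, h7⟩ := h
  have hper : per ≠ [] := by
    rintro rfl
    simp at h6
  have hl1 : l1 ≠ [] := by
    rintro rfl
    simp at h7
  have lastD : ∀ (l : List (ℕ × ℕ)), l ≠ [] → ∀ x y, l.getLastD x = l.getLastD y := by
    intro l hl x y
    cases l with
    | nil => exact absurd rfl hl
    | cons a t => rw [List.getLastD_cons, List.getLastD_cons]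
  have key : ∀ k, okL m (l1.getLastD (0, 0)) (rep per k ++ l2) (0, 0) = true ∧
      (rep per k ++ l2).headD (0, 0) = l2.headD (0, 0) := by
    intro k
    induction k with
    | zero => exact ⟨h3, rfl⟩
    | succ k ih =>
      rw [rep, List.append_assoc, okL_append]
      refine ⟨?_, ?_⟩
      · rw [ih.2, h2, Bool.true_and, lastD per hper _ (0, 0), h5]
        exact ih.1
      · rw [← h4]
        cases per with
        | nil => exact absurd rfl hper
        | cons a t => rfl
  have hlen : ∀ k, (rep per k).length = k * per.length ∧ cost m (rep per k) = k * cost m per := by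
    intro k
    induction k with
    | zero => simp [rep, cost]
    | succ k ih =>
      rw [rep, List.length_append, cost_append, ih.1, ih.2]
      constructor <;> ring
  have hok : okL m (0, 0) (l1 ++ (rep per k ++ l2)) (0, 0) = true := by
    rw [okL_append, (key k).2, h1, Bool.true_and]
    exact (key k).1
  obtain ⟨D, hD, hDc⟩ := word_patrol m _ hok
  have e1 : (l1 ++ (rep per k ++ l2)).length = n := by
    rw [List.length_append, List.length_append, (hlen k).1, hn]
    ring
  have e2 : cost m (l1 ++ (rep per k ++ l2)) = c := by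
    rw [cost_append, cost_append, (hlen k).2, hc]
    ring
  rw [e2] at hDc
  revert D
  rw [e1]
  intro D hD hDc
  exact ⟨D, hD, hDc⟩

/-- Check of a periodic family with lengths and costs. -/
def famB (m : ℕ) (l1 per l2 : List (ℕ × ℕ)) (a b P c : ℕ) : Bool :=
  okF m l1 per l2 && Nat.beq (l1.length + l2.length) a && Nat.beq (cost m l1 + cost m l2) b &&
    Nat.beq per.length P && Nat.beq (cost m per) c

theorem famB_patrol (m : ℕ) (l1 per l2 : List (ℕ × ℕ)) (a b P c : ℕ)
    (h : famB m l1 per l2 a b P c = true) (k : ℕ) :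
    ∃ D : Finset (Fin m × Fin (a + k * P)), Patrol (grid m (a + k * P)) D ∧ D.card = b + k * c := by
  unfold famB at h
  simp only [Bool.and_eq_true, Nat.beq_eq] at h
  obtain ⟨⟨⟨⟨h1, h2⟩, h3⟩, h4⟩, h5⟩ := h
  subst h2 h3 h4 h5
  exact fam_patrol m l1 per l2 h1 k _ _ rfl rfl

/-- Check of a word with length and cost. -/
def oneB (m : ℕ) (l : List (ℕ × ℕ)) (n c : ℕ) : Bool :=
  okL m (0, 0) l (0, 0) && Nat.beq l.length n && Nat.beq (cost m l) c

theorem one_patrol (m : ℕ) (l : List (ℕ × ℕ)) (n c : ℕ) (h : okL m (0, 0) l (0, 0) = true)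
    (hn : l.length = n) (hc : cost m l = c) :
    ∃ D : Finset (Fin m × Fin n), Patrol (grid m n) D ∧ D.card = c := by
  subst hn
  subst hc
  exact word_patrol m l h

theorem oneB_patrol (m : ℕ) (l : List (ℕ × ℕ)) (n c : ℕ) (h : oneB m l n c = true) :
    ∃ D : Finset (Fin m × Fin n), Patrol (grid m n) D ∧ D.card = c := by
  unfold oneB at h
  simp only [Bool.and_eq_true, Nat.beq_eq] at h
  exact one_patrol m l n c h.1.1 h.1.2 h.2

end PatDom
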